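import Pool.Agent.LibPQ89.Defs

/-!
[PQ89 B0] (SHORT, several) Basic lemmas on `PF`, `HF`, `Ful`.
`PF_mul`: concatenate the two sublists. `HF_one`: the set of `h` with `h c = 1` is a subgroup containing `PF F s` (`Subgroup.closure_induction`).
`PF_flatten`: induction on `List.Forall₂`: head by `PF_mul`; the second statement gives a nonempty sublist: if some `x ∈ xs` is not `1` its sublist is nonempty.
-/

set_option autoImplicit false

namespace Pool.Agent.LibPQ89

variable {T : Type*} [Group T] {n : ℕ}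

theorem one_mem_PF (F : Set (Fin n)) (s : List (Fin n → T)) : (1 : Fin n → T) ∈ PF F s := by
  exact ⟨⟨[], List.nil_sublist _, rfl⟩, fun _ _ => rfl⟩

theorem PF_mul {F : Set (Fin n)} {s s' : List (Fin n → T)} {x y : Fin n → T} (hx : x ∈ PF F s) (hy : y ∈ PF F s') :
    x * y ∈ PF F (s ++ s') := by
  obtain ⟨⟨t, ht, rfl⟩, h1⟩ := hx
  obtain ⟨⟨t', ht', rfl⟩, h2⟩ := hy
  refine ⟨⟨t ++ t', ht.append ht', List.prod_append⟩, fun c hc => ?_⟩
  rw [Pi.mul_apply, h1 c hc, h2 c hc, mul_one]

theorem PF_mono {F F' : Set (Fin n)} {s s' : List (Fin n → T)} (hF : F' ⊆ F) (hs : s.Sublist s') :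
    PF F s ⊆ PF F' s' := by
  rintro x ⟨⟨t, ht, rfl⟩, h1⟩
  exact ⟨⟨t, ht.trans hs, rfl⟩, fun c hc => h1 c (hF hc)⟩

theorem HF_mono {F F' : Set (Fin n)} {s s' : List (Fin n → T)} (hF : F' ⊆ F) (hs : s.Sublist s') :
    HF F s ≤ HF F' s' := by
  exact Subgroup.closure_mono (PF_mono hF hs)

theorem HF_one {F : Set (Fin n)} {s : List (Fin n → T)} {h : Fin n → T} (hh : h ∈ HF F s) {c : Fin n} (hc : c ∈ F) :
    h c = 1 := by
  unfold HF at hh
  induction hh using Subgroup.closure_induction with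
  | mem x hx => exact hx.2 c hc
  | one => rfl
  | mul x y _ _ hx hy => rw [Pi.mul_apply, hx, hy, mul_one]
  | inv x _ hx => rw [Pi.inv_apply, hx, inv_one]

theorem Ful_mono {H H' : Subgroup (Fin n → T)} (h : H ≤ H') {c : Fin n} (hc : Ful H c) : Ful H' c := by
  intro τ
  obtain ⟨g, hg, h1⟩ := hc τ
  exact ⟨g, h hg, h1⟩

theorem Nt_mono {F F' : Set (Fin n)} {s s' : List (Fin n → T)} (hF : F' ⊆ F) (hs : s.Sublist s') (h : Nt F s) :
    Nt F' s' := by
  obtain ⟨t, ht, h0, h1⟩ := h
  exact ⟨t, ht.trans hs, h0, fun c hc => h1 c (hF hc)⟩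

theorem Rt_mono {G : Type*} [Group G] {s s' : List G} (hs : s.Sublist s') (h : Rt s) : Rt s' := by
  obtain ⟨t, ht, h0, h1⟩ := h
  exact ⟨t, ht.trans hs, h0, h1⟩

theorem PF_flatten {F : Set (Fin n)} {xs : List (Fin n → T)} {Zs : List (List (Fin n → T))}
    (h : List.Forall₂ (fun x Z => x ∈ PF F Z) xs Zs) :
    xs.prod ∈ PF F Zs.flatten ∧
      ((∃ x ∈ xs, x ≠ 1) → ∃ t : List (Fin n → T), t.Sublist Zs.flatten ∧ t ≠ [] ∧ t.prod = xs.prod) := by
  induction h with
  | nil =>
    refine ⟨?_, ?_⟩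
    · rw [List.prod_nil]
      exact one_mem_PF F _
    · rintro ⟨x, hx, _⟩
      simp at hx
  | @cons x Z xs Zs hx hrest ih =>
    obtain ⟨ih1, ih2⟩ := ih
    refine ⟨?_, ?_⟩
    · rw [List.prod_cons, List.flatten_cons]
      exact PF_mul hx ih1
    · intro hne
      obtain ⟨⟨t, ht, htx⟩, _⟩ := hx
      by_cases hx1 : x = 1
      · have hne' : ∃ y ∈ xs, y ≠ 1 := by
          obtain ⟨y, hy, hy1⟩ := hne
          rcases List.mem_cons.mp hy with rfl | hy'
          · exact absurd hx1 hy1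
          · exact ⟨y, hy', hy1⟩
        obtain ⟨t', ht', h0', h1'⟩ := ih2 hne'
        refine ⟨t ++ t', ?_, ?_, ?_⟩
        · rw [List.flatten_cons]
          exact ht.append ht'
        · intro h
          exact h0' (List.append_eq_nil_iff.mp h).2
        · rw [List.prod_append, List.prod_cons, htx, h1']
      · obtain ⟨⟨t', ht', h1'⟩, _⟩ := ih1
        refine ⟨t ++ t', ?_, ?_, ?_⟩
        · rw [List.flatten_cons]
          exact ht.append ht'
        · intro h
          have h0 := (List.append_eq_nil_iff.mp h).1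
          rw [h0, List.prod_nil] at htx
          exact hx1 htx.symm
        · rw [List.prod_append, List.prod_cons, htx, h1']

theorem sub_flatten {α : Type*} {V : List α} {bs : List (List α)} (h : V ∈ bs) : V.Sublist bs.flatten := by
  exact List.sublist_flatten_of_mem h

theorem flatten_sub {α : Type*} {bs bs' : List (List α)} (h : bs.Sublist bs') : bs.flatten.Sublist bs'.flatten := by
  exact h.flatten

end Pool.Agent.LibPQ89
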