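import Pool.Agent.LibPQ89.Defs

/-!
[PQ89 L2] (SHORT/MEDIUM, three lemmas) Links, Lemma 2 of the page. Compare `Pool/Agent/LibCR14/D6a.lean` (`linked`), the proofs can be copied.
`lnk_ful`: choose `f : T → (Fin n → T)`... as in `linked`: the coordinate `h c` depends only on `h q` (`hl` applied to `h * h'⁻¹`); the map from the subset `{h q : h ∈ H}` of `T` onto `T`, `h q ↦ h c`, is surjective (`hc`); `T` is finite, so the subset is all of `T`
(choose for every `t` an `h_t ∈ H` with `h_t c = t`; `t ↦ h_t q` is injective, since `h_t q = h_t' q` gives `h_t c = h_t' c`; injective on a finite type, so surjective: `Ful H q`), and if `h c = 1` then `h q = 1`: write `h q = h_t q` for some `t`, then `t = h_t c = h c = 1`,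
and `h q = h_1 q`; `1 q = 1 = h_t' q` for some `t'` with `t' = 1`, so `h_1 q = 1`.
`fix_out`: induction on the Finset `Q`. `N_Q = {h c : h ∈ H, h = 1 on Q}` is a subgroup of `T`, normal by `hc`; for `Q = ∅` it is `⊤`. `N_{q}` is not `⊥` (`hQ`), so `⊤` (`IsSimpleGroup.eq_bot_or_eq_top_of_normal`). Step `insert q Q`: take noncommuting `a`, `b` (`hna`), `h1 ∈ H`, `h1 = 1` on `Q`,
`h1 c = a`, `h2 ∈ H`, `h2 q = 1`, `h2 c = b`; the commutator is `1` on `insert q Q` and `≠ 1` at `c`: `N_{insert q Q} ≠ ⊥`, so `⊤`.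
`lon_or`: if no `q ≠ c` has `Lnk H c q`, apply `fix_out` with `Q = univ.erase c`: `Pi.mulSingle c τ = h ∈ H`. Then `lnk_ful`.
-/

set_option autoImplicit false

namespace Pool.Agent.LibPQ89

variable {T : Type*} [Group T] {n : ℕ}

theorem lnk_ful [Finite T] {H : Subgroup (Fin n → T)} {c q : Fin n} (hc : Ful H c) (hl : Lnk H c q) :
    Ful H q ∧ Lnk H q c := by
  choose f hfH hfc using hc
  have key : ∀ g ∈ H, ∀ g' ∈ H, g q = g' q → g c = g' c := by
    intro g hg g' hg' h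
    have h1 : (g * g'⁻¹) c = 1 := by
      apply hl _ (H.mul_mem hg (H.inv_mem hg'))
      rw [Pi.mul_apply, Pi.inv_apply, h, mul_inv_cancel]
    rwa [Pi.mul_apply, Pi.inv_apply, mul_inv_eq_one] at h1
  have hinj : Function.Injective (fun t => f t q) := by
    intro t t' h
    have h2 := key _ (hfH t) _ (hfH t') h
    rwa [hfc, hfc] at h2
  have hsurj : Function.Surjective (fun t => f t q) := Finite.injective_iff_surjective.1 hinj
  refine ⟨fun τ => ?_, fun h hh h1 => ?_⟩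
  · obtain ⟨t, ht⟩ := hsurj τ
    exact ⟨f t, hfH t, ht⟩
  · obtain ⟨t, ht⟩ := hsurj (h q)
    obtain ⟨t', ht'⟩ := hsurj 1
    have h3 : t = 1 := by
      have := key _ (hfH t) _ hh ht
      rw [hfc, h1] at this
      exact this
    have h4 : t' = 1 := by
      have := key _ (hfH t') _ H.one_mem ht'
      rw [hfc] at this
      exact this
    have h5 : h q = f 1 q := by rw [← ht, h3]
    have h6 : f 1 q = 1 := by rw [h4] at ht'; exact ht'
    rw [h5, h6]

/-- the coordinates at `c` of the elements of `H` which are `1` on `Q` -/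
private def outGroup (H : Subgroup (Fin n → T)) (c : Fin n) (Q : Finset (Fin n)) : Subgroup T where
  carrier := {t | ∃ g ∈ H, g c = t ∧ ∀ q ∈ Q, g q = 1}
  mul_mem' := by
    rintro a b ⟨g, hg, h1, h2⟩ ⟨g', hg', h1', h2'⟩
    exact ⟨g * g', H.mul_mem hg hg', by rw [Pi.mul_apply, h1, h1'],
      fun q hq => by rw [Pi.mul_apply, h2 q hq, h2' q hq, one_mul]⟩
  one_mem' := ⟨1, H.one_mem, rfl, fun _ _ => rfl⟩
  inv_mem' := by
    rintro a ⟨g, hg, h1, h2⟩
    exact ⟨g⁻¹, H.inv_mem hg, by rw [Pi.inv_apply, h1], fun q hq => by rw [Pi.inv_apply, h2 q hq, inv_one]⟩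

private theorem outGroup_normal {H : Subgroup (Fin n → T)} {c : Fin n} (hc : Ful H c) (Q : Finset (Fin n)) :
    (outGroup H c Q).Normal := by
  constructor
  rintro a ⟨g, hg, h1, h2⟩ t
  obtain ⟨k, hk, hkt⟩ := hc t
  refine ⟨k * g * k⁻¹, H.mul_mem (H.mul_mem hk hg) (H.inv_mem hk), ?_, fun q hq => ?_⟩
  · rw [Pi.mul_apply, Pi.mul_apply, Pi.inv_apply, hkt, h1]
  · rw [Pi.mul_apply, Pi.mul_apply, Pi.inv_apply, h2 q hq, mul_one, mul_inv_cancel]

private theorem outGroup_top [IsSimpleGroup T] {H : Subgroup (Fin n → T)} {c : Fin n} (hc : Ful H c)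
    (Q : Finset (Fin n)) (g : Fin n → T) (hg : g ∈ H) (hgc : g c ≠ 1) (hgQ : ∀ q ∈ Q, g q = 1) (τ : T) :
    ∃ h ∈ H, h c = τ ∧ ∀ q ∈ Q, h q = 1 := by
  have hmem : g c ∈ outGroup H c Q := ⟨g, hg, rfl, hgQ⟩
  rcases (outGroup_normal hc Q).eq_bot_or_eq_top with h | h
  · rw [h, Subgroup.mem_bot] at hmem
    exact absurd hmem hgc
  · have ht : τ ∈ outGroup H c Q := by rw [h]; exact Subgroup.mem_top τ
    exact ht

theorem fix_out [IsSimpleGroup T] (hna : ∃ a b : T, a * b ≠ b * a) {H : Subgroup (Fin n → T)} {c : Fin n}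
    (hc : Ful H c) (Q : Finset (Fin n)) (hQ : ∀ q ∈ Q, ¬ Lnk H c q) (τ : T) :
    ∃ h ∈ H, h c = τ ∧ ∀ q ∈ Q, h q = 1 := by
  induction Q using Finset.induction_on generalizing τ with
  | empty =>
    obtain ⟨h, hh, h1⟩ := hc τ
    exact ⟨h, hh, h1, fun q hq => absurd hq (Finset.notMem_empty q)⟩
  | insert q Q hqQ ih =>
    have ih' := ih (fun q' hq' => hQ q' (Finset.mem_insert_of_mem hq'))
    obtain ⟨a, b, hab⟩ := hna
    obtain ⟨h1, h1H, h1c, h1Q⟩ := ih' a
    have hq : ∀ σ : T, ∃ h ∈ H, h c = σ ∧ ∀ q' ∈ ({q} : Finset (Fin n)), h q' = 1 := by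
      intro σ
      have hn : ¬ ∀ h ∈ H, h q = 1 → h c = 1 := hQ q (Finset.mem_insert_self q Q)
      push Not at hn
      obtain ⟨g, hg, hgq, hgc⟩ := hn
      exact outGroup_top hc {q} g hg hgc (fun q' hq' => by rw [Finset.mem_singleton.1 hq']; exact hgq) σ
    obtain ⟨h2, h2H, h2c, h2q⟩ := hq b
    have h2q' : h2 q = 1 := h2q q (Finset.mem_singleton_self q)
    refine outGroup_top hc (insert q Q) (h1 * h2 * h1⁻¹ * h2⁻¹)
      (H.mul_mem (H.mul_mem (H.mul_mem h1H h2H) (H.inv_mem h1H)) (H.inv_mem h2H)) ?_ ?_ τ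
    · rw [Pi.mul_apply, Pi.mul_apply, Pi.mul_apply, Pi.inv_apply, Pi.inv_apply, h1c, h2c]
      intro h
      apply hab
      rw [mul_inv_eq_one, mul_inv_eq_iff_eq_mul] at h
      exact h
    · intro q' hq'
      rw [Pi.mul_apply, Pi.mul_apply, Pi.mul_apply, Pi.inv_apply, Pi.inv_apply]
      rcases Finset.mem_insert.1 hq' with h | h
      · rw [h, h2q', mul_one, mul_inv_cancel, inv_one, one_mul]
      · rw [h1Q q' h, one_mul, inv_one, mul_one, mul_inv_cancel]

theorem lon_or [Finite T] [IsSimpleGroup T] (hna : ∃ a b : T, a * b ≠ b * a) {H : Subgroup (Fin n → T)} {c : Fin n}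
    (hc : Ful H c) (hl : ¬ Lon H c) : ∃ q, q ≠ c ∧ Ful H q ∧ Lnk H c q ∧ Lnk H q c := by
  by_cases hex : ∃ q, q ≠ c ∧ Lnk H c q
  · obtain ⟨q, hqc, hq⟩ := hex
    obtain ⟨h1, h2⟩ := lnk_ful hc hq
    exact ⟨q, hqc, h1, hq, h2⟩
  · exfalso
    apply hl
    intro τ
    obtain ⟨h, hH, h1, h2⟩ := fix_out hna hc (Finset.univ.erase c)
      (fun q hq hlq => hex ⟨q, Finset.ne_of_mem_erase hq, hlq⟩) τ
    have he : Pi.mulSingle c τ = h := by
      funext i
      by_cases hi : i = c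
      · subst hi
        rw [Pi.mulSingle_eq_same, h1]
      · rw [Pi.mulSingle_eq_of_ne hi, h2 i (Finset.mem_erase.2 ⟨hi, Finset.mem_univ i⟩)]
    rw [he]
    exact hH

end Pool.Agent.LibPQ89
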