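import Pool.Agent.LibPQ89.B0
import Pool.Agent.LibPQ89.L2

/-!
[PQ89 C1] (MEDIUM) Costly steps, section 4 of the page. `F_t = (l.take t).toFinset`, `c_t = l[t]`. `K = {l[t] : t, Ful (HF F_t Y) l[t]}`. For such a `t` (costly) `lon_or` gives a partner `q_t ≠ c_t` with `Ful (HF F_t Y) q_t`, `Lnk (HF F_t Y) q_t c_t` (so `q_t` is `1` on `HF F_{t+1} Y`, because there
`c_t` is `1`: `HF_mono`, `HF_one`). The map `K → univ \ K`, `c_t ↦ q_t`, is injective and `q_t ∉ K`: if `t < t'` are costly, `q_{t'}` is full in `HF F_{t'} Y ≤ HF F_{t+1} Y` where `q_t` is `1` (`T` nontrivial), so `q_t ≠ q_{t'}`; if `q_t = l[t']` with `t'` costly: `t' < t` would give `q_t ∈ F_t`, so `q_t = 1` on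
`HF F_t Y`, not full; `t' = t` is excluded by `q_t ≠ c_t`; `t' > t`: `l[t']` is full in `HF F_{t'} Y ≤ HF F_{t+1} Y`, where it is `1`. So `2 * K.card ≤ n` (`K` and its image are disjoint in `Fin n`).
Second statement: let `t` be the first index with `l[t] ∉ F` (exists since `F ≠ univ` and `l` contains everything; `Nat.find`): `F_t ⊆ F`, so `HF F Y ≤ HF F_t Y`; if `l[t]` were full in `HF F Y` it would be full in `HF F_t Y` (`Ful_mono`), so in `K ⊆ F`.
-/

set_option autoImplicit false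

namespace Pool.Agent.LibPQ89

private theorem c1_nonful {T : Type*} [Group T] {n : ℕ} {τ : T} (hτ : τ ≠ 1) {H : Subgroup (Fin n → T)}
    {c : Fin n} (h : ∀ x ∈ H, x c = 1) : ¬ Ful H c := by
  intro hf
  obtain ⟨x, hx, e⟩ := hf τ
  exact hτ (e.symm.trans (h x hx))

theorem costly {T : Type*} [Group T] [Finite T] [IsSimpleGroup T] (hna : ∃ a b : T, a * b ≠ b * a) {n : ℕ}
    (Y : List (Fin n → T)) (l : List (Fin n)) (hnd : l.Nodup) (hall : ∀ c, c ∈ l)
    (hl : ∀ (t : ℕ) (ht : t < l.length), ¬ Lon (HF ((l.take t).toFinset : Set (Fin n)) Y) l[t]) :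
    ∃ K : Finset (Fin n), 2 * K.card ≤ n ∧
      ∀ F : Finset (Fin n), K ⊆ F → F ≠ Finset.univ → ∃ c, c ∉ F ∧ ¬ Ful (HF (F : Set (Fin n)) Y) c := by
  classical
  obtain ⟨τ, hτ⟩ := exists_ne (1 : T)
  obtain ⟨A, hA⟩ : ∃ A : ℕ → Subgroup (Fin n → T),
      ∀ t, A t = HF ((l.take t).toFinset : Set (Fin n)) Y := ⟨_, fun _ => rfl⟩
  have hmono : ∀ t t' : ℕ, t ≤ t' → A t' ≤ A t := by
    intro t t' htt
    rw [hA, hA]
    apply HF_mono _ (List.Sublist.refl Y)
    intro x hx
    simp only [Finset.mem_coe, List.mem_toFinset] at hx ⊢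
    obtain ⟨i, hi, rfl⟩ := List.mem_take_iff_getElem.1 hx
    exact List.mem_take_iff_getElem.2 ⟨i, by omega, rfl⟩
  have hone : ∀ (t t' : ℕ) (ht : t < l.length), t < t' → ∀ h ∈ A t', h l[t] = 1 := by
    intro t t' ht htt h hh
    rw [hA] at hh
    apply HF_one hh
    simp only [Finset.mem_coe, List.mem_toFinset]
    exact List.mem_take_iff_getElem.2 ⟨t, by omega, rfl⟩
  obtain ⟨K, hK⟩ : ∃ K : Finset (Fin n),
      K = Finset.univ.filter fun c => ∃ (t : ℕ) (ht : t < l.length), l[t] = c ∧ Ful (A t) c :=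
    ⟨_, rfl⟩
  have hKm : ∀ c, c ∈ K ↔ ∃ (t : ℕ) (ht : t < l.length), l[t] = c ∧ Ful (A t) c := fun c => by
    rw [hK]; simp
  have hpart : ∀ c, ∃ q : Fin n, c ∈ K → ∃ (t : ℕ) (ht : t < l.length), l[t] = c ∧ q ≠ c ∧
      Ful (A t) q ∧ Lnk (A t) q c := by
    intro c
    by_cases hc : c ∈ K
    · obtain ⟨t, ht, rfl, hf⟩ := (hKm c).1 hc
      have h1 := hl t ht
      rw [← hA] at h1
      obtain ⟨q, hq, hqf, _, hqc⟩ := lon_or hna hf h1
      exact ⟨q, fun _ => ⟨t, ht, rfl, hq, hqf, hqc⟩⟩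
    · exact ⟨c, fun h => absurd h hc⟩
  choose f hf using hpart
  -- the partner is `1` later
  have hlate : ∀ (t t' : ℕ) (ht : t < l.length) (q : Fin n), Lnk (A t) q l[t] → t < t' →
      ∀ h ∈ A t', h q = 1 := by
    intro t t' ht q hq htt h hh
    exact hq h (hmono t t' htt.le hh) (hone t t' ht htt h hh)
  refine ⟨K, ?_, ?_⟩
  · have hinj : Set.InjOn f K := by
      intro c hc c' hc' hcc
      obtain ⟨t, ht, htc, _, hqf, hql⟩ := hf c hc
      obtain ⟨t', ht', htc', _, hqf', hql'⟩ := hf c' hc'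
      rcases lt_trichotomy t t' with h | h | h
      · exfalso
        rw [← htc] at hql
        have h1 := hlate t t' ht _ hql h
        rw [htc, hcc] at h1
        exact c1_nonful hτ h1 hqf'
      · subst h
        exact htc.symm.trans htc'
      · exfalso
        rw [← htc'] at hql'
        have h1 := hlate t' t ht' _ hql' h
        rw [htc', ← hcc] at h1
        exact c1_nonful hτ h1 hqf
    have hdis : Disjoint K (K.image f) := by
      rw [Finset.disjoint_right]
      intro q hq hqK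
      obtain ⟨c, hc, rfl⟩ := Finset.mem_image.1 hq
      obtain ⟨t, ht, htc, hne, hqf, hql⟩ := hf c hc
      obtain ⟨t', ht', htq, hf'⟩ := (hKm _).1 hqK
      rcases lt_trichotomy t' t with h | h | h
      · have h1 := hone t' t ht' h
        rw [htq] at h1
        exact c1_nonful hτ h1 hqf
      · subst h
        exact hne (htq.symm.trans htc)
      · rw [← htc] at hql
        have h1 := hlate t t' ht _ hql h
        rw [htc] at h1
        exact c1_nonful hτ h1 hf'
    have h1 := Finset.card_union_of_disjoint hdis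
    rw [Finset.card_image_of_injOn hinj] at h1
    have h2 := Finset.card_le_univ (K ∪ K.image f)
    rw [Fintype.card_fin] at h2
    omega
  · intro F hKF hF
    have hex : ∃ t : ℕ, ∃ ht : t < l.length, l[t] ∉ F := by
      obtain ⟨c, hc⟩ : ∃ c, c ∉ F := by
        by_contra hcon
        push Not at hcon
        exact hF (Finset.eq_univ_iff_forall.2 hcon)
      obtain ⟨t, ht, htc⟩ := List.mem_iff_getElem.1 (hall c)
      exact ⟨t, ht, by rw [htc]; exact hc⟩
    obtain ⟨t, ⟨ht, htF⟩, hmin⟩ : ∃ t : ℕ, (∃ ht : t < l.length, l[t] ∉ F) ∧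
        ∀ t' < t, ¬ ∃ ht : t' < l.length, l[t'] ∉ F :=
      ⟨Nat.find hex, Nat.find_spec hex, fun t' h => Nat.find_min hex h⟩
    refine ⟨l[t], htF, fun hful => htF (hKF ?_)⟩
    rw [hKm]
    refine ⟨t, ht, rfl, Ful_mono ?_ hful⟩
    rw [hA]
    apply HF_mono _ (List.Sublist.refl Y)
    intro x hx
    simp only [Finset.mem_coe, List.mem_toFinset] at hx ⊢
    obtain ⟨i, hi, rfl⟩ := List.mem_take_iff_getElem.1 hx
    by_contra hcon
    exact hmin i (by omega) ⟨by omega, hcon⟩

end Pool.Agent.LibPQ89
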