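import Mathlib

/-!
# LibPQ89: ordered products in the powers of a finite group, definitions

Page PO89_quasi.md. `s`, `V` are lists of elements of `T^n = Fin n → T`; `bs` is a list of blocks (a block is a list).
-/

set_option autoImplicit false

namespace Pool.Agent.LibPQ89

/-- `s` returns: a nonempty sublist has product `1`. -/
def Rt {G : Type*} [Group G] (s : List G) : Prop := ∃ t : List G, t.Sublist s ∧ t ≠ [] ∧ t.prod = 1

variable {T : Type*} [Group T] {n : ℕ}

/-- the products of the sublists of `s` which are `1` at the coordinates of `F` -/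
def PF (F : Set (Fin n)) (s : List (Fin n → T)) : Set (Fin n → T) :=
  {x | (∃ t : List (Fin n → T), t.Sublist s ∧ t.prod = x) ∧ ∀ c ∈ F, x c = 1}

/-- the subgroup generated by `PF F s` -/
def HF (F : Set (Fin n)) (s : List (Fin n → T)) : Subgroup (Fin n → T) := Subgroup.closure (PF F s)

/-- `c` is a full coordinate of the subgroup `H` -/
def Ful (H : Subgroup (Fin n → T)) (c : Fin n) : Prop := ∀ τ : T, ∃ h ∈ H, h c = τ

/-- the coordinate `c` of an element of `H` is `1` if the coordinate `q` is -/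
def Lnk (H : Subgroup (Fin n → T)) (c q : Fin n) : Prop := ∀ h ∈ H, h q = 1 → h c = 1

/-- `H` contains the factor `T^(c)` -/
def Lon (H : Subgroup (Fin n → T)) (c : Fin n) : Prop := ∀ τ : T, Pi.mulSingle c τ ∈ H

/-- a translate of the factor `T^(c)` lies in `PF F Z` -/
def Flex (F : Set (Fin n)) (Z : List (Fin n → T)) (c : Fin n) : Prop :=
  ∃ a : Fin n → T, ∀ τ : T, a * Pi.mulSingle c τ ∈ PF F Z

/-- `Z` has a nonempty sublist whose product is `1` on `F` -/
def Nt (F : Set (Fin n)) (Z : List (Fin n → T)) : Prop :=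
  ∃ t : List (Fin n → T), t.Sublist Z ∧ t ≠ [] ∧ ∀ c ∈ F, t.prod c = 1

/-- the conclusion of Lemma 1 of the page, with the constant `b` -/
def GoodPos (n : ℕ) (T : Type*) [Group T] (b : ℕ) : Prop :=
  ∀ (F : Set (Fin n)) (bs : List (List (Fin n → T))) (p : List (Fin n → T) → Bool), b < bs.countP p →
    ∃ V ∈ bs, p V = true ∧ ∃ x y : Fin n → T, ∀ h ∈ HF F V, x * h * y ∈ PF F bs.flatten

/-- every list of length at least `K` whose entries lie, coordinate by coordinate, in proper subgroups of `T`,
returns -/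
def PropRet (n : ℕ) (T : Type*) [Group T] (K : ℕ) : Prop :=
  ∀ S : Fin n → Subgroup T, (∀ c, S c ≠ ⊤) → ∀ w : List (Fin n → T), K ≤ w.length →
    (∀ x ∈ w, ∀ c, x c ∈ S c) → Rt w

/-- the scale of quasi-polynomial functions: `2 ^ ((log2 (n + 2) + 1) ^ C)` -/
def qp (C n : ℕ) : ℕ := 2 ^ ((Nat.log 2 (n + 2) + 1) ^ C)

/-- quasi-polynomially long lists in the powers of `G` return -/
def PQ (G : Type*) [Group G] : Prop :=
  ∃ C : ℕ, ∀ (n : ℕ) (l : List (Fin n → G)), qp C n ≤ l.length → Rt l

end Pool.Agent.LibPQ89
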