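import Pool.Agent.LibPQ89.B0

/-!
[PQ89 E1] (MEDIUM) (EL) of the page. For `V ∈ bs` let `t_V` be the nonempty sublist (trivial on `F`), `x_V = t_V.prod ∈ HF F bs.flatten`. For `q ∈ Q` the subgroup `S q = (HF F bs.flatten).map (Pi.evalMonoidHom _ q)` is not `⊤` (`hQ`); for `q ∉ Q` put `S q = ⊥` (`T` nontrivial).
Let `x'_V q = x_V q` for `q ∈ Q` and `1` otherwise. `hK S _ (bs.map x')`: a nonempty sublist of `bs.map x'` with product `1`; by `List.sublist_map_iff` it is `bs'.map x'` with `bs'` a nonempty sublist of `bs` (use `bs.attach` or `List.pmap` for the choice of `t_V`, or `choose` with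
`∀ V, V ∈ bs → ..` and a default). Then `t = (bs'.map t_V).flatten` is a sublist of `bs.flatten` (compare `flatten_sublist_of_sublist` and `PO_ext` in `Pool/Agent/LibSMP/ProductOne.lean`), nonempty, its product is `1` on `F` (every factor is) and on `Q`.
-/

set_option autoImplicit false

namespace Pool.Agent.LibPQ89

private theorem E1_sub {α : Type*} (tt : List α → List α) (htt : ∀ V, (tt V).Sublist V) {bs' bs : List (List α)}
    (h : bs'.Sublist bs) : ((bs'.map tt).flatten).Sublist bs.flatten := by
  induction h with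
  | slnil => simp
  | cons V _ ih =>
    rw [List.flatten_cons]
    exact ih.trans (List.sublist_append_right _ _)
  | cons_cons V _ ih =>
    rw [List.map_cons, List.flatten_cons, List.flatten_cons]
    exact (htt V).append ih

private theorem E1_prod {T : Type*} [Group T] {n : ℕ} (x : List (Fin n → T) → (Fin n → T))
    (l : List (List (Fin n → T))) (c : Fin n) : (l.map x).prod c = (l.map fun V => x V c).prod := by
  induction l with
  | nil => rfl
  | cons V l ih =>
    rw [List.map_cons, List.map_cons, List.prod_cons, List.prod_cons, Pi.mul_apply, ih]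

theorem EL {T : Type*} [Group T] [Nontrivial T] {n K : ℕ} (hK : PropRet n T K) (F Q : Set (Fin n))
    (bs : List (List (Fin n → T))) (hlen : K ≤ bs.length) (hne : ∀ V ∈ bs, Nt F V)
    (hQ : ∀ q ∈ Q, ¬ Ful (HF F bs.flatten) q) : Nt (F ∪ Q) bs.flatten := by
  classical
  obtain ⟨tt, htt⟩ : ∃ tt : List (Fin n → T) → List (Fin n → T), ∀ V, (tt V).Sublist V ∧
      (Nt F V → tt V ≠ [] ∧ ∀ c ∈ F, (tt V).prod c = 1) := by
    have h : ∀ V : List (Fin n → T), ∃ t : List (Fin n → T), t.Sublist V ∧
        (Nt F V → t ≠ [] ∧ ∀ c ∈ F, t.prod c = 1) := by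
      intro V
      by_cases hV : Nt F V
      · obtain ⟨t, h1, h2, h3⟩ := hV
        exact ⟨t, h1, fun _ => ⟨h2, h3⟩⟩
      · exact ⟨[], List.nil_sublist _, fun h => absurd h hV⟩
    choose tt htt using h
    exact ⟨tt, htt⟩
  set x : List (Fin n → T) → (Fin n → T) := fun V => (tt V).prod with hx
  set x' : List (Fin n → T) → (Fin n → T) := fun V q => if q ∈ Q then x V q else 1 with hx'
  let S : Fin n → Subgroup T := fun q =>
    if q ∈ Q then (HF F bs.flatten).map (Pi.evalMonoidHom (fun _ => T) q) else ⊥
  have hS : ∀ c, S c ≠ ⊤ := by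
    intro c
    by_cases hc : c ∈ Q
    · have h1 : S c = (HF F bs.flatten).map (Pi.evalMonoidHom (fun _ => T) c) := if_pos hc
      rw [h1]
      intro h2
      apply hQ c hc
      intro τ
      have h3 : τ ∈ (HF F bs.flatten).map (Pi.evalMonoidHom (fun _ => T) c) := by
        rw [h2]
        exact Subgroup.mem_top τ
      obtain ⟨h, hh, h4⟩ := Subgroup.mem_map.1 h3
      exact ⟨h, hh, h4⟩
    · have h1 : S c = ⊥ := if_neg hc
      rw [h1]
      exact bot_ne_top
  have hmem : ∀ y ∈ bs.map x', ∀ c, y c ∈ S c := by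
    intro y hy c
    obtain ⟨V, hV, rfl⟩ := List.mem_map.1 hy
    by_cases hc : c ∈ Q
    · have h1 : S c = (HF F bs.flatten).map (Pi.evalMonoidHom (fun _ => T) c) := if_pos hc
      have h2 : x' V c = x V c := if_pos hc
      rw [h1, h2]
      refine Subgroup.mem_map.2 ⟨x V, Subgroup.subset_closure ⟨⟨tt V, ?_, rfl⟩, ?_⟩, rfl⟩
      · exact (htt V).1.trans (List.sublist_flatten_of_mem hV)
      · exact ((htt V).2 (hne V hV)).2
    · have h1 : S c = ⊥ := if_neg hc
      have h2 : x' V c = 1 := if_neg hc
      rw [h1, h2]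
      exact Subgroup.one_mem _
  obtain ⟨l, hl1, hl2, hl3⟩ := hK S hS (bs.map x') (by rw [List.length_map]; exact hlen) hmem
  obtain ⟨bs', hb1, rfl⟩ := List.sublist_map_iff.1 hl1
  refine ⟨(bs'.map tt).flatten, E1_sub tt (fun V => (htt V).1) hb1, ?_, ?_⟩
  · cases bs' with
    | nil => exact absurd rfl hl2
    | cons V r =>
      have hV : V ∈ bs := hb1.subset List.mem_cons_self
      have h1 := ((htt V).2 (hne V hV)).1
      rw [List.map_cons, List.flatten_cons]
      intro h2
      exact h1 (List.append_eq_nil_iff.1 h2).1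
  · intro c hc
    have h1 : ((bs'.map tt).flatten).prod = (bs'.map x).prod := by
      rw [List.prod_flatten, List.map_map]
      rfl
    rw [h1, E1_prod]
    rcases hc with hc | hc
    · apply List.prod_eq_one
      intro y hy
      obtain ⟨V, hV, rfl⟩ := List.mem_map.1 hy
      exact ((htt V).2 (hne V (hb1.subset hV))).2 c hc
    · have h2 : (bs'.map x').prod c = 1 := by
        rw [hl3]
        rfl
      rw [E1_prod] at h2
      rw [← h2]
      congr 1
      apply List.map_congr_left
      intro V _
      exact (if_pos hc).symm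

end Pool.Agent.LibPQ89
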