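import Pool.Agent.LibPQ89.B0

/-!
[PQ89 F1] (SHORT) More than `b` blocks in which `c` is lonely make the whole list flexible at `c`. `hb F bs p h` gives `V`, `x`, `y` with `x * h * y ∈ PF F bs.flatten` for `h ∈ HF F V ∋ Pi.mulSingle c τ'`.
Take `a = x * y`; `x * Pi.mulSingle c τ' * y = x * y * Pi.mulSingle c ((y c)⁻¹ * τ' * y c)` (check at every coordinate: `Pi.mulSingle_eq_same`, `Pi.mulSingle_eq_of_ne`), with `τ' = y c * τ * (y c)⁻¹`.
-/

set_option autoImplicit false

namespace Pool.Agent.LibPQ89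

open Classical in
theorem flex_of_lon {T : Type*} [Group T] {n b : ℕ} (hb : GoodPos n T b) (F : Set (Fin n))
    (bs : List (List (Fin n → T))) (c : Fin n) (h : b < bs.countP (fun V => decide (Lon (HF F V) c))) :
    Flex F bs.flatten c := by
  obtain ⟨V, _, hV, x, y, hxy⟩ := hb F bs _ h
  have hL : Lon (HF F V) c := by simpa using hV
  refine ⟨x * y, fun τ => ?_⟩
  have h1 : x * Pi.mulSingle c (y c * τ * (y c)⁻¹) * y = x * y * Pi.mulSingle c τ := by
    funext d
    by_cases hd : d = c
    · subst hd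
      simp only [Pi.mul_apply, Pi.mulSingle_eq_same]
      group
    · simp only [Pi.mul_apply, Pi.mulSingle_eq_of_ne hd, mul_one]
  rw [← h1]
  exact hxy _ (hL _)

end Pool.Agent.LibPQ89
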