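import Mathlib

/-!
[PQ89 F2a] (SHORT, two lemmas). `solve_one`: one unknown factor in a product over `Fin N`: write `List.ofFn f` as `(List.ofFn f).take j ++ f j :: drop (j+1)` (or induction on `N` with `Fin.cases`; or `List.prod_ofFn` and `Finset.noncommProd`...): the product is
`A * (u j * τ) * B` with `A`, `B` not depending on `τ`; `τ = (A * u j)⁻¹ * B⁻¹`. (Induction on `N`: for `j = 0` clear, for `j = succ j'` conjugate.) A convenient general form: for every target `z` there is `τ` with product `z`.
`exists_inj`: a system of distinct representatives when all sets are large: Hall (`Finset.all_card_le_biUnion_card_iff_exists_injective`) or greedy induction on the Finset `A`.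
(`[Nonempty β]` added: the statement is false for `A = ∅`, `β` empty, `α` not empty.)
-/

set_option autoImplicit false

namespace Pool.Agent.LibPQ89

theorem solve_one {T : Type*} [Group T] {N : ℕ} (u : Fin N → T) (j : Fin N) (z : T) :
    ∃ τ : T, (List.ofFn (fun i => if i = j then u i * τ else u i)).prod = z := by
  induction N generalizing z with
  | zero => exact j.elim0
  | succ N ih =>
    refine Fin.cases ?_ (fun j' => ?_) j
    · refine ⟨(u 0)⁻¹ * z * ((List.ofFn (fun i : Fin N => u i.succ)).prod)⁻¹, ?_⟩
      rw [List.ofFn_succ, List.prod_cons]
      have h : (fun i : Fin N => if i.succ = (0 : Fin (N + 1)) then u i.succ *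
          ((u 0)⁻¹ * z * ((List.ofFn (fun i : Fin N => u i.succ)).prod)⁻¹) else u i.succ)
          = fun i : Fin N => u i.succ := by
        funext i
        rw [if_neg (Fin.succ_ne_zero i)]
      rw [h, if_pos rfl]
      group
    · obtain ⟨τ, hτ⟩ := ih (fun i => u i.succ) j' ((u 0)⁻¹ * z)
      refine ⟨τ, ?_⟩
      rw [List.ofFn_succ, List.prod_cons, if_neg (Fin.succ_ne_zero j').symm]
      have h : (fun i : Fin N => if i.succ = j'.succ then u i.succ * τ else u i.succ)
          = fun i : Fin N => if i = j' then u i.succ * τ else u i.succ := by
        funext i
        by_cases hi : i = j'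
        · rw [if_pos hi, if_pos (by rw [hi])]
        · rw [if_neg hi, if_neg (fun hh => hi (Fin.succ_injective _ hh))]
      rw [h, hτ]
      group

theorem exists_inj {α β : Type*} [DecidableEq α] [DecidableEq β] [Nonempty β] (A : Finset α)
    (t : α → Finset β)
    (h : ∀ c ∈ A, A.card ≤ (t c).card) : ∃ g : α → β, Set.InjOn g A ∧ ∀ c ∈ A, g c ∈ t c := by
  induction A using Finset.induction_on with
  | empty => exact ⟨fun _ => Classical.arbitrary β, by simp, by simp⟩
  | insert a A ha ih =>
    obtain ⟨g, hg1, hg2⟩ := ih (fun c hc => by
      have h1 := h c (Finset.mem_insert_of_mem hc)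
      rw [Finset.card_insert_of_notMem ha] at h1
      omega)
    have h2 := h a (Finset.mem_insert_self a A)
    rw [Finset.card_insert_of_notMem ha] at h2
    have h3 : (A.image g).card < (t a).card := lt_of_le_of_lt Finset.card_image_le (by omega)
    obtain ⟨b, hb1, hb2⟩ : ∃ b ∈ t a, b ∉ A.image g := by
      by_contra hcon
      push Not at hcon
      exact absurd (Finset.card_le_card (fun x hx => hcon x hx)) (not_le.2 h3)
    refine ⟨fun c => if c = a then b else g c, ?_, ?_⟩
    · intro x hx y hy hxy
      simp only [Finset.coe_insert, Set.mem_insert_iff, Finset.mem_coe] at hx hy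
      by_cases hxa : x = a
      · by_cases hya : y = a
        · rw [hxa, hya]
        · exfalso
          simp only [if_pos hxa, if_neg hya] at hxy
          rcases hy with hy | hy
          · exact hya hy
          · exact hb2 (Finset.mem_image.2 ⟨y, hy, hxy.symm⟩)
      · by_cases hya : y = a
        · exfalso
          simp only [if_neg hxa, if_pos hya] at hxy
          rcases hx with hx | hx
          · exact hxa hx
          · exact hb2 (Finset.mem_image.2 ⟨x, hx, hxy⟩)
        · simp only [if_neg hxa, if_neg hya] at hxy
          rcases hx with hx | hx
          · exact absurd hx hxa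
          rcases hy with hy | hy
          · exact absurd hy hya
          exact hg1 hx hy hxy
    · intro c hc
      by_cases hca : c = a
      · simp only [if_pos hca]
        rw [hca]
        exact hb1
      · simp only [if_neg hca]
        rcases Finset.mem_insert.1 hc with hc | hc
        · exact absurd hc hca
        · exact hg2 c hc

end Pool.Agent.LibPQ89
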