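import Pool.Agent.LibPQ89.B0
import Pool.Agent.LibPQ89.F2a

/-!
[PQ89 F2] (MEDIUM/LONG) The CLAIM in Lemma 3 of the page. Suppose not: for every `c ∉ F` the Finset `t c = {i : Fin N | Flex F (Zs[i]) c}` (`N = Zs.length`) has at least `n + 1` elements (`List.countP` against `Finset.card` of indices: a small lemma, e.g.
`List.countP_eq_length_filter`, `List.countP_ofFn`-like; or `Zs = List.ofFn (Zs.get)`). `A = Fᶜ` is not empty, take `c₀ ∈ A`, `i₀ ∈ t c₀`, and `g` from `exists_inj` for the sets `(t c).erase i₀` (at least `n ≥ A.card` elements).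
For `c ∈ A` let `a c` be the element of `Flex` for `Zs[g c]`, and `a₀` that for `Zs[i₀]`, `c₀`. `T` nontrivial: choose `τ₀` with `a₀ * Pi.mulSingle c₀ τ₀ ≠ 1`. Define `y : Fin N → (Fin n → T)`: `y i₀ = a₀ * Pi.mulSingle c₀ τ₀`, `y (g c) = a c` for `c ∈ A`, `y i = 1` otherwise
(`i₀ ≠ g c`, `g` injective on `A`). For every `c ∈ A` let `τ c` be the solution of `solve_one` for `u i = y i c`, `j = g c`, `z = 1` (for `c ∉ A` take `τ c = 1`). Put `x i = y i * (if i = g c for some c ∈ A then Pi.mulSingle c (τ c) else 1)`. Then `x i ∈ PF F Zs[i]` for all `i`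
(`one_mem_PF` for the others), `x i₀ = y i₀ ≠ 1`, and `(List.ofFn x).prod = 1`: at `c ∈ A` this is `solve_one` (`x i c = if i = g c then y i c * τ c else y i c`), at `c ∈ F` all `x i c = 1` (definition of `PF`). `Pi.list_prod_apply`, `List.map_ofFn`.
`PF_flatten` (with `xs = List.ofFn x`, `Zs = List.ofFn Zs.get`, `List.forall₂_iff_get` or similar): a nonempty sublist of `Zs.flatten` with product `1`. Contradiction to `hcl`.
-/

set_option autoImplicit false

namespace Pool.Agent.LibPQ89

private theorem F2_count {α : Type*} (p : α → Prop) [DecidablePred p] (l : List α) :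
    l.countP (fun x => decide (p x)) =
      (Finset.univ.filter (fun i : Fin l.length => p (l.get i))).card := by
  induction l with
  | nil => simp
  | cons x l ih =>
    rw [List.countP_cons, ih]
    have h := Fin.card_filter_univ_succ' (fun i : Fin (l.length + 1) => p ((x :: l).get i))
    have h2 : (Finset.univ.filter (fun i : Fin (x :: l).length => p ((x :: l).get i))).card =
        (Finset.univ.filter (fun i : Fin (l.length + 1) => p ((x :: l).get i))).card := rfl
    rw [h2, h, Nat.add_comm]
    congr 1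
    by_cases hp : p x
    · have : p ((x :: l).get 0) := hp
      simp [hp]
    · simp [hp]

private theorem F2_single {T : Type*} [Group T] [Nontrivial T] {n : ℕ} (a : Fin n → T) (c : Fin n) :
    ∃ τ : T, a * Pi.mulSingle c τ ≠ 1 := by
  obtain ⟨τ, hτ⟩ := exists_ne (1 : T)
  by_cases h : a * Pi.mulSingle c 1 = 1
  · refine ⟨τ, fun h2 => hτ ?_⟩
    rw [Pi.mulSingle_one, mul_one] at h
    rw [h, one_mul] at h2
    have := congrFun h2 c
    rwa [Pi.mulSingle_eq_same, Pi.one_apply] at this
  · exact ⟨1, h⟩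

open Classical in
theorem exists_not_flex {T : Type*} [Group T] [Nontrivial T] {n : ℕ} (Zs : List (List (Fin n → T)))
    (hcl : ¬ Rt Zs.flatten) (F : Finset (Fin n)) (hF : F ≠ Finset.univ) :
    ∃ c, c ∉ F ∧ Zs.countP (fun Z => decide (Flex (F : Set (Fin n)) Z c)) ≤ n := by
  classical
  by_contra hcon
  push Not at hcon
  set N := Zs.length with hN
  let A : Finset (Fin n) := Fᶜ
  have hAne : A.Nonempty := by
    rw [Finset.nonempty_iff_ne_empty]
    intro h
    exact hF ((Finset.compl_eq_empty_iff F).1 h)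
  have hAcard : A.card ≤ n := by
    have := Finset.card_le_univ A
    rwa [Fintype.card_fin] at this
  let t : Fin n → Finset (Fin N) := fun c =>
    Finset.univ.filter (fun i : Fin N => Flex (F : Set (Fin n)) (Zs.get i) c)
  have ht : ∀ c ∈ A, n < (t c).card := by
    intro c hc
    have h1 := hcon c (Finset.mem_compl.1 hc)
    have h2 := F2_count (fun Z => Flex (F : Set (Fin n)) Z c) Zs
    rw [← h2]
    exact h1
  obtain ⟨c₀, hc₀⟩ := hAne
  have hne : (t c₀).Nonempty := by
    rw [← Finset.card_pos]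
    exact lt_of_le_of_lt (Nat.zero_le _) (ht c₀ hc₀)
  obtain ⟨i₀, hi₀⟩ := hne
  have : Nonempty (Fin _) := ⟨i₀⟩
  obtain ⟨g, hginj, hg⟩ := exists_inj A (fun c => (t c).erase i₀) (by
    intro c hc
    have h1 := ht c hc
    have h2 := Finset.pred_card_le_card_erase (s := t c) (a := i₀)
    show A.card ≤ ((t c).erase i₀).card
    omega)
  have hgne : ∀ c ∈ A, g c ≠ i₀ := fun c hc => (Finset.mem_erase.1 (hg c hc)).1
  have hgfl : ∀ c ∈ A, Flex (F : Set (Fin n)) (Zs.get (g c)) c := fun c hc =>
    (Finset.mem_filter.1 (Finset.mem_erase.1 (hg c hc)).2).2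
  obtain ⟨a₀, ha₀⟩ := (Finset.mem_filter.1 hi₀).2
  obtain ⟨τ₀, hτ₀⟩ := F2_single a₀ c₀
  have hex : ∀ c : Fin n, ∃ a : Fin n → T, c ∈ A →
      ∀ τ : T, a * Pi.mulSingle c τ ∈ PF (F : Set (Fin n)) (Zs.get (g c)) := by
    intro c
    by_cases hc : c ∈ A
    · obtain ⟨a, ha⟩ := hgfl c hc
      exact ⟨a, fun _ => ha⟩
    · exact ⟨1, fun h => absurd h hc⟩
  choose a ha using hex
  let y : Fin N → (Fin n → T) := fun i =>
    if i = i₀ then a₀ * Pi.mulSingle c₀ τ₀
    else if h : ∃ c, c ∈ A ∧ g c = i then a h.choose else 1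
  have hτex : ∀ c : Fin n, ∃ τ : T,
      (List.ofFn (fun i => if i = g c then y i c * τ else y i c)).prod = 1 := fun c =>
    solve_one (fun i => y i c) (g c) 1
  choose τ hτ using hτex
  let x : Fin N → (Fin n → T) := fun i =>
    if i = i₀ then a₀ * Pi.mulSingle c₀ τ₀
    else if h : ∃ c, c ∈ A ∧ g c = i then
      a h.choose * Pi.mulSingle h.choose (τ h.choose) else 1
  have hxPF : ∀ i, x i ∈ PF (F : Set (Fin n)) (Zs.get i) := by
    intro i
    by_cases h1 : i = i₀
    · have : x i = a₀ * Pi.mulSingle c₀ τ₀ := by simp only [x, if_pos h1]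
      rw [this, h1]
      exact ha₀ τ₀
    · by_cases h2 : ∃ c, c ∈ A ∧ g c = i
      · have h3 : x i = a h2.choose * Pi.mulSingle h2.choose (τ h2.choose) := by
          simp only [x, if_neg h1, dif_pos h2]
        rw [h3]
        have h4 := ha h2.choose h2.choose_spec.1 (τ h2.choose)
        have h5 : Zs.get (g h2.choose) = Zs.get i := by rw [h2.choose_spec.2]
        rwa [h5] at h4
      · have h3 : x i = 1 := by simp only [x, if_neg h1, dif_neg h2]
        rw [h3]
        exact one_mem_PF _ _
  have hxc : ∀ c ∈ A, ∀ i, x i c = if i = g c then y i c * τ c else y i c := by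
    intro c hc i
    by_cases h1 : i = i₀
    · have h2 : i ≠ g c := fun h => hgne c hc (h.symm.trans h1)
      simp only [x, y, if_pos h1, if_neg h2]
    · by_cases h2 : ∃ c, c ∈ A ∧ g c = i
      · have h3 : x i = a h2.choose * Pi.mulSingle h2.choose (τ h2.choose) := by
          simp only [x, if_neg h1, dif_pos h2]
        have h4 : y i = a h2.choose := by
          simp only [y, if_neg h1, dif_pos h2]
        rw [h3, h4]
        by_cases h5 : i = g c
        · have h6 : h2.choose = c := hginj h2.choose_spec.1 hc (h2.choose_spec.2.trans h5)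
          rw [if_pos h5, Pi.mul_apply, h6, Pi.mulSingle_eq_same]
        · have h6 : c ≠ h2.choose := by
            intro h7
            apply h5
            rw [h7]
            exact h2.choose_spec.2.symm
          rw [if_neg h5, Pi.mul_apply, Pi.mulSingle_eq_of_ne h6, mul_one]
      · have h3 : x i = 1 := by simp only [x, if_neg h1, dif_neg h2]
        have h4 : y i = 1 := by simp only [y, if_neg h1, dif_neg h2]
        have h5 : i ≠ g c := fun h => h2 ⟨c, hc, h.symm⟩
        rw [h3, h4, if_neg h5]
  have hprod : (List.ofFn x).prod = 1 := by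
    funext c
    rw [Pi.list_prod_apply, List.map_ofFn, Pi.one_apply]
    by_cases hc : c ∈ A
    · have h1 : ((fun f : Fin n → T => f c) ∘ x) =
          fun i => if i = g c then y i c * τ c else y i c := by
        funext i
        exact hxc c hc i
      rw [h1]
      exact hτ c
    · have hcF : c ∈ F := by
        by_contra h
        exact hc (Finset.mem_compl.2 h)
      apply List.prod_eq_one
      intro z hz
      rw [List.mem_ofFn] at hz
      obtain ⟨i, rfl⟩ := hz
      exact (hxPF i).2 c hcF
  have hforall : List.Forall₂ (fun x Z => x ∈ PF (F : Set (Fin n)) Z) (List.ofFn x) Zs := by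
    rw [List.forall₂_iff_get]
    refine ⟨by rw [List.length_ofFn], fun i h₁ h₂ => ?_⟩
    have h3 : (List.ofFn x).get ⟨i, h₁⟩ = x ⟨i, h₂⟩ := by simp
    rw [h3]
    exact hxPF ⟨i, h₂⟩
  obtain ⟨_, h2⟩ := PF_flatten hforall
  obtain ⟨s, hs, hsne, hsp⟩ := h2 ⟨x i₀, by rw [List.mem_ofFn]; exact ⟨i₀, rfl⟩, by
    have : x i₀ = a₀ * Pi.mulSingle c₀ τ₀ := by simp only [x, if_true]
    rw [this]
    exact hτ₀⟩
  exact hcl ⟨s, hs, hsne, hsp.trans hprod⟩

end Pool.Agent.LibPQ89
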