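import Mathlib

/-!
[PQ89 F3] (SHORT, two lemmas). `exists_order`: for every `k ≤ n` there is a nodup list `l` of length `k` with the property (induction on `k`: `F = l.toFinset ≠ univ` since its card is `k < n`; append the `c` of `h`; `List.take_append_of_le_length`,
`List.getElem_append`). For `k = n` the list contains everything (`Finset.eq_univ_of_card`/`List.Nodup.length...`).
`pigeon`: if the bad elements of the `n` predicates are together fewer than `L.length`, some element of `L` is bad for none: induction on `L`, or `L.countP (∃ t, p t) ≤ ∑ t, L.countP (p t)` by induction on `L`, and `List.countP_eq_length`.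
-/

set_option autoImplicit false

namespace Pool.Agent.LibPQ89

private theorem pq89F3_aux {n : ℕ} (P : Finset (Fin n) → Fin n → Prop) (h : ∀ F, F ≠ Finset.univ → ∃ c, c ∉ F ∧ P F c)
    (k : ℕ) (hk : k ≤ n) :
    ∃ l : List (Fin n), l.Nodup ∧ l.length = k ∧ ∀ (t : ℕ) (ht : t < l.length), P (l.take t).toFinset l[t] := by
  induction k with
  | zero => exact ⟨[], List.nodup_nil, rfl, fun t ht => absurd ht (by simp)⟩
  | succ k ih =>
    obtain ⟨l, hl, hlen, hP⟩ := ih (by omega)
    have hF : l.toFinset ≠ Finset.univ := by
      intro hF
      have h1 : l.toFinset.card = n := by rw [hF]; simp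
      rw [List.toFinset_card_of_nodup hl] at h1
      omega
    obtain ⟨c, hc, hPc⟩ := h _ hF
    refine ⟨l ++ [c], ?_, by simp [hlen], ?_⟩
    · rw [List.nodup_append]
      refine ⟨hl, List.nodup_singleton c, ?_⟩
      intro a ha b hb hab
      rw [List.mem_singleton] at hb
      apply hc
      rw [List.mem_toFinset]
      rw [← hb, ← hab]
      exact ha
    · intro t ht
      rcases Nat.lt_or_ge t l.length with htl | htl
      · rw [List.take_append_of_le_length (by omega), List.getElem_append_left htl]
        exact hP t htl
      · have ht2 : t = l.length := by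
          rw [List.length_append, List.length_singleton] at ht
          omega
        subst ht2
        rw [List.take_append_of_le_length (le_refl _), List.take_length]
        simpa using hPc

theorem exists_order {n : ℕ} (P : Finset (Fin n) → Fin n → Prop) (h : ∀ F, F ≠ Finset.univ → ∃ c, c ∉ F ∧ P F c) :
    ∃ l : List (Fin n), l.Nodup ∧ (∀ c, c ∈ l) ∧ ∀ (t : ℕ) (ht : t < l.length), P (l.take t).toFinset l[t] := by
  obtain ⟨l, hl, hlen, hP⟩ := pq89F3_aux P h n (le_refl _)
  refine ⟨l, hl, ?_, hP⟩
  intro c
  have h1 : l.toFinset = Finset.univ := by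
    apply Finset.eq_univ_of_card
    rw [List.toFinset_card_of_nodup hl, hlen, Fintype.card_fin]
  rw [← List.mem_toFinset, h1]
  exact Finset.mem_univ c

theorem pigeon {α : Type*} (L : List α) (m : ℕ) (p : ℕ → α → Bool)
    (h : ∑ t ∈ Finset.range m, L.countP (p t) < L.length) : ∃ Y ∈ L, ∀ t < m, p t Y = false := by
  induction L with
  | nil => simp at h
  | cons a L ih =>
    by_cases ha : ∀ t < m, p t a = false
    · exact ⟨a, List.mem_cons_self, ha⟩
    · have h2 : ∃ t < m, p t a = true := by
        by_contra hcon
        apply ha
        intro t ht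
        by_contra h3
        exact hcon ⟨t, ht, by simpa using h3⟩
      obtain ⟨s, hs, hsa⟩ := h2
      have h3 : ∑ t ∈ Finset.range m, L.countP (p t) + 1 ≤ ∑ t ∈ Finset.range m, (a :: L).countP (p t) := by
        have h4 : ∑ t ∈ Finset.range m, (a :: L).countP (p t)
            = ∑ t ∈ Finset.range m, L.countP (p t) + ∑ t ∈ Finset.range m, (if p t a = true then 1 else 0) := by
          rw [← Finset.sum_add_distrib]
          refine Finset.sum_congr rfl fun t _ => ?_
          rw [List.countP_cons]
        rw [h4]
        have h5 : (if p s a = true then 1 else 0) ≤ ∑ t ∈ Finset.range m, (if p t a = true then 1 else 0) :=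
          Finset.single_le_sum (f := fun t => if p t a = true then 1 else 0) (fun _ _ => Nat.zero_le _) (Finset.mem_range.mpr hs)
        rw [if_pos hsa] at h5
        omega
      rw [List.length_cons] at h
      obtain ⟨Y, hY, hY2⟩ := ih (by omega)
      exact ⟨Y, List.mem_cons_of_mem _ hY, hY2⟩

end Pool.Agent.LibPQ89
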