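import Pool.Agent.LibPQ89.F1
import Pool.Agent.LibPQ89.F2
import Pool.Agent.LibPQ89.F3

/-!
[PQ89 F4] (MEDIUM) Lemma 3 of the page. `P F c := c ∉ F ∧ (Yss.map List.flatten).countP (Flex F · c) ≤ n` : `exists_not_flex` with `Zs = Yss.map List.flatten` and `exists_order` give the list `l`, `l.length = n` (`List.Nodup`, all elements: `l.toFinset = univ`).
Count for one step (`count_lon`): for a fixed `F`, `c` with at most `n` flexible `Ys.flatten`: the number of blocks `Y ∈ Yss.flatten` with `Lon (HF F Y) c` is `∑_{Ys ∈ Yss} Ys.countP _` (`List.countP_flatten`), each term is `≤ M` for a flexible `Ys` and `≤ b` for the others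
(`flex_of_lon`): at most `n * M + N * b` (induction on the list `Yss`). Sum over the `n` steps: `n * (n * M + N * b) < N * M = Yss.flatten.length` by `h1`, `h2` (`2 n² < N`, `2 n b < M`, `nlinarith`; `0 < N`, `0 < M`).
`pigeon` with `p t Y = decide (Lon (HF (l.take t).toFinset Y) l[t])` (`false` for `t ≥ n`): a block `Y`.
-/

set_option autoImplicit false

namespace Pool.Agent.LibPQ89

open Classical in
theorem count_lon {T : Type*} [Group T] {n b : ℕ} (hb : GoodPos n T b) (F : Set (Fin n)) (c : Fin n) (M : ℕ)
    (Yss : List (List (List (Fin n → T)))) (hM : ∀ Ys ∈ Yss, Ys.length = M) :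
    Yss.flatten.countP (fun Y => decide (Lon (HF F Y) c)) ≤
      (Yss.map List.flatten).countP (fun Z => decide (Flex F Z c)) * M + Yss.length * b := by
  induction Yss with
  | nil => simp
  | cons Ys rest ih =>
    have ih' := ih (fun Zs hZ => hM Zs (List.mem_cons_of_mem _ hZ))
    have hYs : Ys.length = M := hM Ys List.mem_cons_self
    rw [List.flatten_cons, List.countP_append, List.map_cons, List.countP_cons, List.length_cons]
    by_cases hf : Flex F Ys.flatten c
    · have h1 : Ys.countP (fun Y => decide (Lon (HF F Y) c)) ≤ M := by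
        rw [← hYs]
        exact List.countP_le_length
      have h2 : (if decide (Flex F Ys.flatten c) = true then 1 else 0) = 1 := by
        rw [if_pos]
        exact decide_eq_true hf
      rw [h2, add_mul, one_mul, add_mul, one_mul]
      omega
    · have h1 : Ys.countP (fun Y => decide (Lon (HF F Y) c)) ≤ b := by
        by_contra hlt
        exact hf (flex_of_lon hb F Ys c (not_le.mp hlt))
      have h2 : (if decide (Flex F Ys.flatten c) = true then 1 else 0) = 0 := by
        rw [if_neg]
        intro h
        exact hf (of_decide_eq_true h)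
      rw [h2, add_zero, add_mul, one_mul]
      omega

private theorem F4_len {α : Type*} (M : ℕ) (L : List (List α)) (h : ∀ l ∈ L, l.length = M) :
    L.flatten.length = L.length * M := by
  induction L with
  | nil => simp
  | cons a t ih =>
    rw [List.flatten_cons, List.length_append, List.length_cons, add_mul, one_mul,
      ih (fun l hl => h l (List.mem_cons_of_mem _ hl)), h a List.mem_cons_self]
    omega

private theorem F4_arith {n b N M : ℕ} (h1 : 2 * n ^ 2 < N) (h2 : 2 * n * b < M) :
    n * (n * M + N * b) < N * M := by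
  have hM : 0 < M := lt_of_le_of_lt (Nat.zero_le _) h2
  have hN : 0 < N := lt_of_le_of_lt (Nat.zero_le _) h1
  have e1 : 2 * n ^ 2 * M < N * M := Nat.mul_lt_mul_of_pos_right h1 hM
  have e2 : 2 * n * b * N < M * N := Nat.mul_lt_mul_of_pos_right h2 hN
  nlinarith

theorem exists_block {T : Type*} [Group T] [Nontrivial T] {n b N M : ℕ} (hb : GoodPos n T b)
    (Yss : List (List (List (Fin n → T)))) (hN : Yss.length = N) (hM : ∀ Ys ∈ Yss, Ys.length = M)
    (h1 : 2 * n ^ 2 < N) (h2 : 2 * n * b < M) (hcl : ¬ Rt (Yss.map List.flatten).flatten) :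
    ∃ Ys ∈ Yss, ∃ Y ∈ Ys, ∃ l : List (Fin n), l.Nodup ∧ (∀ c, c ∈ l) ∧
      ∀ (t : ℕ) (ht : t < l.length), ¬ Lon (HF ((l.take t).toFinset : Set (Fin n)) Y) l[t] := by
  classical
  obtain ⟨l, hnd, hall, hP⟩ := exists_order
    (fun (F : Finset (Fin n)) (c : Fin n) =>
      (Yss.map List.flatten).countP (fun Z => decide (Flex (F : Set (Fin n)) Z c)) ≤ n)
    (fun F hF => by
      obtain ⟨c, hc, h⟩ := exists_not_flex (Yss.map List.flatten) hcl F hF
      refine ⟨c, hc, ?_⟩
      refine le_trans (le_of_eq ?_) h
      congr 1)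
  have hlen : l.length = n := by
    rw [← List.toFinset_card_of_nodup hnd]
    have : l.toFinset = Finset.univ := by
      ext c
      simp [hall c]
    rw [this, Finset.card_univ, Fintype.card_fin]
  let p : ℕ → List (Fin n → T) → Bool := fun t Y =>
    if h : t < l.length then decide (Lon (HF ((l.take t).toFinset : Set (Fin n)) Y) l[t]) else false
  have hp : ∀ (t : ℕ) (ht : t < l.length) (Y : List (Fin n → T)),
      p t Y = decide (Lon (HF ((l.take t).toFinset : Set (Fin n)) Y) l[t]) := by
    intro t ht Y
    exact dif_pos ht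
  have hcount : ∀ t ∈ Finset.range n, Yss.flatten.countP (p t) ≤ n * M + N * b := by
    intro t ht
    have ht' : t < l.length := by
      rw [hlen]
      exact Finset.mem_range.mp ht
    have e : Yss.flatten.countP (p t) = Yss.flatten.countP
        (fun Y => decide (Lon (HF ((l.take t).toFinset : Set (Fin n)) Y) l[t])) := by
      congr 1
      funext Y
      exact hp t ht' Y
    rw [e]
    have h3 := count_lon hb ((l.take t).toFinset : Set (Fin n)) l[t] M Yss hM
    have h4 := hP t ht'
    rw [hN] at h3
    have h5 : (Yss.map List.flatten).countP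
        (fun Z => decide (Flex ((l.take t).toFinset : Set (Fin n)) Z l[t])) * M ≤ n * M :=
      Nat.mul_le_mul_right M (le_trans (le_of_eq (by congr 1)) h4)
    refine le_trans (le_trans (le_of_eq (by congr 1)) h3) ?_
    exact Nat.add_le_add_right (le_trans (le_of_eq (by congr 1)) h5) _
  have hsum : ∑ t ∈ Finset.range n, Yss.flatten.countP (p t) < Yss.flatten.length := by
    have h3 := Finset.sum_le_card_nsmul (Finset.range n) (fun t => Yss.flatten.countP (p t))
      (n * M + N * b) hcount
    rw [Finset.card_range, smul_eq_mul] at h3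
    rw [F4_len M Yss hM, hN]
    exact lt_of_le_of_lt h3 (F4_arith h1 h2)
  obtain ⟨Y, hY, hYp⟩ := pigeon Yss.flatten n p hsum
  obtain ⟨Ys, hYs, hYY⟩ := List.mem_flatten.mp hY
  refine ⟨Ys, hYs, Y, hYY, l, hnd, hall, ?_⟩
  intro t ht hL
  have h3 := hYp t (by rw [← hlen]; exact ht)
  rw [hp t ht Y, decide_eq_false_iff_not] at h3
  exact h3 hL

end Pool.Agent.LibPQ89
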