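import Mathlib

/-!
[PQ89 G1] (SHORT/MEDIUM) Growth of a bounded monotone sequence. `seq_growth`: claim for all `k`, with `j = #(P ∩ range k)`: `(E+1)^j ≤ E^j * a k` (induction on `k`: if `k ∈ P` then
`(E+1)^(j+1) ≤ (E+1) E^j a k ≤ E^(j+1) a (k+1)`; else monotone). So `(E+1)^|P| ≤ E^|P| * M`. If `|P| > E * (log2 M + 1)`, use `2 * E^E ≤ (E+1)^E` (Bernoulli: `(1 + 1/E)^E ≥ 2`, `one_add_mul_le_pow`, or
`add_pow_le`/binomial: the first two terms): `(E+1)^(E(L+1)) ≥ 2^(L+1) E^(E(L+1))` with `L = Nat.log 2 M`, `M < 2^(L+1)` (`Nat.lt_pow_succ_log_self`); the remaining factors `(E+1)^i ≥ E^i`. Contradiction.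
(Weak form `≤` in the conclusion is all that is needed.) `seq_growth_down`: apply `seq_growth` to `a' k = a (m - k)` (constant from `m` on) and to `P' = image (m - 1 - ·) P`.
-/

set_option autoImplicit false

namespace Pool.Agent.LibPQ89

private theorem G1_bern (x n : ℕ) : x ^ n * (x + n) ≤ x * (x + 1) ^ n := by
  induction n with
  | zero => simp
  | succ n ih =>
    calc x ^ (n + 1) * (x + (n + 1)) = x ^ n * (x * (x + n + 1)) := by ring
      _ ≤ x ^ n * ((x + 1) * (x + n)) := Nat.mul_le_mul_left _ (by nlinarith)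
      _ = (x + 1) * (x ^ n * (x + n)) := by ring
      _ ≤ (x + 1) * (x * (x + 1) ^ n) := Nat.mul_le_mul_left _ ih
      _ = x * (x + 1) ^ (n + 1) := by ring

private theorem G1_two (E : ℕ) (hE : 1 ≤ E) : 2 * E ^ E ≤ (E + 1) ^ E := by
  have h := G1_bern E E
  have h2 : E * (2 * E ^ E) ≤ E * (E + 1) ^ E := by
    calc E * (2 * E ^ E) = E ^ E * (E + E) := by ring
      _ ≤ _ := h
  exact Nat.le_of_mul_le_mul_left h2 (by omega)

private theorem G1_pow (E : ℕ) (hE : 1 ≤ E) (l : ℕ) : 2 ^ l * E ^ (E * l) ≤ (E + 1) ^ (E * l) := by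
  calc 2 ^ l * E ^ (E * l) = (2 * E ^ E) ^ l := by rw [mul_pow, ← pow_mul]
    _ ≤ ((E + 1) ^ E) ^ l := Nat.pow_le_pow_left (G1_two E hE) l
    _ = (E + 1) ^ (E * l) := by rw [← pow_mul]

theorem seq_growth (a : ℕ → ℕ) (M E : ℕ) (h0 : 1 ≤ a 0) (hmono : ∀ k, a k ≤ a (k + 1)) (hM : ∀ k, a k ≤ M)
    (hE : 1 ≤ E) (P : Finset ℕ) (hP : ∀ k ∈ P, (E + 1) * a k < E * a (k + 1)) :
    P.card ≤ E * (Nat.log 2 M + 1) := by
  have claim : ∀ k : ℕ, (E + 1) ^ (P.filter (· < k)).card ≤ E ^ (P.filter (· < k)).card * a k := by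
    intro k
    induction k with
    | zero => simpa using h0
    | succ k ih =>
      by_cases hk : k ∈ P
      · have e : P.filter (· < k + 1) = insert k (P.filter (· < k)) := by
          ext x
          simp only [Finset.mem_filter, Finset.mem_insert]
          constructor
          · rintro ⟨h1, h2⟩
            rcases Nat.lt_succ_iff_lt_or_eq.1 h2 with h3 | h3
            · exact Or.inr ⟨h1, h3⟩
            · exact Or.inl h3
          · rintro (h1 | ⟨h1, h2⟩)
            · subst h1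
              exact ⟨hk, Nat.lt_succ_self _⟩
            · exact ⟨h1, Nat.lt_succ_of_lt h2⟩
        rw [e, Finset.card_insert_of_notMem (by simp)]
        generalize (P.filter (· < k)).card = j at ih
        calc (E + 1) ^ (j + 1) = (E + 1) * (E + 1) ^ j := by ring
          _ ≤ (E + 1) * (E ^ j * a k) := Nat.mul_le_mul_left _ ih
          _ = E ^ j * ((E + 1) * a k) := by ring
          _ ≤ E ^ j * (E * a (k + 1)) := Nat.mul_le_mul_left _ (hP k hk).le
          _ = E ^ (j + 1) * a (k + 1) := by ring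
      · have e : P.filter (· < k + 1) = P.filter (· < k) := by
          ext x
          simp only [Finset.mem_filter]
          constructor
          · rintro ⟨h1, h2⟩
            rcases Nat.lt_succ_iff_lt_or_eq.1 h2 with h3 | h3
            · exact ⟨h1, h3⟩
            · exact absurd (h3 ▸ h1) hk
          · rintro ⟨h1, h2⟩
            exact ⟨h1, Nat.lt_succ_of_lt h2⟩
        rw [e]
        exact ih.trans (Nat.mul_le_mul_left _ (hmono k))
  have hall : (E + 1) ^ P.card ≤ E ^ P.card * M := by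
    have h1 := claim (P.sup id + 1)
    have e : P.filter (· < P.sup id + 1) = P := by
      refine Finset.filter_true_of_mem fun x hx => ?_
      exact Nat.lt_succ_of_le (Finset.le_sup (f := id) hx)
    rw [e] at h1
    exact h1.trans (Nat.mul_le_mul_left _ (hM _))
  by_contra hcon
  push Not at hcon
  obtain ⟨i, hi⟩ := Nat.exists_eq_add_of_le hcon.le
  rw [hi, pow_add, pow_add] at hall
  have hL : M < 2 ^ (Nat.log 2 M + 1) := Nat.lt_pow_succ_log_self (by norm_num) M
  have h2 := G1_pow E hE (Nat.log 2 M + 1)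
  have h3 : E ^ i ≤ (E + 1) ^ i := Nat.pow_le_pow_left (Nat.le_succ E) i
  have h4 : 0 < E ^ (E * (Nat.log 2 M + 1)) := Nat.pow_pos (by omega)
  have h5 : 0 < E ^ i := Nat.pow_pos (by omega)
  have h6 : 2 ^ (Nat.log 2 M + 1) * (E ^ (E * (Nat.log 2 M + 1)) * E ^ i) ≤
      M * (E ^ (E * (Nat.log 2 M + 1)) * E ^ i) := by
    calc 2 ^ (Nat.log 2 M + 1) * (E ^ (E * (Nat.log 2 M + 1)) * E ^ i)
        = (2 ^ (Nat.log 2 M + 1) * E ^ (E * (Nat.log 2 M + 1))) * E ^ i := by ring
      _ ≤ (E + 1) ^ (E * (Nat.log 2 M + 1)) * (E + 1) ^ i := Nat.mul_le_mul h2 h3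
      _ ≤ E ^ (E * (Nat.log 2 M + 1)) * E ^ i * M := hall
      _ = M * (E ^ (E * (Nat.log 2 M + 1)) * E ^ i) := by ring
  have h7 := Nat.le_of_mul_le_mul_right h6 (Nat.mul_pos h4 h5)
  omega

theorem seq_growth_down (a : ℕ → ℕ) (m M E : ℕ) (h0 : 1 ≤ a m) (hmono : ∀ k, a (k + 1) ≤ a k) (hM : ∀ k, a k ≤ M)
    (hE : 1 ≤ E) (P : Finset ℕ) (hPm : ∀ k ∈ P, k < m) (hP : ∀ k ∈ P, (E + 1) * a (k + 1) < E * a k) :
    P.card ≤ E * (Nat.log 2 M + 1) := by
  have hc : (P.image fun k => m - 1 - k).card = P.card := by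
    refine Finset.card_image_of_injOn fun x hx y hy hxy => ?_
    have h1 := hPm x hx
    have h2 := hPm y hy
    have hxy2 : m - 1 - x = m - 1 - y := hxy
    omega
  rw [← hc]
  refine seq_growth (fun k => a (m - k)) M E (by simpa using h0) (fun k => ?_) (fun k => hM _) hE _ fun k hk => ?_
  · rcases Nat.lt_or_ge k m with h | h
    · have e : m - k = (m - (k + 1)) + 1 := by omega
      change a (m - k) ≤ a (m - (k + 1))
      rw [e]
      exact hmono _
    · have e : m - (k + 1) = m - k := by omega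
      change a (m - k) ≤ a (m - (k + 1))
      rw [e]
  · rw [Finset.mem_image] at hk
    obtain ⟨x, hx, rfl⟩ := hk
    have h1 := hPm x hx
    have e1 : m - (m - 1 - x) = x + 1 := by omega
    have e2 : m - (m - 1 - x + 1) = x := by omega
    change (E + 1) * a (m - (m - 1 - x)) < E * a (m - (m - 1 - x + 1))
    rw [e1, e2]
    exact hP x hx

end Pool.Agent.LibPQ89
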