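import Mathlib

/-!
[PQ89 G2] (MEDIUM, two mirror images) Near invariance. `defect_right`: induction on `L` (for all `A`-fixed statements): for `L = y :: L'`, `p = L'.prod`: if `a * (y * p) ∉ A` then either `a * y ∉ A`, or `a * y ∈ A` and `(a * y) * p ∉ A`. The first set
`{a ∈ A | a * y ∉ A}` is mapped injectively by `a ↦ a * y` into `A' \ A`, and `E * (A' \ A).ncard ≤ A.ncard` by `hc` (`Set.ncard_sdiff`); the second set is mapped injectively by `a ↦ a * y` into `{a ∈ A | a * p ∉ A}` (induction hypothesis).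
`Set.ncard_le_ncard_of_injOn`, `Set.ncard_union_le`; everything is finite (`Set.toFinite`). `defect_left`: the same with left multiplication, induction on `L` from the right (`List.reverseRecOn`) or for `L.prod` with `L = L' ++ [y]`:
`(p * y) * b ∉ B` implies `y * b ∉ B` or `y * b ∈ B ∧ p * (y * b) ∉ B`.
-/

set_option autoImplicit false

namespace Pool.Agent.LibPQ89

private theorem g2_sdiff {G : Type*} [Group G] [Finite G] (A A' : Set G) (E : ℕ) (hAA : A ⊆ A')
    (hc : E * A'.ncard ≤ (E + 1) * A.ncard) : E * (A' \ A).ncard ≤ A.ncard := by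
  have h1 : (A' \ A).ncard + A.ncard = A'.ncard :=
    Set.ncard_sdiff_add_ncard_of_subset hAA (Set.toFinite _)
  rw [← h1] at hc
  nlinarith

theorem defect_right {G : Type*} [Group G] [Finite G] (A A' X : Set G) (E : ℕ) (hAA : A ⊆ A')
    (hAX : ∀ a ∈ A, ∀ x ∈ X, a * x ∈ A') (hc : E * A'.ncard ≤ (E + 1) * A.ncard)
    (L : List G) (hL : ∀ y ∈ L, y ∈ X) : E * {a | a ∈ A ∧ a * L.prod ∉ A}.ncard ≤ L.length * A.ncard := by
  have hd := g2_sdiff A A' E hAA hc
  induction L with
  | nil =>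
    have : {a | a ∈ A ∧ a * ([] : List G).prod ∉ A} = ∅ := by
      ext a
      simp
    rw [this]
    simp
  | cons y L' ih =>
    have ih' := ih (fun z hz => hL z (List.mem_cons_of_mem _ hz))
    have hy : y ∈ X := hL y List.mem_cons_self
    set S1 : Set G := {a | a ∈ A ∧ a * y ∉ A} with hS1
    set S2 : Set G := {a | a * y ∈ A ∧ (a * y) * L'.prod ∉ A} with hS2
    have hsub : {a | a ∈ A ∧ a * (y :: L').prod ∉ A} ⊆ S1 ∪ S2 := by
      rintro a ⟨ha, ha2⟩
      by_cases h : a * y ∈ A
      · right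
        refine ⟨h, ?_⟩
        rw [List.prod_cons, ← mul_assoc] at ha2
        exact ha2
      · left
        exact ⟨ha, h⟩
    have h1 : S1.ncard ≤ (A' \ A).ncard := by
      refine Set.ncard_le_ncard_of_injOn (fun a => a * y) ?_ ?_ (Set.toFinite _)
      · rintro a ⟨ha, ha2⟩
        exact ⟨hAX a ha y hy, ha2⟩
      · intro a _ b _ hab
        exact mul_right_cancel hab
    have h2 : S2.ncard ≤ {a | a ∈ A ∧ a * L'.prod ∉ A}.ncard := by
      refine Set.ncard_le_ncard_of_injOn (fun a => a * y) ?_ ?_ (Set.toFinite _)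
      · rintro a ⟨ha, ha2⟩
        exact ⟨ha, ha2⟩
      · intro a _ b _ hab
        exact mul_right_cancel hab
    have h3 : {a | a ∈ A ∧ a * (y :: L').prod ∉ A}.ncard ≤ S1.ncard + S2.ncard :=
      (Set.ncard_le_ncard hsub (Set.toFinite _)).trans (Set.ncard_union_le _ _)
    calc E * {a | a ∈ A ∧ a * (y :: L').prod ∉ A}.ncard
        ≤ E * ((A' \ A).ncard + {a | a ∈ A ∧ a * L'.prod ∉ A}.ncard) :=
          Nat.mul_le_mul_left _ (h3.trans (Nat.add_le_add h1 h2))
      _ = E * (A' \ A).ncard + E * {a | a ∈ A ∧ a * L'.prod ∉ A}.ncard := by ring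
      _ ≤ A.ncard + L'.length * A.ncard := Nat.add_le_add hd ih'
      _ = (y :: L').length * A.ncard := by rw [List.length_cons]; ring

theorem defect_left {G : Type*} [Group G] [Finite G] (B B' X : Set G) (E : ℕ) (hBB : B ⊆ B')
    (hXB : ∀ x ∈ X, ∀ b ∈ B, x * b ∈ B') (hc : E * B'.ncard ≤ (E + 1) * B.ncard)
    (L : List G) (hL : ∀ y ∈ L, y ∈ X) : E * {b | b ∈ B ∧ L.prod * b ∉ B}.ncard ≤ L.length * B.ncard := by
  have hd := g2_sdiff B B' E hBB hc
  induction L using List.reverseRecOn with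
  | nil =>
    have : {b | b ∈ B ∧ ([] : List G).prod * b ∉ B} = ∅ := by
      ext a
      simp
    rw [this]
    simp
  | append_singleton L' y ih =>
    have ih' := ih (fun z hz => hL z (List.mem_append_left _ hz))
    have hy : y ∈ X := hL y (List.mem_append_right _ List.mem_cons_self)
    have hprod : (L' ++ [y]).prod = L'.prod * y := by simp
    set S1 : Set G := {b | b ∈ B ∧ y * b ∉ B} with hS1
    set S2 : Set G := {b | y * b ∈ B ∧ L'.prod * (y * b) ∉ B} with hS2
    have hsub : {b | b ∈ B ∧ (L' ++ [y]).prod * b ∉ B} ⊆ S1 ∪ S2 := by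
      rintro b ⟨hb, hb2⟩
      by_cases h : y * b ∈ B
      · right
        refine ⟨h, ?_⟩
        rw [hprod, mul_assoc] at hb2
        exact hb2
      · left
        exact ⟨hb, h⟩
    have h1 : S1.ncard ≤ (B' \ B).ncard := by
      refine Set.ncard_le_ncard_of_injOn (fun b => y * b) ?_ ?_ (Set.toFinite _)
      · rintro b ⟨hb, hb2⟩
        exact ⟨hXB y hy b hb, hb2⟩
      · intro a _ b _ hab
        exact mul_left_cancel hab
    have h2 : S2.ncard ≤ {b | b ∈ B ∧ L'.prod * b ∉ B}.ncard := by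
      refine Set.ncard_le_ncard_of_injOn (fun b => y * b) ?_ ?_ (Set.toFinite _)
      · rintro b ⟨hb, hb2⟩
        exact ⟨hb, hb2⟩
      · intro a _ b _ hab
        exact mul_left_cancel hab
    have h3 : {b | b ∈ B ∧ (L' ++ [y]).prod * b ∉ B}.ncard ≤ S1.ncard + S2.ncard :=
      (Set.ncard_le_ncard hsub (Set.toFinite _)).trans (Set.ncard_union_le _ _)
    calc E * {b | b ∈ B ∧ (L' ++ [y]).prod * b ∉ B}.ncard
        ≤ E * ((B' \ B).ncard + {b | b ∈ B ∧ L'.prod * b ∉ B}.ncard) :=
          Nat.mul_le_mul_left _ (h3.trans (Nat.add_le_add h1 h2))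
      _ = E * (B' \ B).ncard + E * {b | b ∈ B ∧ L'.prod * b ∉ B}.ncard := by ring
      _ ≤ B.ncard + L'.length * B.ncard := Nat.add_le_add hd ih'
      _ = (L' ++ [y]).length * B.ncard := by simp; ring

end Pool.Agent.LibPQ89
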