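import Mathlib

/-!
[PQ89 G3] (MEDIUM, two mirror images) Averaging over a subgroup. `half_right`: double counting of the pairs `(a, h) ∈ A × H` with `a * h ∈ A`: `∑_{h ∈ H} #{a ∈ A | a * h ∈ A} > |H| |A| / 2` (each term is `|A| - #{a ∈ A | a * h ∉ A}`, `2 * that > |A|`),
so `∑_{a ∈ A} 2 * #{h ∈ H | a * h ∈ A} > |H| |A|` (`Finset.sum_comm` / `Finset.sum_card_bipartiteAbove_eq_sum_card_bipartiteBelow`, `classical`, `Fintype.ofFinite`), so some `a ∈ A` has `2 * #{h ∈ H | a * h ∈ A} > |H|`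
(`Finset.exists_lt_of_sum_lt` or by contradiction with `Finset.sum_le_card_nsmul`). `half_left`: the same.
-/

set_option autoImplicit false

namespace Pool.Agent.LibPQ89

open scoped Classical in
private theorem G3_avg {α β : Type*} (K : Finset β) (F : Finset α) (R : α → β → Prop) (hK : K.Nonempty)
    (h : ∀ y ∈ K, 2 * (F.filter fun a => ¬ R a y).card < F.card) :
    ∃ a ∈ F, K.card < 2 * (K.filter fun y => R a y).card := by
  by_contra hcon
  push Not at hcon
  have h1 : ∑ a ∈ F, 2 * (K.filter fun y => R a y).card ≤ F.card * K.card := by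
    calc ∑ a ∈ F, 2 * (K.filter fun y => R a y).card ≤ ∑ _a ∈ F, K.card := Finset.sum_le_sum fun a ha => hcon a ha
      _ = F.card * K.card := by rw [Finset.sum_const, smul_eq_mul]
  have h2 : ∑ a ∈ F, (K.filter fun y => R a y).card = ∑ y ∈ K, (F.filter fun a => R a y).card :=
    Finset.sum_card_bipartiteAbove_eq_sum_card_bipartiteBelow R
  have h3 : ∑ _y ∈ K, F.card < ∑ y ∈ K, 2 * (F.filter fun a => R a y).card := by
    refine Finset.sum_lt_sum_of_nonempty hK fun y hy => ?_
    have h4 := h y hy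
    have h5 : (F.filter fun a => R a y).card + (F.filter fun a => ¬ R a y).card = F.card :=
      Finset.card_filter_add_card_filter_not _
    omega
  rw [Finset.sum_const, smul_eq_mul, ← Finset.mul_sum, ← h2] at h3
  rw [← Finset.mul_sum] at h1
  rw [mul_comm] at h3
  omega

private theorem G3_sub {G : Type*} [Group G] [Finite G] (H : Subgroup G) (A : Set G) (R : G → G → Prop)
    (h : ∀ h ∈ H, 2 * {a | a ∈ A ∧ ¬ R a h}.ncard < A.ncard) :
    ∃ a ∈ A, Nat.card H < 2 * {h | h ∈ H ∧ R a h}.ncard := by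
  classical
  have hfin : ∀ s : Set G, s.Finite := fun s => Set.toFinite s
  obtain ⟨a, ha, hlt⟩ := G3_avg (hfin (H : Set G)).toFinset (hfin A).toFinset R
    ⟨1, by rw [Set.Finite.mem_toFinset]; exact H.one_mem⟩ (by
      intro y hy
      rw [Set.Finite.mem_toFinset] at hy
      have h1 := h y hy
      rw [Set.ncard_eq_toFinset_card _ (hfin A), Set.ncard_eq_toFinset_card _ (hfin _)] at h1
      have h2 : (hfin {a | a ∈ A ∧ ¬ R a y}).toFinset = (hfin A).toFinset.filter (fun a => ¬ R a y) := by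
        ext x
        simp
      rw [h2] at h1
      refine lt_of_eq_of_lt ?_ h1
      congr!)
  refine ⟨a, by simpa using ha, ?_⟩
  have h3 : (hfin {h | h ∈ H ∧ R a h}).toFinset = (hfin (H : Set G)).toFinset.filter (fun y => R a y) := by
    ext x
    simp
  rw [Set.ncard_eq_toFinset_card _ (hfin _), h3]
  have h4 : Nat.card H = (hfin (H : Set G)).toFinset.card := by
    rw [← Set.ncard_eq_toFinset_card _ (hfin _)]
    rfl
  rw [h4]
  exact hlt

theorem half_right {G : Type*} [Group G] [Finite G] (H : Subgroup G) (A : Set G)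
    (h : ∀ h ∈ H, 2 * {a | a ∈ A ∧ a * h ∉ A}.ncard < A.ncard) :
    ∃ a ∈ A, Nat.card H < 2 * {h | h ∈ H ∧ a * h ∈ A}.ncard :=
  G3_sub H A (fun a h => a * h ∈ A) h

theorem half_left {G : Type*} [Group G] [Finite G] (H : Subgroup G) (B : Set G)
    (h : ∀ h ∈ H, 2 * {b | b ∈ B ∧ h * b ∉ B}.ncard < B.ncard) :
    ∃ b ∈ B, Nat.card H < 2 * {h | h ∈ H ∧ h * b ∈ B}.ncard :=
  G3_sub H B (fun b h => h * b ∈ B) h

end Pool.Agent.LibPQ89
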