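import Pool.Agent.LibCR14.Defs
import Pool.Agent.LibPQ89.G2
import Pool.Agent.LibPQ89.G3

/-!
[PQ89 G4] (SHORT/MEDIUM) Two sided near invariance. For `h ∈ closure X`: `h = L.prod`, `L.length ≤ D`, `L` over `X` (`hD`, unfold `Bal`), so `E * #{a ∈ A | a * h ∉ A} ≤ D * #A` (`defect_right`), and `4 * D + 4 ≤ E`, `0 < #A` give
`2 * #{..} < #A`. The same for `B`. `half_right`, `half_left` with `H = closure X`: `a`, `b`. For `h ∈ H`: the sets `U = {h1 ∈ H | a * h1 ∈ A}` and `W = {h2 ∈ H | h2 * b ∈ B}`; the image of `W` under `h2 ↦ h * h2⁻¹` is a subset of `H` with the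
same number of elements; both have more than `|H| / 2` elements, so they meet (`Set.ncard_union_le`/inclusion-exclusion in `(H : Set G)`, `Set.ncard_inter_add_ncard_union`...): `h1 = h * h2⁻¹`, `a * h1 ∈ A`, `h2 * b ∈ B`,
`a * h * b = (a * h1) * (h2 * b)`.
-/

set_option autoImplicit false

namespace Pool.Agent.LibPQ89

open Pool.Agent.LibCR14

private theorem G4_arith {E D N L c : ℕ} (hE : 4 * D + 4 ≤ E) (hL : L ≤ D) (hc : 0 < c) (h : E * N ≤ L * c) :
    2 * N < c := by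
  by_contra hn
  push Not at hn
  have h1 : L * c ≤ D * (2 * N) := Nat.mul_le_mul hL hn
  have h2 : (4 * D + 4) * N ≤ E * N := Nat.mul_le_mul_right N hE
  have h3 : N = 0 := by nlinarith
  omega

theorem two_sided {G : Type*} [Group G] [Finite G] (A A' B B' X : Set G) (D E : ℕ) (hE : 4 * D + 4 ≤ E)
    (hA : A.Nonempty) (hB : B.Nonempty)
    (hAA : A ⊆ A') (hAX : ∀ a ∈ A, ∀ x ∈ X, a * x ∈ A') (hAc : E * A'.ncard ≤ (E + 1) * A.ncard)
    (hBB : B ⊆ B') (hXB : ∀ x ∈ X, ∀ b ∈ B, x * b ∈ B') (hBc : E * B'.ncard ≤ (E + 1) * B.ncard)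
    (hD : ∀ h ∈ Subgroup.closure X, h ∈ Bal X D) :
    ∃ a b : G, ∀ h ∈ Subgroup.closure X, ∃ x ∈ A, ∃ y ∈ B, a * h * b = x * y := by
  have hAp : 0 < A.ncard := (Set.ncard_pos (Set.toFinite A)).2 hA
  have hBp : 0 < B.ncard := (Set.ncard_pos (Set.toFinite B)).2 hB
  obtain ⟨a, haA, ha⟩ := half_right (Subgroup.closure X) A (by
    intro h hh
    obtain ⟨L, hL, hLX, rfl⟩ := hD h hh
    exact G4_arith hE hL hAp (defect_right A A' X E hAA hAX hAc L hLX))
  obtain ⟨b, hbB, hb⟩ := half_left (Subgroup.closure X) B (by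
    intro h hh
    obtain ⟨L, hL, hLX, rfl⟩ := hD h hh
    exact G4_arith hE hL hBp (defect_left B B' X E hBB hXB hBc L hLX))
  refine ⟨a, b, fun h hh => ?_⟩
  set U : Set G := {h1 | h1 ∈ Subgroup.closure X ∧ a * h1 ∈ A} with hU
  set W : Set G := {h2 | h2 ∈ Subgroup.closure X ∧ h2 * b ∈ B} with hW
  have hinj : Function.Injective (fun h2 : G => h * h2⁻¹) := by
    intro x y hxy
    exact inv_injective (mul_left_cancel hxy)
  have hW' : ((fun h2 : G => h * h2⁻¹) '' W).ncard = W.ncard := Set.ncard_image_of_injective W hinj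
  have hsub : U ∪ ((fun h2 : G => h * h2⁻¹) '' W) ⊆ ((Subgroup.closure X : Subgroup G) : Set G) := by
    rintro x (hx | ⟨y, hy, rfl⟩)
    · exact hx.1
    · exact mul_mem hh (inv_mem hy.1)
  have h1 : (U ∪ ((fun h2 : G => h * h2⁻¹) '' W)).ncard ≤ Nat.card (Subgroup.closure X) := by
    have h2 := Set.ncard_le_ncard hsub (Set.toFinite _)
    exact h2
  have h2 := Set.ncard_union_add_ncard_inter U ((fun h2 : G => h * h2⁻¹) '' W) (Set.toFinite _) (Set.toFinite _)
  have h3 : 0 < (U ∩ ((fun h2 : G => h * h2⁻¹) '' W)).ncard := by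
    rw [hW'] at h2
    omega
  obtain ⟨x, hx, y, hy, hxy⟩ := (Set.ncard_pos (Set.toFinite _)).1 h3
  refine ⟨a * x, hx.2, y * b, hy.2, ?_⟩
  have h4 : h = x * y := by
    have h5 : h * y⁻¹ = x := hxy
    rw [← h5, inv_mul_cancel_right]
  rw [h4]
  simp only [mul_assoc]

end Pool.Agent.LibPQ89
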