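import Pool.Agent.LibCR14.D8
import Pool.Agent.LibPQ89.B0
import Pool.Agent.LibPQ89.G1
import Pool.Agent.LibPQ89.G4

/-!
[PQ89 G5] (MEDIUM) Lemma 1 of the page (good positions). `D = (n + 2) ^ C₀` from `Dia_all T`, `E = 4 D + 4`, `b = 2 E (Nat.log 2 (|T|^n) + 1)`.
`good_pos_aux`: `m = bs.length`, `A k = PF F (bs.take k).flatten`, `B k = PF F (bs.drop k).flatten` (finite, `1 ∈`, at most `|T|^n = Nat.card (Fin n → T)` elements). `P = {k < m | p bs[k]}` has `bs.countP p` elements
(`List.countP_eq_length_filter`, or induction: a small lemma). `P_A = {k < m | (E+1) |A k| < E |A (k+1)|}` and `P_B = {k < m | (E+1) |B (k+1)| < E |B k|}` have at most `E (log2 (|T|^n) + 1)` elements (`seq_growth`, `seq_growth_down`;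
`A k ⊆ A (k+1)`, `B (k+1) ⊆ B k` by `PF_mono`). So some `k ∈ P` is in neither: `two_sided` with `A = A k`, `A' = A (k+1)`, `B = B (k+1)`, `B' = B k`, `X = PF F bs[k]` (`bs.take (k+1) = bs.take k ++ [bs[k]]`, `bs.drop k = bs[k] :: bs.drop (k+1)`,
`PF_mul`). The element `x * y` is in `PF F (bs.take k ++ bs.drop (k+1)).flatten ⊆ PF F bs.flatten`.
`good_pos`: the bound: `Nat.log 2 (c ^ n) ≤ c * n` (`c ^ n ≤ 2 ^ (c n)`), everything at most `(n + 2) ^ C`.
-/

set_option autoImplicit false

namespace Pool.Agent.LibPQ89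

open Pool.Agent.LibCR14

private theorem G5_count {α : Type*} (p : α → Bool) (l : List α) :
    l.countP p ≤ ((Finset.range l.length).filter (fun k => ∃ h : k < l.length, p l[k] = true)).card := by
  classical
  induction l using List.reverseRecOn with
  | nil => simp
  | append_singleton l a ih =>
    rw [List.countP_append, List.countP_singleton]
    have h1 : (Finset.range (l ++ [a]).length).filter
        (fun k => ∃ h : k < (l ++ [a]).length, p (l ++ [a])[k] = true) ⊇
        (Finset.range l.length).filter (fun k => ∃ h : k < l.length, p l[k] = true) ∪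
          (if p a = true then {l.length} else ∅) := by
      intro k hk
      rw [Finset.mem_union, Finset.mem_filter, Finset.mem_range] at hk
      rw [Finset.mem_filter, Finset.mem_range]
      rcases hk with ⟨hk1, hk2, hk3⟩ | hk
      · have h2 : k < (l ++ [a]).length := by
          rw [List.length_append, List.length_singleton]
          omega
        refine ⟨h2, h2, ?_⟩
        rw [List.getElem_append_left hk1]
        exact hk3
      · by_cases ha : p a = true
        · rw [if_pos ha, Finset.mem_singleton] at hk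
          subst hk
          have h2 : l.length < (l ++ [a]).length := by
            rw [List.length_append, List.length_singleton]
            omega
          refine ⟨h2, h2, ?_⟩
          rw [List.getElem_concat_length rfl]
          exact ha
        · rw [if_neg ha] at hk
          exact absurd hk (Finset.notMem_empty _)
    refine le_trans ?_ (Finset.card_le_card h1)
    rw [Finset.card_union_of_disjoint]
    · refine Nat.add_le_add ih ?_
      by_cases ha : p a = true
      · rw [if_pos ha, if_pos ha, Finset.card_singleton]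
      · rw [if_neg ha, if_neg ha]
        exact Nat.zero_le _
    · rw [Finset.disjoint_left]
      intro k hk1 hk2
      rw [Finset.mem_filter, Finset.mem_range] at hk1
      by_cases ha : p a = true
      · rw [if_pos ha, Finset.mem_singleton] at hk2
        omega
      · rw [if_neg ha] at hk2
        exact absurd hk2 (Finset.notMem_empty _)

theorem good_pos_aux {T : Type*} [Group T] [Finite T] {n D : ℕ}
    (hD : ∀ (Y : Set (Fin n → T)), ∀ g ∈ Subgroup.closure Y, g ∈ Bal Y D) :
    GoodPos n T (2 * (4 * D + 4) * (Nat.log 2 (Nat.card T ^ n) + 1)) := by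
  classical
  intro F bs p hlt
  obtain ⟨E, hE⟩ : ∃ E, E = 4 * D + 4 := ⟨_, rfl⟩
  rw [← hE] at hlt
  obtain ⟨A, hA⟩ : ∃ A : ℕ → Set (Fin n → T), A = fun k => PF F (bs.take k).flatten := ⟨_, rfl⟩
  obtain ⟨B, hB⟩ : ∃ B : ℕ → Set (Fin n → T), B = fun k => PF F (bs.drop k).flatten := ⟨_, rfl⟩
  have hcard : ∀ S : Set (Fin n → T), S.ncard ≤ Nat.card T ^ n := by
    intro S
    refine (Set.ncard_le_ncard (Set.subset_univ S) (Set.toFinite _)).trans ?_
    rw [Set.ncard_univ, Nat.card_fun, Nat.card_fin]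
  have hA1 : ∀ k, (1 : Fin n → T) ∈ A k := by
    intro k
    rw [hA]
    exact one_mem_PF _ _
  have hB1 : ∀ k, (1 : Fin n → T) ∈ B k := by
    intro k
    rw [hB]
    exact one_mem_PF _ _
  have hAmono : ∀ k, A k ⊆ A (k + 1) := by
    intro k
    rw [hA]
    refine PF_mono subset_rfl (flatten_sub ?_)
    have h1 : bs.take k = (bs.take (k + 1)).take k := by
      rw [List.take_take, min_eq_left (Nat.le_succ k)]
    rw [h1]
    exact List.take_sublist _ _
  have hBmono : ∀ k, B (k + 1) ⊆ B k := by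
    intro k
    rw [hB]
    refine PF_mono subset_rfl (flatten_sub ?_)
    have h1 : bs.drop (k + 1) = (bs.drop k).drop 1 := by
      rw [List.drop_drop]
    rw [h1]
    exact List.drop_sublist _ _
  have hpos : ∀ S : Set (Fin n → T), (1 : Fin n → T) ∈ S → 1 ≤ S.ncard := fun S hS =>
    (Set.ncard_pos (Set.toFinite S)).2 ⟨1, hS⟩
  obtain ⟨PA, hPA⟩ : ∃ PA : Finset ℕ, PA = (Finset.range bs.length).filter
      (fun k => (E + 1) * (A k).ncard < E * (A (k + 1)).ncard) := ⟨_, rfl⟩
  obtain ⟨PB, hPB⟩ : ∃ PB : Finset ℕ, PB = (Finset.range bs.length).filter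
      (fun k => (E + 1) * (B (k + 1)).ncard < E * (B k).ncard) := ⟨_, rfl⟩
  have hcA : PA.card ≤ E * (Nat.log 2 (Nat.card T ^ n) + 1) := by
    refine seq_growth (fun k => (A k).ncard) _ E (hpos _ (hA1 0))
      (fun k => Set.ncard_le_ncard (hAmono k) (Set.toFinite _)) (fun k => hcard _) (by omega) PA ?_
    intro k hk
    rw [hPA, Finset.mem_filter] at hk
    exact hk.2
  have hcB : PB.card ≤ E * (Nat.log 2 (Nat.card T ^ n) + 1) := by
    refine seq_growth_down (fun k => (B k).ncard) bs.length _ E (hpos _ (hB1 _))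
      (fun k => Set.ncard_le_ncard (hBmono k) (Set.toFinite _)) (fun k => hcard _) (by omega) PB ?_ ?_
    · intro k hk
      rw [hPB, Finset.mem_filter, Finset.mem_range] at hk
      exact hk.1
    · intro k hk
      rw [hPB, Finset.mem_filter] at hk
      exact hk.2
  have hcP := G5_count p bs
  obtain ⟨k, hk1, hk2⟩ := Finset.exists_mem_notMem_of_card_lt_card (s := PA ∪ PB)
    (t := (Finset.range bs.length).filter (fun k => ∃ h : k < bs.length, p bs[k] = true)) (by
      have h1 := Finset.card_union_le PA PB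
      have h2 : 2 * E * (Nat.log 2 (Nat.card T ^ n) + 1) = E * (Nat.log 2 (Nat.card T ^ n) + 1) +
          E * (Nat.log 2 (Nat.card T ^ n) + 1) := by ring
      omega)
  rw [Finset.mem_filter, Finset.mem_range] at hk1
  obtain ⟨hkm, hkl, hkp⟩ := hk1
  rw [Finset.mem_union, not_or, hPA, hPB, Finset.mem_filter, Finset.mem_filter, Finset.mem_range] at hk2
  have hkA : E * (A (k + 1)).ncard ≤ (E + 1) * (A k).ncard := by
    by_contra hc
    exact hk2.1 ⟨hkm, not_le.1 hc⟩
  have hkB : E * (B k).ncard ≤ (E + 1) * (B (k + 1)).ncard := by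
    by_contra hc
    exact hk2.2 ⟨hkm, not_le.1 hc⟩
  have htake : bs.take (k + 1) = bs.take k ++ [bs[k]] := (List.take_append_getElem hkl).symm
  have hdrop : bs.drop k = bs[k] :: bs.drop (k + 1) := List.drop_eq_getElem_cons hkl
  obtain ⟨a, b, hab⟩ := two_sided (A k) (A (k + 1)) (B (k + 1)) (B k) (PF F bs[k]) D E hE.ge
    ⟨1, hA1 k⟩ ⟨1, hB1 _⟩ (hAmono k) (by
      intro x hx y hy
      rw [hA] at hx ⊢
      have h1 := PF_mul hx hy
      have h2 : (bs.take (k + 1)).flatten = (bs.take k).flatten ++ bs[k] := by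
        rw [htake, List.flatten_append, List.flatten_cons, List.flatten_nil, List.append_nil]
      simp only
      rw [h2]
      exact h1) hkA (hBmono k) (by
      intro x hx y hy
      rw [hB] at hy ⊢
      have h1 := PF_mul hx hy
      have h2 : (bs.drop k).flatten = bs[k] ++ (bs.drop (k + 1)).flatten := by
        rw [hdrop, List.flatten_cons]
      simp only
      rw [h2]
      exact h1) hkB (hD (PF F bs[k]))
  refine ⟨bs[k], List.getElem_mem hkl, hkp, a, b, ?_⟩
  intro h hh
  obtain ⟨x, hx, y, hy, e⟩ := hab h hh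
  rw [e]
  rw [hA] at hx
  rw [hB] at hy
  have h1 := PF_mul hx hy
  refine PF_mono subset_rfl ?_ h1
  rw [← List.flatten_append]
  refine flatten_sub ?_
  have h2 : bs = bs.take k ++ bs.drop k := (List.take_append_drop k bs).symm
  have h3 : (bs.take k ++ bs.drop (k + 1)).Sublist (bs.take k ++ bs.drop k) := by
    refine List.Sublist.append (List.Sublist.refl _) ?_
    rw [hdrop]
    exact List.sublist_cons_self _ _
  rw [List.take_append_drop] at h3
  exact h3

private theorem G5_mono {n : ℕ} {T : Type*} [Group T] {b b' : ℕ} (h : b ≤ b') (hb : GoodPos n T b) :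
    GoodPos n T b' := fun F bs p hp => hb F bs p (lt_of_le_of_lt h hp)

theorem good_pos.{u} (T : Type u) [Group T] [Finite T] : ∃ C : ℕ, ∀ n : ℕ, GoodPos n T ((n + 2) ^ C) := by
  obtain ⟨C₀, hC₀⟩ := Dia_all T
  refine ⟨C₀ + 4 + (Nat.card T + 1) + 1, fun n => G5_mono ?_ (good_pos_aux (hC₀ n))⟩
  obtain ⟨c, hc⟩ : ∃ c, c = Nat.card T := ⟨_, rfl⟩
  rw [← hc]
  have h1 : Nat.log 2 (c ^ n) ≤ c * n := by
    have h2 : c ^ n ≤ 2 ^ (c * n) := by
      rw [pow_mul]
      exact Nat.pow_le_pow_left Nat.lt_two_pow_self.le n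
    calc Nat.log 2 (c ^ n) ≤ Nat.log 2 (2 ^ (c * n)) := Nat.log_mono_right h2
      _ = c * n := Nat.log_pow (by norm_num) _
  have h3 : 1 ≤ (n + 2) ^ C₀ := Nat.one_le_pow _ _ (by omega)
  have h4 : c + 1 ≤ (n + 2) ^ (c + 1) :=
    (Nat.lt_two_pow_self (n := c + 1)).le.trans (Nat.pow_le_pow_left (by omega) _)
  have h5 : 16 ≤ (n + 2) ^ 4 := (by norm_num : 16 = 2 ^ 4) ▸ Nat.pow_le_pow_left (by omega) _
  have h6 : c * n + 1 ≤ (c + 1) * (n + 2) := by nlinarith
  calc 2 * (4 * (n + 2) ^ C₀ + 4) * (Nat.log 2 (c ^ n) + 1)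
      ≤ 2 * (4 * (n + 2) ^ C₀ + 4 * (n + 2) ^ C₀) * ((c + 1) * (n + 2)) := by
        refine Nat.mul_le_mul (Nat.mul_le_mul_left _ (by omega)) (by omega)
    _ = (n + 2) ^ C₀ * 16 * (c + 1) * (n + 2) := by ring
    _ ≤ (n + 2) ^ C₀ * (n + 2) ^ 4 * (n + 2) ^ (c + 1) * (n + 2) :=
        Nat.mul_le_mul_right _ (Nat.mul_le_mul (Nat.mul_le_mul_left _ h5) h4)
    _ = (n + 2) ^ (C₀ + 4 + (c + 1) + 1) := by
        rw [pow_add _ (C₀ + 4 + (c + 1)) 1, pow_add _ (C₀ + 4) (c + 1), pow_add _ C₀ 4, pow_one]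

end Pool.Agent.LibPQ89
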