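import Pool.Agent.LibPQ89.P1
import Pool.Agent.LibPQ89.E1

/-!
[PQ89 K1] (SHORT/MEDIUM, three lemmas) Preparations for a round.
`del_count`: `gs.countP (∃ q ∈ Q, p q ·) ≤ ∑ q ∈ Q, gs.countP (p q)` (induction on `gs` or on `Q`), then `A * n * ∑ ≤ Q.card * gs.length ≤ n * gs.length`; for `n = 0` (`Q = ∅`) the count is `0`.
`regroup`: `some_full` with `p V = decide (Ful (HF F V) c)`: a group with a full block is full (`Ful_mono`, `HF_mono`, `sub_flatten`); `List.countP_map`, `List.countP_mono_left`.
`force_solid`: `rich` gives `gs.length ≤ 2 * m2 * #{g | R ≤ 2 * m2 * g.countP p}`. A rich group `g` has `K * (b + 1) ≤ g.countP p` (from `hRb`), so if it is not deleted, `PL` with `bs = g`, `Q` gives `Ful (HF (F ∪ Q) g.flatten) c` (`Finset.coe_union`). So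
`#rich ≤ (gs'.map flatten).countP _ + #deleted` (induction on `gs` or `List.countP` inequalities), `2 * m2 * #deleted ≤ gs.length / 2` by `hdel`.
-/

set_option autoImplicit false

namespace Pool.Agent.LibPQ89

private theorem countP_le_sum {α : Type*} {n : ℕ} (p : Fin n → α → Bool) (Q : Finset (Fin n)) (gs : List α) :
    gs.countP (fun g => decide (∃ q ∈ Q, p q g = true)) ≤ ∑ q ∈ Q, gs.countP (p q) := by
  induction gs with
  | nil => simp
  | cons g gs ih =>
    simp only [List.countP_cons]
    rw [Finset.sum_add_distrib]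
    refine add_le_add ih ?_
    by_cases h : ∃ q ∈ Q, p q g = true
    · obtain ⟨q, hq, hpq⟩ := h
      have h1 : (if decide (∃ q ∈ Q, p q g = true) = true then 1 else 0) ≤ 1 := by
        split_ifs <;> simp
      refine h1.trans ?_
      have h3 := Finset.single_le_sum (s := Q) (f := fun q => if p q g = true then (1 : ℕ) else 0)
        (fun i _ => Nat.zero_le _) hq
      have h4 : (if p q g = true then (1 : ℕ) else 0) = 1 := by simp [hpq]
      exact h4.symm.le.trans h3
    · simp [h]

theorem del_count {α : Type*} {n : ℕ} (p : Fin n → α → Bool) (Q : Finset (Fin n)) (gs : List α) (A : ℕ)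
    (h : ∀ q ∈ Q, A * n * gs.countP (p q) ≤ gs.length) :
    A * gs.countP (fun g => decide (∃ q ∈ Q, p q g = true)) ≤ gs.length := by
  have h0 := countP_le_sum p Q gs
  rcases Nat.eq_zero_or_pos n with hn | hn
  · subst hn
    have hQ : Q = ∅ := by
      ext x
      exact x.elim0
    subst hQ
    simp
  · have h1 : n * (A * gs.countP (fun g => decide (∃ q ∈ Q, p q g = true))) ≤ n * gs.length := by
      calc n * (A * gs.countP (fun g => decide (∃ q ∈ Q, p q g = true)))
          = (A * n) * gs.countP (fun g => decide (∃ q ∈ Q, p q g = true)) := by ring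
        _ ≤ (A * n) * ∑ q ∈ Q, gs.countP (p q) := Nat.mul_le_mul_left _ h0
        _ = ∑ q ∈ Q, A * n * gs.countP (p q) := by rw [Finset.mul_sum]
        _ ≤ ∑ _q ∈ Q, gs.length := Finset.sum_le_sum h
        _ = Q.card * gs.length := by rw [Finset.sum_const, smul_eq_mul]
        _ ≤ n * gs.length := by
            refine Nat.mul_le_mul_right _ ?_
            calc Q.card ≤ (Finset.univ : Finset (Fin n)).card := Finset.card_le_univ Q
              _ = n := by simp
    exact Nat.le_of_mul_le_mul_left h1 hn

open Classical in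
theorem regroup {T : Type*} [Group T] {n R m : ℕ} (hR : 0 < R) (gs : List (List (List (Fin n → T))))
    (hg : ∀ g ∈ gs, g.length = R) (F : Finset (Fin n)) (c : Fin n)
    (hc : R * gs.length ≤ m * gs.flatten.countP (fun V => decide (Ful (HF (F : Set (Fin n)) V) c))) :
    gs.length ≤ m * (gs.map List.flatten).countP (fun V => decide (Ful (HF (F : Set (Fin n)) V) c)) := by
  refine (some_full (fun V => decide (Ful (HF (F : Set (Fin n)) V) c)) gs R m hR hg hc).trans ?_
  refine Nat.mul_le_mul_left _ ?_
  rw [List.countP_map]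
  refine List.countP_mono_left ?_
  intro g _ h
  have h1 : g.countP (fun V => decide (Ful (HF (F : Set (Fin n)) V) c)) ≠ 0 := of_decide_eq_true h
  obtain ⟨V, hV, hp⟩ := List.countP_pos_iff.mp (Nat.pos_of_ne_zero h1)
  have h2 : Ful (HF (F : Set (Fin n)) V) c := of_decide_eq_true hp
  show decide (Ful (HF (F : Set (Fin n)) g.flatten) c) = true
  exact decide_eq_true (Ful_mono (HF_mono (le_refl _) (sub_flatten hV)) h2)

private theorem countP_split {α : Type*} (a d : α → Bool) (l : List α) :
    l.countP a ≤ l.countP (fun x => a x && !d x) + l.countP d := by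
  induction l with
  | nil => simp
  | cons x l ih =>
    simp only [List.countP_cons]
    have : (if a x = true then 1 else 0) ≤ (if (a x && !d x) = true then 1 else 0) + (if d x = true then 1 else 0) := by
      cases a x <;> cases d x <;> simp
    omega

open Classical in
theorem force_solid {T : Type*} [Group T] [Finite T] [IsSimpleGroup T] (hna : ∃ a b : T, a * b ≠ b * a) {n K b : ℕ}
    (hK : PropRet n T K) (hb : GoodPos n T b) {R m2 : ℕ} (hR : 0 < R) (hm2 : 0 < m2) (hRb : 2 * m2 * (K * (b + 1)) ≤ R)
    (gs : List (List (List (Fin n → T)))) (hg : ∀ g ∈ gs, g.length = R) (F Q : Finset (Fin n))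
    (hdel : 4 * m2 * gs.countP (fun g => decide (∃ q ∈ Q, Ful (HF (F : Set (Fin n)) g.flatten) q)) ≤ gs.length)
    (c : Fin n)
    (hc : R * gs.length ≤ m2 * gs.flatten.countP (fun V => decide (Ful (HF (F : Set (Fin n)) V) c))) :
    gs.length ≤ 4 * m2 *
      ((gs.filter (fun g => decide (¬ ∃ q ∈ Q, Ful (HF (F : Set (Fin n)) g.flatten) q))).map List.flatten).countP
        (fun V => decide (Ful (HF ((F ∪ Q : Finset (Fin n)) : Set (Fin n)) V) c)) := by
  have h1 := rich (fun V => decide (Ful (HF (F : Set (Fin n)) V) c)) gs R m2 hR hg hc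
  have h2 := countP_split
    (fun g : List (List (Fin n → T)) =>
      decide (R ≤ 2 * m2 * g.countP (fun V => decide (Ful (HF (F : Set (Fin n)) V) c))))
    (fun g => decide (∃ q ∈ Q, Ful (HF (F : Set (Fin n)) g.flatten) q)) gs
  have h3 : gs.countP (fun g =>
      (decide (R ≤ 2 * m2 * g.countP (fun V => decide (Ful (HF (F : Set (Fin n)) V) c)))) &&
        !(decide (∃ q ∈ Q, Ful (HF (F : Set (Fin n)) g.flatten) q))) ≤
      ((gs.filter (fun g => decide (¬ ∃ q ∈ Q, Ful (HF (F : Set (Fin n)) g.flatten) q))).map List.flatten).countP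
        (fun V => decide (Ful (HF ((F ∪ Q : Finset (Fin n)) : Set (Fin n)) V) c)) := by
    rw [List.countP_map, List.countP_filter]
    refine List.countP_mono_left ?_
    intro g _ hgg
    rw [Bool.and_eq_true] at hgg
    obtain ⟨hr, hd⟩ := hgg
    have hr' : R ≤ 2 * m2 * g.countP (fun V => decide (Ful (HF (F : Set (Fin n)) V) c)) := of_decide_eq_true hr
    have hd' : ¬ ∃ q ∈ Q, Ful (HF (F : Set (Fin n)) g.flatten) q := by
      intro hh
      rw [decide_eq_true hh] at hd
      simp at hd
    have hcount : K * (b + 1) ≤ g.countP (fun V => decide (Ful (HF (F : Set (Fin n)) V) c)) := by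
      have : 2 * m2 * (K * (b + 1)) ≤ 2 * m2 * g.countP (fun V => decide (Ful (HF (F : Set (Fin n)) V) c)) :=
        hRb.trans hr'
      exact Nat.le_of_mul_le_mul_left this (by omega)
    have hPL := PL hna hK hb (F : Set (Fin n)) (Q : Set (Fin n)) g
      (fun q hq hf => hd' ⟨q, Finset.mem_coe.mp hq, hf⟩) c hcount
    rw [Bool.and_eq_true]
    refine ⟨?_, decide_eq_true hd'⟩
    show decide (Ful (HF ((F ∪ Q : Finset (Fin n)) : Set (Fin n)) g.flatten) c) = true
    rw [Finset.coe_union]
    exact decide_eq_true hPL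
  set X := ((gs.filter (fun g => decide (¬ ∃ q ∈ Q, Ful (HF (F : Set (Fin n)) g.flatten) q))).map List.flatten).countP
        (fun V => decide (Ful (HF ((F ∪ Q : Finset (Fin n)) : Set (Fin n)) V) c)) with hX
  set D := gs.countP (fun g => decide (∃ q ∈ Q, Ful (HF (F : Set (Fin n)) g.flatten) q)) with hD
  have h4 : gs.length ≤ 2 * m2 * (X + D) := by
    refine h1.trans (Nat.mul_le_mul_left _ ?_)
    exact h2.trans (Nat.add_le_add_right h3 _)
  have h5 : 2 * m2 * (X + D) = 2 * (m2 * X) + 2 * (m2 * D) := by ring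
  have h6 : 4 * m2 * D = 4 * (m2 * D) := by ring
  have h7 : 4 * m2 * X = 4 * (m2 * X) := by ring
  rw [h5] at h4
  rw [h6] at hdel
  rw [h7]
  omega

end Pool.Agent.LibPQ89
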