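import Pool.Agent.LibPQ89.K1

/-!
[PQ89 K2] (MEDIUM/LONG) One ROUND in the proof of Lemma 4 of the page. `1 ≤ K` (otherwise `hK` is false for `w = []`), so `0 < R`. `chunks R`: groups `gs`, `gs.length = bs.length / R =: N₁`, `gs.flatten` a sublist of `bs`. For a solid `c` (`c ∉ F`, `c ∉ Sig`): `bs.length ≤ m * bs.countP p ≤ m * (gs.flatten.countP p + R)` and
`2 * m * R ≤ bs.length` give `R * N₁ ≤ bs.length ≤ 2 * m * gs.flatten.countP p`. `X = {c ∈ Sig | N₁ ≤ 8 * (n + 1) * m * gs.countP (g ↦ Ful (HF F g.flatten) c)}`.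
CASE `2 * (Sig \ X).card ≤ Sig.card`: `bs' = gs.map List.flatten`, `F' = F`, `Sig' = Sig \ X`. Solid: `c ∉ Sig`: `regroup` with `2 * m` (`2 m ≤ 8 (n+1) m`); `c ∈ X`: definition (`List.countP_map`). `Nt F`: a group contains a block (`R > 0`), `Nt_mono`, `sub_flatten`.
OTHERWISE `2 * X.card ≤ Sig.card`: `Q = Sig \ X`, `F' = F ∪ Q`, `Sig' = X`, `gs' = gs.filter (no q ∈ Q full in g)`, `bs' = gs'.map List.flatten`. For `q ∈ Q`: `8 * (n + 1) * m * (count of q) < N₁`, so `del_count` with `A = 8 * m` gives `8 * m * #deleted ≤ N₁` (`n ≤ n + 1`); this is `hdel` for `m2 = 2 * m` and it gives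
`gs'.length ≥ N₁ / 2` (`gs'.length + #deleted = gs.length`: `List.length_eq_countP_add_countP`, `List.countP_eq_length_filter`). Solid `c` (`c ∉ F ∪ Q`, `c ∉ X`, so `c ∉ Sig`): `force_solid` with `m2 = 2 * m` (`2 * m2 * (K (b+1)) = 4 m K (b+1) ≤ R`): `bs'.length ≤ gs.length ≤ 8 m * count ≤ 8 (n+1) m * count`.
`Nt F'`: `EL` for `bs = g` (`K ≤ R = g.length` since `K ≤ 4 m K (b+1)`; the blocks of `g` are in `bs`), `Finset.coe_union`.
Length: `bs.length ≤ R * (N₁ + 1) ≤ 2 * R * N₁` (`N₁ ≥ 1`) and `N₁ ≤ 2 * bs'.length`. Sublists: `flatten_sub`, `List.flatten_map_flatten`-like (`(gs.map List.flatten).flatten = gs.flatten.flatten`).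
-/

set_option autoImplicit false

namespace Pool.Agent.LibPQ89

open Classical in
theorem round {T : Type*} [Group T] [Finite T] [IsSimpleGroup T] (hna : ∃ a b : T, a * b ≠ b * a) {n K b : ℕ}
    (hK : PropRet n T K) (hb : GoodPos n T b) {R m : ℕ} (hm : 1 ≤ m) (hR : 4 * m * (K * (b + 1)) ≤ R)
    (bs : List (List (Fin n → T))) (F Sig : Finset (Fin n)) (hdis : Disjoint F Sig)
    (hlen : 2 * m * R ≤ bs.length) (hne : ∀ V ∈ bs, Nt (F : Set (Fin n)) V)
    (hsol : ∀ c, c ∉ F → c ∉ Sig →
      bs.length ≤ m * bs.countP (fun V => decide (Ful (HF (F : Set (Fin n)) V) c))) :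
    ∃ (bs' : List (List (Fin n → T))) (F' Sig' : Finset (Fin n)), bs'.flatten.Sublist bs.flatten ∧ F ⊆ F' ∧
      Disjoint F' Sig' ∧ 2 * Sig'.card ≤ Sig.card ∧ bs.length ≤ 4 * R * bs'.length ∧
      (∀ V ∈ bs', Nt (F' : Set (Fin n)) V) ∧
      ∀ c, c ∉ F' → c ∉ Sig' →
        bs'.length ≤ 8 * (n + 1) * m * bs'.countP (fun V => decide (Ful (HF (F' : Set (Fin n)) V) c)) := by
  have hK1 : 1 ≤ K := by
    by_contra h0
    have h0' : K = 0 := by omega
    obtain ⟨t, ht, ht1, _⟩ := hK (fun _ => (⊥ : Subgroup T)) (fun _ => bot_ne_top) [] (by simp [h0'])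
      (fun x hx => absurd hx (by simp))
    exact ht1 (List.sublist_nil.mp ht)
  have hKb : K ≤ K * (b + 1) := Nat.le_mul_of_pos_right _ (Nat.succ_pos b)
  have hKm : K * (b + 1) ≤ m * (K * (b + 1)) := Nat.le_mul_of_pos_left _ (by omega)
  have h4m : 4 * m * (K * (b + 1)) = 4 * (m * (K * (b + 1))) := by ring
  have hKR : K ≤ R := by omega
  have hRpos : 0 < R := by omega
  obtain ⟨gs, hgl, hgR, hgsub, hgp⟩ := chunks R hRpos bs
  have hmR : R ≤ m * R := Nat.le_mul_of_pos_left _ (by omega)
  have h2mR : 2 * m * R = 2 * (m * R) := by ring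
  have hN1 : 1 ≤ gs.length := by
    rw [hgl]
    exact (Nat.le_div_iff_mul_le hRpos).mpr (by omega)
  have hRle : R * gs.length ≤ bs.length := by
    rw [hgl]
    exact Nat.mul_div_le bs.length R
  have hlt : bs.length ≤ 2 * R * gs.length := by
    have h1 : bs.length < R * (bs.length / R + 1) := Nat.lt_mul_div_succ bs.length hRpos
    rw [← hgl] at h1
    have h2 : R ≤ R * gs.length := Nat.le_mul_of_pos_right _ hN1
    have h3 : R * (gs.length + 1) = R * gs.length + R := by ring
    have h4 : 2 * R * gs.length = 2 * (R * gs.length) := by ring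
    omega
  have hmemg : ∀ g ∈ gs, ∀ V ∈ g, V ∈ bs := fun g hg V hV =>
    hgsub.subset (List.mem_flatten.mpr ⟨g, hg, hV⟩)
  have hflat : ∀ L : List (List (List (Fin n → T))), L.Sublist gs →
      (L.map List.flatten).flatten.Sublist bs.flatten := by
    intro L hL
    have h1 : (L.map List.flatten).flatten = L.flatten.flatten := (List.flatten_flatten).symm
    rw [h1]
    exact flatten_sub ((flatten_sub hL).trans hgsub)
  have hsolg : ∀ c, c ∉ F → c ∉ Sig → R * gs.length ≤ 2 * m *
      gs.flatten.countP (fun V => decide (Ful (HF (F : Set (Fin n)) V) c)) := by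
    intro c hc1 hc2
    have h1 := hsol c hc1 hc2
    have h2 := hgp (fun V => decide (Ful (HF (F : Set (Fin n)) V) c))
    have h3 := Nat.mul_le_mul_left m h2
    have h4 : m * (gs.flatten.countP (fun V => decide (Ful (HF (F : Set (Fin n)) V) c)) + R) =
        m * gs.flatten.countP (fun V => decide (Ful (HF (F : Set (Fin n)) V) c)) + m * R := by ring
    have h5 : 2 * m * gs.flatten.countP (fun V => decide (Ful (HF (F : Set (Fin n)) V) c)) =
        2 * (m * gs.flatten.countP (fun V => decide (Ful (HF (F : Set (Fin n)) V) c))) := by ring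
    omega
  have h8 : ∀ k : ℕ, 8 * m * k ≤ 8 * (n + 1) * m * k := by
    intro k
    refine Nat.mul_le_mul_right k ?_
    have : 8 * (n + 1) * m = 8 * m + 8 * n * m := by ring
    omega
  obtain ⟨X, hX⟩ : ∃ X : Finset (Fin n), X = Sig.filter (fun c => gs.length ≤ 8 * (n + 1) * m *
      gs.countP (fun g => decide (Ful (HF (F : Set (Fin n)) g.flatten) c))) := ⟨_, rfl⟩
  have hXS : X ⊆ Sig := by rw [hX]; exact Finset.filter_subset _ _
  have hXmem : ∀ c, c ∈ X → gs.length ≤ 8 * (n + 1) * m *
      gs.countP (fun g => decide (Ful (HF (F : Set (Fin n)) g.flatten) c)) := by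
    intro c hc
    rw [hX] at hc
    exact (Finset.mem_filter.mp hc).2
  have hXnot : ∀ c, c ∈ Sig → c ∉ X → 8 * (n + 1) * m *
      gs.countP (fun g => decide (Ful (HF (F : Set (Fin n)) g.flatten) c)) < gs.length := by
    intro c hc hc'
    by_contra hcon
    exact hc' (by rw [hX]; exact Finset.mem_filter.mpr ⟨hc, not_lt.mp hcon⟩)
  have hcard : (Sig \ X).card + X.card = Sig.card := Finset.card_sdiff_add_card_eq_card hXS
  by_cases hcase : 2 * (Sig \ X).card ≤ Sig.card
  · refine ⟨gs.map List.flatten, F, Sig \ X, hflat gs (List.Sublist.refl gs), Finset.Subset.refl F,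
      hdis.mono_right Finset.sdiff_subset, hcase, ?_, ?_, ?_⟩
    · rw [List.length_map]
      have h4 : 2 * R * gs.length = 2 * (R * gs.length) := by ring
      have h5 : 4 * R * gs.length = 4 * (R * gs.length) := by ring
      omega
    · intro V hV
      obtain ⟨g, hg, rfl⟩ := List.mem_map.mp hV
      have hglen := hgR g hg
      obtain ⟨V0, hV0⟩ : ∃ V0, V0 ∈ g := List.exists_mem_of_length_pos (by omega)
      exact Nt_mono (Set.Subset.refl _) (sub_flatten hV0) (hne V0 (hmemg g hg V0 hV0))
    · intro c hc1 hc2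
      rw [List.length_map]
      by_cases hcS : c ∈ Sig
      · have hcX : c ∈ X := by
          by_contra h
          exact hc2 (Finset.mem_sdiff.mpr ⟨hcS, h⟩)
        rw [List.countP_map]
        exact hXmem c hcX
      · have h1 := regroup hRpos gs hgR F c (hsolg c hc1 hcS)
        refine h1.trans ((Nat.mul_le_mul_right _ ?_).trans (h8 _))
        omega
  · have hdel0 : 8 * m * gs.countP (fun g => decide (∃ q ∈ (Sig \ X),
        (fun (q : Fin n) (g : List (List (Fin n → T))) => decide (Ful (HF (F : Set (Fin n)) g.flatten) q)) q g = true)) ≤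
        gs.length := by
      refine del_count (fun (q : Fin n) (g : List (List (Fin n → T))) =>
        decide (Ful (HF (F : Set (Fin n)) g.flatten) q)) (Sig \ X) gs (8 * m) ?_
      intro q hq
      obtain ⟨hq1, hq2⟩ := Finset.mem_sdiff.mp hq
      have h1 := hXnot q hq1 hq2
      have h2 : 8 * m * n * gs.countP (fun g => decide (Ful (HF (F : Set (Fin n)) g.flatten) q)) ≤
          8 * (n + 1) * m * gs.countP (fun g => decide (Ful (HF (F : Set (Fin n)) g.flatten) q)) := by
        refine Nat.mul_le_mul_right _ ?_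
        have : 8 * (n + 1) * m = 8 * m * n + 8 * m := by ring
        omega
      exact h2.trans h1.le
    have hceq : gs.countP (fun g => decide (∃ q ∈ (Sig \ X),
        (fun (q : Fin n) (g : List (List (Fin n → T))) => decide (Ful (HF (F : Set (Fin n)) g.flatten) q)) q g = true)) =
        gs.countP (fun g => decide (∃ q ∈ (Sig \ X), Ful (HF (F : Set (Fin n)) g.flatten) q)) := by
      refine List.countP_congr ?_
      intro g _
      simp only [decide_eq_true_eq]
    rw [hceq] at hdel0
    have hdel : 4 * (2 * m) * gs.countP (fun g => decide (∃ q ∈ (Sig \ X),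
        Ful (HF (F : Set (Fin n)) g.flatten) q)) ≤ gs.length := by
      have : 4 * (2 * m) = 8 * m := by ring
      rw [this]
      exact hdel0
    have hlen' : gs.length = (gs.filter (fun g => decide (¬ ∃ q ∈ (Sig \ X),
        Ful (HF (F : Set (Fin n)) g.flatten) q))).length + gs.countP (fun g => decide (∃ q ∈ (Sig \ X),
        Ful (HF (F : Set (Fin n)) g.flatten) q)) := by
      have h1 := List.length_eq_countP_add_countP (fun g => decide (∃ q ∈ (Sig \ X),
        Ful (HF (F : Set (Fin n)) g.flatten) q)) (l := gs)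
      rw [List.countP_eq_length_filter (l := gs)] at h1
      rw [← List.countP_eq_length_filter (l := gs)] at h1
      have h2 : gs.countP (fun a => decide (¬ (decide (∃ q ∈ (Sig \ X),
          Ful (HF (F : Set (Fin n)) a.flatten) q)) = true)) = gs.countP (fun g => decide (¬ ∃ q ∈ (Sig \ X),
          Ful (HF (F : Set (Fin n)) g.flatten) q)) := by
        refine List.countP_congr ?_
        intro g _
        simp only [decide_eq_true_eq]
      rw [← List.countP_eq_length_filter]
      omega
    have hmdel : gs.countP (fun g => decide (∃ q ∈ (Sig \ X), Ful (HF (F : Set (Fin n)) g.flatten) q)) ≤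
        m * gs.countP (fun g => decide (∃ q ∈ (Sig \ X), Ful (HF (F : Set (Fin n)) g.flatten) q)) :=
      Nat.le_mul_of_pos_left _ (by omega)
    have h8m : 8 * m * gs.countP (fun g => decide (∃ q ∈ (Sig \ X), Ful (HF (F : Set (Fin n)) g.flatten) q)) =
        8 * (m * gs.countP (fun g => decide (∃ q ∈ (Sig \ X), Ful (HF (F : Set (Fin n)) g.flatten) q))) := by ring
    refine ⟨(gs.filter (fun g => decide (¬ ∃ q ∈ (Sig \ X),
        Ful (HF (F : Set (Fin n)) g.flatten) q))).map List.flatten, F ∪ (Sig \ X), X,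
        hflat _ List.filter_sublist, Finset.subset_union_left, ?_, ?_, ?_, ?_, ?_⟩
    · rw [Finset.disjoint_union_left]
      exact ⟨hdis.mono_right hXS, Finset.sdiff_disjoint⟩
    · omega
    · rw [List.length_map]
      have h5 : 2 * R * gs.length ≤ 2 * R * (2 * (gs.filter (fun g => decide (¬ ∃ q ∈ (Sig \ X),
        Ful (HF (F : Set (Fin n)) g.flatten) q))).length) := Nat.mul_le_mul_left _ (by omega)
      have h6 : 2 * R * (2 * (gs.filter (fun g => decide (¬ ∃ q ∈ (Sig \ X),
        Ful (HF (F : Set (Fin n)) g.flatten) q))).length) = 4 * R * (gs.filter (fun g => decide (¬ ∃ q ∈ (Sig \ X),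
        Ful (HF (F : Set (Fin n)) g.flatten) q))).length := by ring
      omega
    · intro V hV
      obtain ⟨g, hg, rfl⟩ := List.mem_map.mp hV
      obtain ⟨hg1, hg2⟩ := List.mem_filter.mp hg
      have hg3 : ¬ ∃ q ∈ (Sig \ X), Ful (HF (F : Set (Fin n)) g.flatten) q := by
        simpa only [decide_eq_true_eq] using hg2
      rw [Finset.coe_union]
      refine EL hK (F : Set (Fin n)) ((Sig \ X : Finset (Fin n)) : Set (Fin n)) g ?_ ?_ ?_
      · rw [hgR g hg1]
        exact hKR
      · intro V hV'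
        exact hne V (hmemg g hg1 V hV')
      · intro q hq hful
        exact hg3 ⟨q, Finset.mem_coe.mp hq, hful⟩
    · intro c hc1 hc2
      rw [Finset.mem_union, not_or] at hc1
      have hcS : c ∉ Sig := fun h => hc1.2 (Finset.mem_sdiff.mpr ⟨h, hc2⟩)
      have h1 := force_solid hna hK hb hRpos (m2 := 2 * m) (by omega)
        (by
          have : 2 * (2 * m) * (K * (b + 1)) = 4 * m * (K * (b + 1)) := by ring
          omega) gs hgR F (Sig \ X) hdel c (hsolg c hc1.1 hcS)
      rw [List.length_map]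
      have h2 : 4 * (2 * m) = 8 * m := by ring
      rw [h2] at h1
      have h3 := h1.trans (h8 _)
      omega

end Pool.Agent.LibPQ89
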