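import Pool.Agent.LibPQ89.K2

/-!
[PQ89 K3] (MEDIUM) Lemma 4 of the page. `iterate`: induction on `j`. `j = 0`: `Sig.card < 1`, so `Sig = ∅`; take `F' = F`, `bs' = bs` (`0 < bs.length`). Step: `round` (with `4 * m * (K * (b+1)) ≤ R` from `hR`, `2 * m * R ≤ (4 * R)^(j+2) ≤ bs.length` since `m ≤ R`: `hR` and `1 ≤ K * (b+1)`, as `K ≥ 1`),
then the induction hypothesis for `bs'`, `F'`, `Sig'`, `m' = 8 * (n + 1) * m`: `Sig'.card < 2^j`, `bs'.length ≥ (4 * R)^(j+1)` from `bs.length ≤ 4 * R * bs'.length`.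
`layers`: `cut ((4 * R)^(L + 1)) ℓ s` with `L = Nat.log 2 n + 1`; `F = Kap`, `Sig = univ \ Kap`, `m = 1` (no solid `c`); `Sig.card ≤ n < 2^L` (`Nat.lt_pow_succ_log_self`). Result `F`, `bs'`: `F ≠ univ`: a block `V ∈ bs'` has a nonempty sublist with product `1` on `F`; if `F = univ` it is `1` and `s` returns
(`sub_flatten`). For `c ∉ F`: `0 < bs'.length ≤ m' * bs'.countP _`, so some `V ∈ bs'` has `Ful (HF F V) c`, `Ful_mono`, `HF_mono`.
-/

set_option autoImplicit false

namespace Pool.Agent.LibPQ89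

private theorem K3_one_le {T : Type*} [Group T] [Nontrivial T] {n K : ℕ} (hK : PropRet n T K) : 1 ≤ K := by
  by_contra h0
  have hK0 : K = 0 := by omega
  obtain ⟨t, ht, hne, -⟩ := hK (fun _ => ⊥) (fun _ => bot_ne_top) [] (by rw [hK0]; exact Nat.zero_le _)
    (fun x hx => absurd hx List.not_mem_nil)
  exact hne (List.sublist_nil.1 ht)

open Classical in
theorem iterate {T : Type*} [Group T] [Finite T] [IsSimpleGroup T] (hna : ∃ a b : T, a * b ≠ b * a) {n K b R : ℕ}
    (hK : PropRet n T K) (hb : GoodPos n T b) (j : ℕ) : ∀ (m : ℕ) (_ : 1 ≤ m)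
    (_ : 4 * (m * (8 * (n + 1)) ^ j) * (K * (b + 1)) ≤ R)
    (bs : List (List (Fin n → T))) (F Sig : Finset (Fin n)) (_ : Disjoint F Sig) (_ : Sig.card < 2 ^ j)
    (_ : (4 * R) ^ (j + 1) ≤ bs.length) (_ : ∀ V ∈ bs, Nt (F : Set (Fin n)) V)
    (_ : ∀ c, c ∉ F → c ∉ Sig →
      bs.length ≤ m * bs.countP (fun V => decide (Ful (HF (F : Set (Fin n)) V) c))),
    ∃ (bs' : List (List (Fin n → T))) (F' : Finset (Fin n)) (m' : ℕ), bs'.flatten.Sublist bs.flatten ∧ F ⊆ F' ∧
      0 < bs'.length ∧ (∀ V ∈ bs', Nt (F' : Set (Fin n)) V) ∧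
      ∀ c, c ∉ F' → bs'.length ≤ m' * bs'.countP (fun V => decide (Ful (HF (F' : Set (Fin n)) V) c)) := by
  have hK1 : 1 ≤ K := K3_one_le hK
  have hKb : 1 ≤ K * (b + 1) := Nat.mul_pos hK1 (Nat.succ_pos b)
  induction j with
  | zero =>
    intro m hm hR bs F Sig hdis hSig hlen hne hsol
    have hS0 : Sig = ∅ := by
      rw [pow_zero] at hSig
      exact Finset.card_eq_zero.1 (by omega)
    have hR1 : 1 ≤ R := by
      refine le_trans ?_ hR
      rw [pow_zero, mul_one]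
      exact Nat.mul_pos (by omega) hKb
    refine ⟨bs, F, m, List.Sublist.refl _, Finset.Subset.refl _, ?_, hne, ?_⟩
    · refine lt_of_lt_of_le ?_ hlen
      exact Nat.pow_pos (by omega)
    · intro c hc
      exact hsol c hc (by rw [hS0]; exact Finset.notMem_empty c)
  | succ j ih =>
    intro m hm hR bs F Sig hdis hSig hlen hne hsol
    have hP : 1 ≤ (8 * (n + 1)) ^ (j + 1) := Nat.one_le_pow _ _ (by omega)
    have hR' : 4 * m * (K * (b + 1)) ≤ R := by
      refine le_trans ?_ hR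
      refine Nat.mul_le_mul_right _ ?_
      refine Nat.mul_le_mul_left _ ?_
      exact Nat.le_mul_of_pos_right m hP
    have hmR : m ≤ R := by
      refine le_trans ?_ hR'
      calc m ≤ 4 * m := by omega
        _ ≤ 4 * m * (K * (b + 1)) := Nat.le_mul_of_pos_right _ hKb
    have hR1 : 1 ≤ R := hm.trans hmR
    have h4R : 0 < 4 * R := by omega
    have hlen' : 2 * m * R ≤ bs.length := by
      refine le_trans ?_ hlen
      calc 2 * m * R ≤ (4 * R) * (4 * R) := Nat.mul_le_mul (by omega) (by omega)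
        _ = (4 * R) ^ 2 := by ring
        _ ≤ (4 * R) ^ (j + 1 + 1) := Nat.pow_le_pow_right h4R (by omega)
    obtain ⟨bs', F', Sig', hsub, hFF, hdis', hcard, hlen'', hne', hsol'⟩ :=
      round hna hK hb hm hR' bs F Sig hdis hlen' hne hsol
    obtain ⟨bs2, F2, m2, h1, h2, h3, h4, h5⟩ := ih (8 * (n + 1) * m)
      (Nat.mul_pos (by omega) hm)
      (by
        refine le_trans (le_of_eq ?_) hR
        rw [pow_succ]
        ring)
      bs' F' Sig' hdis'
      (by
        rw [pow_succ] at hSig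
        omega)
      (by
        have h6 : (4 * R) * (4 * R) ^ (j + 1) ≤ (4 * R) * bs'.length := by
          refine le_trans (le_trans (le_of_eq ?_) hlen) hlen''
          rw [pow_succ]
          ring
        exact Nat.le_of_mul_le_mul_left h6 h4R)
      hne' hsol'
    exact ⟨bs2, F2, m2, h1.trans hsub, hFF.trans h2, h3, h4, h5⟩

theorem layers {T : Type*} [Group T] [Finite T] [IsSimpleGroup T] (hna : ∃ a b : T, a * b ≠ b * a) {n K b R ℓ : ℕ}
    (hK : PropRet n T K) (hb : GoodPos n T b) (hR : 4 * (8 * (n + 1)) ^ (Nat.log 2 n + 1) * (K * (b + 1)) ≤ R)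
    (Kap : Finset (Fin n)) (hℓ : ∀ V : List (Fin n → T), ℓ ≤ V.length → Nt (Kap : Set (Fin n)) V)
    (s : List (Fin n → T)) (hcl : ¬ Rt s) (hs : (4 * R) ^ (Nat.log 2 n + 2) * ℓ ≤ s.length) :
    ∃ F : Finset (Fin n), Kap ⊆ F ∧ F ≠ Finset.univ ∧ ∀ c, c ∉ F → Ful (HF (F : Set (Fin n)) s) c := by
  classical
  obtain ⟨bs, hbl, hbs, hbV⟩ := cut ((4 * R) ^ (Nat.log 2 n + 2)) ℓ s hs
  obtain ⟨bs', F, m', hsub, hKF, hpos, hne', hsol'⟩ := iterate hna hK hb (R := R) (Nat.log 2 n + 1) 1 le_rfl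
    (by rw [one_mul]; exact hR) bs Kap (Finset.univ \ Kap) Finset.disjoint_sdiff
    (by
      refine lt_of_le_of_lt ?_ (Nat.lt_pow_succ_log_self (b := 2) (by norm_num) n)
      refine (Finset.card_le_univ _).trans (le_of_eq ?_)
      exact Fintype.card_fin n)
    (le_of_eq hbl.symm) (fun V hV => hℓ V (le_of_eq (hbV V hV).symm))
    (fun c hc hc' => absurd (Finset.mem_sdiff.2 ⟨Finset.mem_univ c, hc⟩) hc')
  have hsubV : ∀ V ∈ bs', V.Sublist s := fun V hV => ((sub_flatten hV).trans hsub).trans hbs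
  refine ⟨F, hKF, ?_, ?_⟩
  · intro hF
    obtain ⟨V, hV⟩ := List.exists_mem_of_length_pos hpos
    obtain ⟨t, ht, htne, ht1⟩ := hne' V hV
    apply hcl
    refine ⟨t, ht.trans (hsubV V hV), htne, ?_⟩
    funext c
    exact ht1 c (by rw [hF]; exact Finset.mem_coe.2 (Finset.mem_univ c))
  · intro c hc
    have h1 := hsol' c hc
    have h2 : 0 < bs'.countP (fun V => decide (Ful (HF (F : Set (Fin n)) V) c)) := by
      rcases Nat.eq_zero_or_pos (bs'.countP (fun V => decide (Ful (HF (F : Set (Fin n)) V) c))) with h3 | h3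
      · rw [h3, mul_zero] at h1
        omega
      · exact h3
    obtain ⟨V, hV, hVc⟩ := List.countP_pos_iff.1 h2
    exact Ful_mono (HF_mono (Set.Subset.refl _) (hsubV V hV)) (of_decide_eq_true hVc)

end Pool.Agent.LibPQ89
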