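import Pool.Agent.LibPQ89.F4
import Pool.Agent.LibPQ89.C1
import Pool.Agent.LibPQ89.K3

/-!
[PQ89 M1] (MEDIUM) The recursion, section 6 of the page. `nt_of_ret`: an injection `e : Kap → Fin k` (`Kap.card ≤ k`); the map `φ x j = x c` if `j = e c` for some `c ∈ Kap`, else `1`, is a monoid homomorphism `(Fin n → T) →* (Fin k → T)`; apply `H` to `V.map φ`: a nonempty sublist of `V.map φ` with product `1` is `t.map φ` with `t` a nonempty
sublist of `V` (`List.sublist_map_iff`), `φ t.prod = 1`, so `t.prod c = φ t.prod (e c) = 1`.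
`main_rec`: suppose `¬ Rt s`. `cut N (M * B) s` and `cut M B` of every piece (`B = (4 * R)^(Nat.log 2 n + 2) * ℓ`): `Yss : List (List (List _))`, `Yss.length = N`, all `Ys.length = M`, all blocks of length `B`, `(Yss.map List.flatten).flatten` a sublist of `s`, so it does not return. `exists_block`: `Y`, `l`. `costly`: `Kap`, `2 * Kap.card ≤ n`.
`layers` for `s = Y` (not returning, since a sublist; `ℓ` from `nt_of_ret` with `k = n / 2`): `F ⊇ Kap`, `F ≠ univ`, all `c ∉ F` full in `HF F Y`. Contradiction to `costly`. `T` is nontrivial since simple.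
-/

set_option autoImplicit false

namespace Pool.Agent.LibPQ89

theorem nt_of_ret {T : Type*} [Group T] {n k ℓ : ℕ} (H : ∀ l : List (Fin k → T), ℓ ≤ l.length → Rt l)
    (Kap : Finset (Fin n)) (hk : Kap.card ≤ k) (V : List (Fin n → T)) (hV : ℓ ≤ V.length) :
    Nt (Kap : Set (Fin n)) V := by
  classical
  obtain ⟨φ, hφ⟩ : ∃ φ : (Fin n → T) →* (Fin k → T), ∀ (c : Fin n) (hc : c ∈ Kap), ∃ j : Fin k,
      ∀ x, φ x j = x c := by
    refine ⟨MonoidHom.pi (fun j : Fin k => if h : (j : ℕ) < Kap.card then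
      Pi.evalMonoidHom (fun _ : Fin n => T) ((Kap.equivFin.symm ⟨j, h⟩ : Kap) : Fin n) else 1), ?_⟩
    intro c hc
    refine ⟨Fin.castLE hk (Kap.equivFin ⟨c, hc⟩), fun x => ?_⟩
    have h1 : ((Fin.castLE hk (Kap.equivFin ⟨c, hc⟩) : Fin k) : ℕ) < Kap.card := by
      rw [Fin.val_castLE]
      exact (Kap.equivFin ⟨c, hc⟩).2
    rw [MonoidHom.pi_apply, dif_pos h1]
    have h2 : (⟨((Fin.castLE hk (Kap.equivFin ⟨c, hc⟩) : Fin k) : ℕ), h1⟩ : Fin Kap.card) =
        Kap.equivFin ⟨c, hc⟩ := by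
      apply Fin.ext
      rfl
    rw [h2, Equiv.symm_apply_apply]
    rfl
  obtain ⟨t, ht1, ht2, ht3⟩ := H (V.map φ) (by rw [List.length_map]; exact hV)
  obtain ⟨t', ht', rfl⟩ := List.sublist_map_iff.1 ht1
  refine ⟨t', ht', ?_, ?_⟩
  · rintro rfl
    exact ht2 rfl
  · intro c hc
    obtain ⟨j, hj⟩ := hφ c (Finset.mem_coe.1 hc)
    have h3 := hj t'.prod
    rw [map_list_prod, ht3] at h3
    rw [← h3]
    rfl

private theorem M1_sub {α : Type*} (Ps : List (List α)) (g : List α → List (List α))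
    (h : ∀ P ∈ Ps, (g P).flatten.Sublist P) : ((Ps.map g).map List.flatten).flatten.Sublist Ps.flatten := by
  induction Ps with
  | nil => exact List.Sublist.refl _
  | cons P Ps ih =>
    rw [List.map_cons, List.map_cons, List.flatten_cons, List.flatten_cons]
    exact (h P (List.mem_cons_self ..)).append (ih fun Q hQ => h Q (List.mem_cons_of_mem _ hQ))

theorem main_rec {T : Type*} [Group T] [Finite T] [IsSimpleGroup T] (hna : ∃ a b : T, a * b ≠ b * a)
    {n K b R ℓ N M : ℕ} (hK : PropRet n T K) (hb : GoodPos n T b)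
    (hR : 4 * (8 * (n + 1)) ^ (Nat.log 2 n + 1) * (K * (b + 1)) ≤ R) (hN : 2 * n ^ 2 < N) (hM : 2 * n * b < M)
    (H : ∀ l : List (Fin (n / 2) → T), ℓ ≤ l.length → Rt l)
    (s : List (Fin n → T)) (hs : N * (M * ((4 * R) ^ (Nat.log 2 n + 2) * ℓ)) ≤ s.length) : Rt s := by
  classical
  by_contra hcl
  obtain ⟨B, hB⟩ : ∃ B, B = (4 * R) ^ (Nat.log 2 n + 2) * ℓ := ⟨_, rfl⟩
  rw [← hB] at hs
  obtain ⟨Ps, hPs1, hPs2, hPs3⟩ := cut N (M * B) s hs
  have h2 : ∀ P : List (Fin n → T), ∃ Ys : List (List (Fin n → T)), P.length = M * B →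
      (Ys.length = M ∧ Ys.flatten.Sublist P ∧ ∀ V ∈ Ys, V.length = B) := by
    intro P
    by_cases h : P.length = M * B
    · obtain ⟨Ys, h3, h4, h5⟩ := cut M B P h.ge
      exact ⟨Ys, fun _ => ⟨h3, h4, h5⟩⟩
    · exact ⟨[], fun h' => absurd h' h⟩
  choose g hg using h2
  have hYN : (Ps.map g).length = N := by rw [List.length_map, hPs1]
  have hYM : ∀ Ys ∈ Ps.map g, Ys.length = M := by
    intro Ys hYs
    obtain ⟨P, hP, rfl⟩ := List.mem_map.1 hYs
    exact (hg P (hPs3 P hP)).1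
  have hsub : ((Ps.map g).map List.flatten).flatten.Sublist s :=
    (M1_sub Ps g fun P hP => (hg P (hPs3 P hP)).2.1).trans hPs2
  obtain ⟨Ys, hYs, Y, hY, l, hnd, hall, hl⟩ := exists_block hb (Ps.map g) hYN hYM hN hM
    (fun h => hcl (Rt_mono hsub h))
  obtain ⟨Kap, hK1, hK2⟩ := costly hna Y l hnd hall hl
  have hYs' : Y.Sublist s :=
    ((sub_flatten hY).trans (sub_flatten (List.mem_map.2 ⟨Ys, hYs, rfl⟩))).trans hsub
  have hYB : Y.length = B := by
    obtain ⟨P, hP, rfl⟩ := List.mem_map.1 hYs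
    exact (hg P (hPs3 P hP)).2.2 Y hY
  obtain ⟨F, hF1, hF2, hF3⟩ := layers hna hK hb hR Kap
    (fun V hV => nt_of_ret H Kap (by omega) V hV) Y (fun h => hcl (Rt_mono hYs' h))
    (by rw [hYB, hB])
  obtain ⟨c, hc1, hc2⟩ := hK2 F hF1 hF2
  exact hc2 (hF3 c hc1)

end Pool.Agent.LibPQ89
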