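import Mathlib

/-!
[PQ89 P0] (SHORT, several) Lists. `segments`: induction on `K`: the shortest prefix `J` of `l` with `b + 1` elements satisfying `p` (exists: induction on `l`), `(l = J ++ l')`, `l'.countP p = l.countP p - (b+1)`.
`cut`: as `exists_blocks`/`exists_cut` in `LibSMP` (take `b` elements, induct). `chunks`: `gs` = the first `l.length / R` chunks of length `R` (`List.toChunks` or by induction on `l.length / R`), `gs.flatten = l.take (R * (l.length / R))`, the rest has fewer than `R` elements.
`rich`: `gs.flatten.countP p = ∑_g g.countP p` (`List.countP_flatten`); the groups with `2 m * g.countP p < R` contribute at most `gs.length * R / (2 m)`; precisely: by induction on `gs`, `2 * m * gs.flatten.countP p ≤ R * gs.length + 2 * m * R * #rich`;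
together with `2 * R * gs.length ≤ 2 * m * gs.flatten.countP p` this gives `R * gs.length ≤ 2 * m * R * #rich`. `some_full`: by induction `gs.flatten.countP p ≤ R * #{g : g.countP p ≠ 0}`.
-/

set_option autoImplicit false

namespace Pool.Agent.LibPQ89

private theorem p0_prefix {α : Type*} (p : α → Bool) : ∀ (l : List α) (c : ℕ), c ≤ l.countP p →
    ∃ J l' : List α, l = J ++ l' ∧ J.countP p = c
  | l, 0, _ => ⟨[], l, rfl, rfl⟩
  | [], c + 1, h => by simp at h
  | x :: l, c + 1, h => by
    by_cases hx : p x = true
    · rw [List.countP_cons_of_pos hx] at h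
      obtain ⟨J, l', e, hJ⟩ := p0_prefix p l c (by omega)
      refine ⟨x :: J, l', by rw [e]; rfl, ?_⟩
      rw [List.countP_cons_of_pos hx, hJ]
    · rw [List.countP_cons_of_neg hx] at h
      obtain ⟨J, l', e, hJ⟩ := p0_prefix p l (c + 1) h
      refine ⟨x :: J, l', by rw [e]; rfl, ?_⟩
      rw [List.countP_cons_of_neg hx, hJ]

theorem segments {α : Type*} (p : α → Bool) (b K : ℕ) (l : List α) (h : K * (b + 1) ≤ l.countP p) :
    ∃ segs : List (List α), segs.length = K ∧ segs.flatten.Sublist l ∧ ∀ J ∈ segs, b < J.countP p := by
  induction K generalizing l with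
  | zero => exact ⟨[], rfl, by simp, by simp⟩
  | succ K ih =>
    have h1 : (K + 1) * (b + 1) = K * (b + 1) + (b + 1) := by ring
    obtain ⟨J, l', e, hJ⟩ := p0_prefix p l (b + 1) (by omega)
    have h2 : l.countP p = J.countP p + l'.countP p := by rw [e, List.countP_append]
    obtain ⟨segs, g1, g2, g3⟩ := ih l' (by omega)
    refine ⟨J :: segs, by simp [g1], ?_, ?_⟩
    · rw [List.flatten_cons, e]
      exact List.Sublist.append (List.Sublist.refl _) g2
    · intro I hI
      rcases List.mem_cons.1 hI with rfl | hI
      · omega
      · exact g3 I hI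

theorem cut {α : Type*} (a b : ℕ) (l : List α) (h : a * b ≤ l.length) :
    ∃ bs : List (List α), bs.length = a ∧ bs.flatten.Sublist l ∧ ∀ V ∈ bs, V.length = b := by
  induction a generalizing l with
  | zero => exact ⟨[], rfl, by simp, by simp⟩
  | succ a ih =>
    have h1 : (a + 1) * b = a * b + b := by ring
    obtain ⟨bs, g1, g2, g3⟩ := ih (l.drop b) (by rw [List.length_drop]; omega)
    refine ⟨l.take b :: bs, by simp [g1], ?_, ?_⟩
    · rw [List.flatten_cons]
      have h2 : (l.take b ++ bs.flatten).Sublist (l.take b ++ l.drop b) :=
        List.Sublist.append (List.Sublist.refl _) g2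
      rwa [List.take_append_drop] at h2
    · intro V hV
      rcases List.mem_cons.1 hV with rfl | hV
      · rw [List.length_take]
        omega
      · exact g3 V hV

private theorem p0_chunks {α : Type*} (R : ℕ) : ∀ (n : ℕ) (l : List α), n * R ≤ l.length →
    ∃ gs : List (List α), gs.length = n ∧ (∀ g ∈ gs, g.length = R) ∧ gs.flatten = l.take (n * R)
  | 0, l, _ => ⟨[], rfl, by simp, by simp⟩
  | n + 1, l, h => by
    have h1 : (n + 1) * R = n * R + R := by ring
    obtain ⟨gs, g1, g2, g3⟩ := p0_chunks R n (l.drop R) (by rw [List.length_drop]; omega)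
    refine ⟨l.take R :: gs, by simp [g1], ?_, ?_⟩
    · intro g hg
      rcases List.mem_cons.1 hg with rfl | hg
      · rw [List.length_take]
        omega
      · exact g2 g hg
    · have h2 : (n + 1) * R = R + n * R := by ring
      rw [List.flatten_cons, g3, h2, List.take_add]

theorem chunks {α : Type*} (R : ℕ) (hR : 0 < R) (l : List α) :
    ∃ gs : List (List α), gs.length = l.length / R ∧ (∀ g ∈ gs, g.length = R) ∧ gs.flatten.Sublist l ∧
      ∀ p : α → Bool, l.countP p ≤ gs.flatten.countP p + R := by
  obtain ⟨gs, g1, g2, g3⟩ := p0_chunks R (l.length / R) l (Nat.div_mul_le_self _ _)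
  refine ⟨gs, g1, g2, ?_, fun p => ?_⟩
  · rw [g3]
    exact List.take_sublist _ _
  · rw [g3]
    have h1 : l.countP p = (l.take (l.length / R * R)).countP p + (l.drop (l.length / R * R)).countP p := by
      rw [← List.countP_append, List.take_append_drop]
    have h2 : (l.drop (l.length / R * R)).countP p ≤ (l.drop (l.length / R * R)).length :=
      List.countP_le_length
    rw [List.length_drop] at h2
    have h3 : l.length / R * R + l.length % R = l.length := by
      rw [Nat.mul_comm]
      exact Nat.div_add_mod _ _
    have h4 : l.length % R < R := Nat.mod_lt _ hR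
    omega

theorem rich {α : Type*} (p : α → Bool) (gs : List (List α)) (R m : ℕ) (hR : 0 < R) (hg : ∀ g ∈ gs, g.length = R)
    (h : R * gs.length ≤ m * gs.flatten.countP p) :
    gs.length ≤ 2 * m * gs.countP (fun g => decide (R ≤ 2 * m * g.countP p)) := by
  have key : ∀ gs : List (List α), (∀ g ∈ gs, g.length = R) → 2 * m * gs.flatten.countP p ≤
      R * gs.length + 2 * m * R * gs.countP (fun g => decide (R ≤ 2 * m * g.countP p)) := by
    intro gs
    induction gs with
    | nil => intro _; simp
    | cons g gs ih =>
      intro hg
      have h1 := ih fun g' hg' => hg g' (List.mem_cons_of_mem _ hg')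
      have h2 : g.length = R := hg g List.mem_cons_self
      have h3 : g.countP p ≤ R := h2 ▸ List.countP_le_length
      rw [List.flatten_cons, List.countP_append, List.length_cons]
      by_cases hr : R ≤ 2 * m * g.countP p
      · rw [List.countP_cons_of_pos (by simpa using hr)]
        have h4 : 2 * m * g.countP p ≤ 2 * m * R := Nat.mul_le_mul_left _ h3
        nlinarith
      · rw [List.countP_cons_of_neg (by simpa using hr)]
        push Not at hr
        nlinarith
  have h1 := key gs hg
  have h2 : R * gs.length ≤ R * (2 * m * gs.countP (fun g => decide (R ≤ 2 * m * g.countP p))) := by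
    nlinarith
  exact Nat.le_of_mul_le_mul_left h2 hR

theorem some_full {α : Type*} (p : α → Bool) (gs : List (List α)) (R m : ℕ) (hR : 0 < R)
    (hg : ∀ g ∈ gs, g.length = R) (h : R * gs.length ≤ m * gs.flatten.countP p) :
    gs.length ≤ m * gs.countP (fun g => decide (g.countP p ≠ 0)) := by
  have key : ∀ gs : List (List α), (∀ g ∈ gs, g.length = R) → gs.flatten.countP p ≤
      R * gs.countP (fun g => decide (g.countP p ≠ 0)) := by
    intro gs
    induction gs with
    | nil => intro _; simp
    | cons g gs ih =>
      intro hg
      have h1 := ih fun g' hg' => hg g' (List.mem_cons_of_mem _ hg')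
      have h2 : g.length = R := hg g List.mem_cons_self
      have h3 : g.countP p ≤ R := h2 ▸ List.countP_le_length
      rw [List.flatten_cons, List.countP_append]
      by_cases hr : g.countP p = 0
      · rw [hr, List.countP_cons_of_neg (by simp [hr])]
        omega
      · rw [List.countP_cons_of_pos (by simpa using hr)]
        nlinarith
  have h1 := key gs hg
  have h2 : m * gs.flatten.countP p ≤ m * (R * gs.countP (fun g => decide (g.countP p ≠ 0))) :=
    Nat.mul_le_mul_left _ h1
  have h3 : R * gs.length ≤ R * (m * gs.countP (fun g => decide (g.countP p ≠ 0))) := by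
    calc R * gs.length ≤ m * gs.flatten.countP p := h
      _ ≤ m * (R * gs.countP (fun g => decide (g.countP p ≠ 0))) := h2
      _ = R * (m * gs.countP (fun g => decide (g.countP p ≠ 0))) := by ring
  exact Nat.le_of_mul_le_mul_left h3 hR

end Pool.Agent.LibPQ89
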