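import Pool.Agent.LibPQ89.B0
import Pool.Agent.LibPQ89.L2
import Pool.Agent.LibPQ89.P0

/-!
[PQ89 P1] (MEDIUM/LONG) (PL) of the page. `segments` with `p V = decide (Ful (HF F V) c)`: segments `J` of `bs`, `K` of them, `segs.flatten` a sublist of `bs`. `hb F J p` gives for each `J`: `V_J ∈ J` with `Ful (HF F V_J) c`, `x_J`, `y_J` with `x_J * h * y_J ∈ PF F J.flatten` for `h ∈ HF F V_J`.
`w_J = x_J * y_J` (`h = 1`). As in `EL` (file E1): `S q = (HF F bs.flatten).map (Pi.evalMonoidHom _ q) ≠ ⊤` for `q ∈ Q`, `⊥` for `q ∉ Q`, `w'_J = w_J` on `Q`, `1` outside; `hK S _ (segs.map w')` and `List.sublist_map_iff` give a nonempty sublist `J₀ :: rest` of `segs` with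
`w_{J₀} * (rest.map w).prod = 1` on `Q`. `H = HF F V_{J₀}`, `c` full in `H`. For `q ∈ Q`: `¬ Lnk H c q`, otherwise `q` is full in `H` (`lnk_ful`), so in `HF F bs.flatten` (`Ful_mono`, `HF_mono`, `V_{J₀}` is a sublist of `bs.flatten`). `fix_out` with `Q' = {q | q ∈ Q}` as a Finset
(`classical`, `Finset.univ.filter`): `h_τ ∈ H`, `h_τ c = τ`, `h_τ = 1` on `Q`. `y_τ = x * h_τ * y * (rest.map w).prod ∈ PF F bs.flatten` (`PF_mul`, `PF_flatten`, `PF_mono`; the product of `w_J ∈ PF F J.flatten`), equal to `1` on `Q`, so in `PF (F ∪ Q) bs.flatten`.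
`(y_τ * y_1⁻¹) c = x c * τ * (x c)⁻¹` (`h_1` with `τ = 1`: `h_1 c = 1`). So for a given `σ` take `τ = (x c)⁻¹ * σ * x c`. If `K = 0`: `PropRet n T 0` is false (`w = []`).
-/

set_option autoImplicit false

namespace Pool.Agent.LibPQ89

open Classical in
theorem PL {T : Type*} [Group T] [Finite T] [IsSimpleGroup T] (hna : ∃ a b : T, a * b ≠ b * a) {n K b : ℕ}
    (hK : PropRet n T K) (hb : GoodPos n T b) (F Q : Set (Fin n)) (bs : List (List (Fin n → T)))
    (hQ : ∀ q ∈ Q, ¬ Ful (HF F bs.flatten) q) (c : Fin n)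
    (hcount : K * (b + 1) ≤ bs.countP (fun V => decide (Ful (HF F V) c))) :
    Ful (HF (F ∪ Q) bs.flatten) c := by
  have : Nontrivial T := IsSimpleGroup.toNontrivial
  obtain ⟨segs, hlen, hsub, hseg⟩ := segments (fun V => decide (Ful (HF F V) c)) b K bs hcount
  have hex : ∀ J : List (List (Fin n → T)), ∃ (V : List (Fin n → T)) (x y : Fin n → T), J ∈ segs →
      V ∈ J ∧ Ful (HF F V) c ∧ ∀ h ∈ HF F V, x * h * y ∈ PF F J.flatten := by
    intro J
    by_cases hJ : J ∈ segs
    · obtain ⟨V, hV, hp, x, y, hxy⟩ := hb F J _ (hseg J hJ)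
      exact ⟨V, x, y, fun _ => ⟨hV, of_decide_eq_true hp, hxy⟩⟩
    · exact ⟨[], 1, 1, fun h => absurd h hJ⟩
  choose V x y hVxy using hex
  have hJbs : ∀ J ∈ segs, J.Sublist bs := fun J hJ => (sub_flatten hJ).trans hsub
  have hwmem : ∀ J ∈ segs, x J * y J ∈ PF F J.flatten := by
    intro J hJ
    have h1 := (hVxy J hJ).2.2 1 (Subgroup.one_mem _)
    rwa [mul_one] at h1
  set w' : List (List (Fin n → T)) → (Fin n → T) := fun J q => if q ∈ Q then (x J * y J) q else 1
    with hw'
  set S : Fin n → Subgroup T := fun q =>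
    if q ∈ Q then (HF F bs.flatten).map (Pi.evalMonoidHom (fun _ => T) q) else ⊥ with hS
  have hSne : ∀ q, S q ≠ ⊤ := by
    intro q hq
    by_cases hqQ : q ∈ Q
    · apply hQ q hqQ
      intro τ
      have h1 : τ ∈ S q := by rw [hq]; trivial
      simp only [hS, if_pos hqQ] at h1
      obtain ⟨h, hh, hhτ⟩ := Subgroup.mem_map.1 h1
      exact ⟨h, hh, hhτ⟩
    · simp only [hS, if_neg hqQ] at hq
      exact bot_ne_top hq
  have hret : Rt (segs.map w') := by
    apply hK S hSne (segs.map w') (by rw [List.length_map, hlen])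
    intro z hz q
    obtain ⟨J, hJ, rfl⟩ := List.mem_map.1 hz
    by_cases hqQ : q ∈ Q
    · simp only [hS, hw', if_pos hqQ]
      refine Subgroup.mem_map.2 ⟨x J * y J, ?_, rfl⟩
      exact HF_mono (Set.Subset.refl F) (flatten_sub (hJbs J hJ))
        (Subgroup.subset_closure (hwmem J hJ))
    · simp only [hS, hw', if_neg hqQ]
      exact Subgroup.one_mem _
  obtain ⟨t, htsub, htne, htprod⟩ := hret
  obtain ⟨l, hl, rfl⟩ := List.sublist_map_iff.1 htsub
  obtain _ | ⟨J₀, rest⟩ := l
  · exact absurd rfl htne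
  have hmemseg : ∀ J ∈ J₀ :: rest, J ∈ segs := fun J hJ => hl.subset hJ
  have hJ₀ : J₀ ∈ segs := hmemseg J₀ (List.mem_cons_self ..)
  have hrest : ∀ J ∈ rest, J ∈ segs := fun J hJ => hmemseg J (List.mem_cons_of_mem _ hJ)
  have heval : ∀ (q : Fin n) (f g : List (List (Fin n → T)) → (Fin n → T)) (l : List (List (List (Fin n → T)))),
      (∀ J, f J q = g J q) → (l.map f).prod q = (l.map g).prod q := by
    intro q f g l hfg
    induction l with
    | nil => rfl
    | cons J l ih =>
      simp only [List.map_cons, List.prod_cons, Pi.mul_apply]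
      rw [ih, hfg J]
  set R : Fin n → T := (rest.map (fun J => x J * y J)).prod with hR
  have hRQ : ∀ q ∈ Q, x J₀ q * y J₀ q * R q = 1 := by
    intro q hq
    have h1 : ((J₀ :: rest).map w').prod q = 1 := by rw [htprod]; rfl
    have h2 : ((J₀ :: rest).map w').prod q = ((J₀ :: rest).map (fun J => x J * y J)).prod q := by
      apply heval
      intro J
      simp only [hw', if_pos hq]
    rw [h2, List.map_cons, List.prod_cons, Pi.mul_apply, Pi.mul_apply] at h1
    exact h1
  obtain ⟨hVJ, hVful, hVPF⟩ := hVxy J₀ hJ₀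
  have hVbs : (V J₀).Sublist bs.flatten :=
    (sub_flatten hVJ).trans (flatten_sub (hJbs J₀ hJ₀))
  have hfix : ∀ τ : T, ∃ h ∈ HF F (V J₀), h c = τ ∧ ∀ q ∈ Finset.univ.filter (fun q => q ∈ Q), h q = 1 := by
    intro τ
    apply fix_out hna hVful _ _ τ
    intro q hq hlnk
    have hqQ : q ∈ Q := (Finset.mem_filter.1 hq).2
    exact hQ q hqQ (Ful_mono (HF_mono (Set.Subset.refl F) hVbs) (lnk_ful hVful hlnk).1)
  choose h hh hhc hhQ using hfix
  have hPF : ∀ τ : T, x J₀ * h τ * y J₀ * R ∈ PF (F ∪ Q) bs.flatten := by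
    intro τ
    have h1 : List.Forall₂ (fun z Z => z ∈ PF F Z)
        ((x J₀ * h τ * y J₀) :: rest.map (fun J => x J * y J)) ((J₀ :: rest).map List.flatten) := by
      rw [List.map_cons]
      refine List.Forall₂.cons (hVPF _ (hh τ)) ?_
      have h2 : ∀ l : List (List (List (Fin n → T))), (∀ J ∈ l, J ∈ segs) →
          List.Forall₂ (fun z Z => z ∈ PF F Z) (l.map (fun J => x J * y J)) (l.map List.flatten) := by
        intro l
        induction l with
        | nil => intro _; exact List.Forall₂.nil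
        | cons J l ih =>
          intro hl2
          rw [List.map_cons, List.map_cons]
          exact List.Forall₂.cons (hwmem J (hl2 J (List.mem_cons_self ..)))
            (ih (fun J' hJ' => hl2 J' (List.mem_cons_of_mem _ hJ')))
      exact h2 rest hrest
    have h3 := (PF_flatten h1).1
    rw [List.prod_cons, ← hR] at h3
    have h4 : ((J₀ :: rest).map List.flatten).flatten.Sublist bs.flatten := by
      rw [← List.flatten_flatten]
      exact flatten_sub ((flatten_sub hl).trans hsub)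
    have h5 := PF_mono (Set.Subset.refl F) h4 h3
    refine ⟨h5.1, ?_⟩
    rintro q (hq | hq)
    · exact h5.2 q hq
    · have h6 : h τ q = 1 := hhQ τ q (Finset.mem_filter.2 ⟨Finset.mem_univ _, hq⟩)
      have h7 := hRQ q hq
      simp only [Pi.mul_apply, h6, mul_one]
      exact h7
  intro σ
  refine ⟨(x J₀ * h ((x J₀ c)⁻¹ * σ * x J₀ c) * y J₀ * R) * (x J₀ * h 1 * y J₀ * R)⁻¹, ?_, ?_⟩
  · exact Subgroup.mul_mem _ (Subgroup.subset_closure (hPF _))
      (Subgroup.inv_mem _ (Subgroup.subset_closure (hPF _)))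
  · simp only [Pi.mul_apply, Pi.inv_apply, hhc]
    group

end Pool.Agent.LibPQ89
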