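import Pool.Agent.LibPQ89.Defs

/-!
[PQ89 Q0] (SHORT/MEDIUM, arithmetic) The functions `qp C n = 2 ^ (x ^ C)`, `x = Nat.log 2 (n + 2) + 1 ≥ 2`, `n + 2 < 2 ^ x` (`Nat.lt_pow_succ_log_self`).
`qp_mul`: `2 ^ (x^a) * 2 ^ (x^c) ≤ 2 ^ (2 * x ^ (max a c)) ≤ 2 ^ (x ^ (a + c + 1))` (`a, c ≤ a + c`). `qp_pow`: `k * x ^ a ≤ x ^ (a + k)` since `k < 2 ^ k ≤ x ^ k`. `poly_le_qp`: `(n+2)^C ≤ 2 ^ (x C) ≤ 2 ^ (x ^ (C+1))`.
`qp_mono`: both arguments. `qp_log`: `(qp C n) ^ (Nat.log 2 n + 1) ≤ qp (C + 1) n` (`Nat.log 2 n + 1 ≤ x`).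
`qp_poly`: `qp C ((n + 2) ^ k) ≤ qp (C * (k + 2)) n`: `log2 ((n+2)^k + 2) + 1 ≤ k x + 2 ≤ x ^ (k + 2)` (`(n+2)^k + 2 ≤ 2 ^ (k x + 1)`; `k x + 2 ≤ (k+1) x ≤ x^k * ... `; choose any convenient proof, the constant may be enlarged: tell helper89).
-/

set_option autoImplicit false

namespace Pool.Agent.LibPQ89

private theorem Q0_two_le (n : ℕ) : 2 ≤ Nat.log 2 (n + 2) + 1 := by
  have h : 1 ≤ Nat.log 2 (n + 2) := by
    have h2 : Nat.log 2 2 ≤ Nat.log 2 (n + 2) := Nat.log_mono_right (by omega)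
    have h3 : Nat.log 2 2 = 1 := by
      have := Nat.log_pow (b := 2) one_lt_two 1
      simpa using this
    omega
  omega

private theorem Q0_le_pow (n k : ℕ) : k + 1 ≤ (Nat.log 2 (n + 2) + 1) ^ k :=
  (Nat.lt_two_pow_self (n := k)).trans_le (Nat.pow_le_pow_left (Q0_two_le n) k)

private theorem Q0_lt (n : ℕ) : n + 2 ≤ 2 ^ (Nat.log 2 (n + 2) + 1) :=
  (Nat.lt_pow_succ_log_self one_lt_two (n + 2)).le

private theorem Q0_exp {a b : ℕ} (h : a ≤ b) : 2 ^ a ≤ 2 ^ b := Nat.pow_le_pow_right (by norm_num) h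

theorem qp_pos (C n : ℕ) : 1 ≤ qp C n := by
  unfold qp
  exact Nat.one_le_two_pow

theorem qp_mono {C C' n n' : ℕ} (hC : C ≤ C') (hn : n ≤ n') : qp C n ≤ qp C' n' := by
  unfold qp
  apply Q0_exp
  have h1 : Nat.log 2 (n + 2) + 1 ≤ Nat.log 2 (n' + 2) + 1 := by
    have := Nat.log_mono_right (b := 2) (show n + 2 ≤ n' + 2 by omega)
    omega
  have h2 : 0 < Nat.log 2 (n' + 2) + 1 := by omega
  exact (Nat.pow_le_pow_left h1 C).trans (Nat.pow_le_pow_right h2 hC)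

theorem qp_mul (a c n : ℕ) : qp a n * qp c n ≤ qp (a + c + 1) n := by
  unfold qp
  have hx := Q0_two_le n
  generalize Nat.log 2 (n + 2) + 1 = x at hx ⊢
  rw [← pow_add]
  apply Q0_exp
  have h0 : 0 < x := by omega
  have h1 : x ^ a ≤ x ^ (a + c) := Nat.pow_le_pow_right h0 (by omega)
  have h2 : x ^ c ≤ x ^ (a + c) := Nat.pow_le_pow_right h0 (by omega)
  calc x ^ a + x ^ c ≤ x ^ (a + c) * 2 := by omega
    _ ≤ x ^ (a + c) * x := Nat.mul_le_mul_left _ hx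
    _ = x ^ (a + c + 1) := (pow_succ _ _).symm

theorem qp_pow (a k n : ℕ) : qp a n ^ k ≤ qp (a + k) n := by
  unfold qp
  have hk := Q0_le_pow n k
  generalize Nat.log 2 (n + 2) + 1 = x at hk ⊢
  rw [← pow_mul]
  apply Q0_exp
  rw [pow_add]
  exact Nat.mul_le_mul_left _ (by omega)

theorem poly_le_qp (C n : ℕ) : (n + 2) ^ C ≤ qp (C + 1) n := by
  unfold qp
  have hk := Q0_le_pow n C
  have hn := Q0_lt n
  generalize Nat.log 2 (n + 2) + 1 = x at hk hn ⊢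
  calc (n + 2) ^ C ≤ (2 ^ x) ^ C := Nat.pow_le_pow_left hn C
    _ = 2 ^ (x * C) := (pow_mul _ _ _).symm
    _ ≤ 2 ^ (x ^ (C + 1)) := by
      apply Q0_exp
      rw [pow_succ, mul_comm (x ^ C) x]
      exact Nat.mul_le_mul_left _ (by omega)

theorem qp_log (C n : ℕ) : (qp C n) ^ (Nat.log 2 n + 1) ≤ qp (C + 1) n := by
  have hl : Nat.log 2 n + 1 ≤ Nat.log 2 (n + 2) + 1 := by
    have := Nat.log_mono_right (b := 2) (show n ≤ n + 2 by omega)
    omega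
  unfold qp
  rw [← pow_mul]
  apply Q0_exp
  rw [pow_succ]
  exact Nat.mul_le_mul_left _ hl

theorem qp_log' (C k n : ℕ) : (qp C n) ^ (Nat.log 2 n + k) ≤ qp (C + k + 1) n := by
  have hl : Nat.log 2 n + 1 ≤ Nat.log 2 (n + 2) + 1 := by
    have := Nat.log_mono_right (b := 2) (show n ≤ n + 2 by omega)
    omega
  have hk := Q0_le_pow n k
  have hx := Q0_two_le n
  unfold qp
  rw [← pow_mul]
  apply Q0_exp
  generalize Nat.log 2 (n + 2) + 1 = x at hl hk hx ⊢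
  generalize Nat.log 2 n = l at hl ⊢
  have h1 : l + k ≤ x ^ (k + 1) := by
    have h2 : (k + 1) * x ≤ x ^ k * x := Nat.mul_le_mul_right _ hk
    have h3 : k * 1 ≤ k * x := Nat.mul_le_mul_left _ (by omega)
    have h4 : (k + 1) * x = k * x + x := by ring
    rw [pow_succ]
    omega
  calc x ^ C * (l + k) ≤ x ^ C * x ^ (k + 1) := Nat.mul_le_mul_left _ h1
    _ = x ^ (C + k + 1) := by rw [← pow_add, add_assoc]

theorem qp_poly (C k n : ℕ) : qp C ((n + 2) ^ k) ≤ qp (C * (k + 2)) n := by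
  have hk := Q0_le_pow n k
  have hx := Q0_two_le n
  have hn := Q0_lt n
  unfold qp
  apply Q0_exp
  generalize Nat.log 2 (n + 2) + 1 = x at hk hx hn ⊢
  have h1 : (n + 2) ^ k + 2 ≤ 2 ^ (x * k + 2) := by
    have h2 : (n + 2) ^ k ≤ 2 ^ (x * k) := by
      rw [pow_mul]
      exact Nat.pow_le_pow_left hn k
    have h3 : 1 ≤ 2 ^ (x * k) := Nat.one_le_two_pow
    have h4 : 2 ^ (x * k + 2) = 4 * 2 ^ (x * k) := by
      rw [pow_add]
      ring
    omega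
  have h5 : Nat.log 2 ((n + 2) ^ k + 2) ≤ x * k + 2 := by
    have h6 := Nat.log_mono_right (b := 2) h1
    rwa [Nat.log_pow one_lt_two] at h6
  have h7 : Nat.log 2 ((n + 2) ^ k + 2) + 1 ≤ x ^ (k + 2) := by
    have h8 : (k + 1) * x ≤ x ^ k * x := Nat.mul_le_mul_right _ hk
    have h9 : x ^ k * x * 2 ≤ x ^ k * x * x := Nat.mul_le_mul_left _ hx
    have h10 : x ^ (k + 2) = x ^ k * x * x := by ring
    have h11 : (k + 1) * x = x * k + x := by ring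
    rw [h10]
    omega
  rw [mul_comm C (k + 2), pow_mul]
  exact Nat.pow_le_pow_left h7 C

end Pool.Agent.LibPQ89
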