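import Pool.Agent.LibPQ89.B0
import Pool.Agent.LibPQ89.Q0
import Pool.Agent.LibSMP.ProductOne

/-!
[PQ89 Q1] (SHORT/MEDIUM, several) Closure properties of `PQ`. Compare `PO_ext`, `exists_blocks`, `PO_of_solvable` in `Pool/Agent/LibSMP/ProductOne.lean`.
`PQ_ext`: `f : G →* Q`; `C₁`, `C₂` for `Q` and `f.ker`. If `qp C₁ n * qp C₂ n ≤ l.length` (true if `qp (C₁+C₂+1) n ≤ l.length`, `qp_mul`): `exists_blocks` with the property `∀ i, m.prod i ∈ f.ker` (`Rt (l.map (f ∘ ·))` gives a nonempty sublist, `List.sublist_map_iff`), then as in `PO_ext`.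
`PQ_inj`: map the list by `f` (`Rt` of the image list; `List.sublist_map_iff`; the product is mapped to `1`, so it is `1`). `PQ_triv`: a list of length `≥ 1`. `PQ_prod`: `PQ_ext` with `MonoidHom.snd`, kernel injects into `A` (`PQ_inj`). `PQ_pi`: compare `Dia_pi` in LibCR14/D4.lean: `ι ≃ Fin k`, induction on `k`
(`PQ_inj` and `PQ_prod` for `Fin.consEquiv`-like: the homomorphism `g ↦ (g 0, fun i => g i.succ)` is injective). `PQ_solv`: `PO_of_solvable` and `poly_le_qp`.
-/

set_option autoImplicit false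

namespace Pool.Agent.LibPQ89

open Pool.Agent.LibSMP

theorem PQ_ext {G Q : Type*} [Group G] [Group Q] (f : G →* Q) (hQ : PQ Q) (hK : PQ f.ker) : PQ G := by
  obtain ⟨C₁, h₁⟩ := hQ
  obtain ⟨C₂, h₂⟩ := hK
  refine ⟨C₁ + C₂ + 1, fun n l hl => ?_⟩
  have hl' : qp C₁ n * qp C₂ n ≤ l.length := (qp_mul C₁ C₂ n).trans hl
  have hb : ∀ l : List (Fin n → G), qp C₁ n ≤ l.length →
      ∃ l' : List (Fin n → G), l'.Sublist l ∧ l' ≠ [] ∧ ∀ i, l'.prod i ∈ f.ker := by
    intro l hl
    obtain ⟨t, ht1, ht2, ht3⟩ := h₁ n (l.map (f.compLeft (Fin n))) (by simpa using hl)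
    obtain ⟨l', hl'1, hl'2⟩ := List.sublist_map_iff.1 ht1
    refine ⟨l', hl'1, ?_, ?_⟩
    · rintro rfl
      exact ht2 (by simpa using hl'2)
    · intro i
      have h3 : (f.compLeft (Fin n)) l'.prod = 1 := by
        rw [map_list_prod, ← hl'2, ht3]
      exact congrFun h3 i
  obtain ⟨LL, hLL1, hLL2, hLL3⟩ := exists_blocks (fun m : List (Fin n → G) => ∀ i, m.prod i ∈ f.ker)
    (qp C₁ n) hb (qp C₂ n) l hl'
  let toN : {m : List (Fin n → G) // m ∈ LL} → (Fin n → f.ker) := fun m i =>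
    ⟨m.1.prod i, (hLL3 _ m.2).2 i⟩
  obtain ⟨K, hK1, hK2, hK3⟩ := h₂ n (LL.attach.map toN) (by simp [hLL1])
  obtain ⟨L', hL'1, hL'2⟩ := List.sublist_map_iff.1 hK1
  have hsub : (L'.map Subtype.val).Sublist LL := by
    have := hL'1.map Subtype.val
    rwa [List.attach_map_subtype_val] at this
  refine ⟨(L'.map Subtype.val).flatten, (flatten_sublist_of_sublist hsub).trans hLL2, ?_, ?_⟩
  · intro h
    have hne : L' ≠ [] := by
      rintro rfl
      simp at hL'2
      exact hK2 hL'2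
    obtain ⟨m, hm⟩ := List.exists_mem_of_ne_nil _ hne
    rw [List.flatten_eq_nil_iff] at h
    exact (hLL3 _ m.2).1 (h _ (List.mem_map_of_mem hm))
  · funext i
    have e1 : (L'.map Subtype.val).flatten.prod = ((L'.map Subtype.val).map List.prod).prod :=
      List.prod_flatten
    rw [e1]
    have e2 : ((((L'.map Subtype.val).map List.prod).prod : Fin n → G) i)
        = ((K.prod i : f.ker) : G) := by
      rw [hL'2]
      rw [Pi.list_prod_apply, Pi.list_prod_apply]
      rw [← Subgroup.coe_subtype, map_list_prod]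
      simp only [List.map_map]
      rfl
    rw [e2, hK3]
    rfl

theorem PQ_inj {G H : Type*} [Group G] [Group H] (f : H →* G) (hf : Function.Injective f) (h : PQ G) : PQ H := by
  obtain ⟨C, h⟩ := h
  refine ⟨C, fun n l hl => ?_⟩
  obtain ⟨t, ht1, ht2, ht3⟩ := h n (l.map (f.compLeft (Fin n))) (by simpa using hl)
  obtain ⟨l', hl'1, hl'2⟩ := List.sublist_map_iff.1 ht1
  refine ⟨l', hl'1, ?_, ?_⟩
  · rintro rfl
    exact ht2 (by simpa using hl'2)
  · have h3 : (f.compLeft (Fin n)) l'.prod = 1 := by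
      rw [map_list_prod, ← hl'2, ht3]
    funext i
    have h4 : f (l'.prod i) = f 1 := by
      rw [map_one]
      exact congrFun h3 i
    exact hf h4

theorem PQ_triv {G : Type*} [Group G] [Subsingleton G] : PQ G := by
  refine ⟨0, fun n l hl => ⟨l, List.Sublist.refl _, ?_, Subsingleton.elim _ _⟩⟩
  rintro rfl
  have := qp_pos 0 n
  simp at hl
  omega

theorem PQ_prod {A B : Type*} [Group A] [Group B] (hA : PQ A) (hB : PQ B) : PQ (A × B) := by
  refine PQ_ext (MonoidHom.snd A B) hB ?_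
  refine PQ_inj ((MonoidHom.fst A B).comp (MonoidHom.snd A B).ker.subtype) ?_ hA
  rintro ⟨⟨a, b⟩, hx⟩ ⟨⟨a', b'⟩, hy⟩ hxy
  have h1 : b = 1 := hx
  have h2 : b' = 1 := hy
  have h3 : a = a' := hxy
  subst h1 h2 h3
  rfl

private theorem Q1_fin (k : ℕ) : ∀ (G : Fin k → Type*) [∀ i, Group (G i)]
    (_ : ∀ i, PQ (G i)), PQ (∀ i, G i) := by
  induction k with
  | zero =>
    intro G _ _
    exact PQ_triv
  | succ k ih =>
    intro G _ h
    have h1 : PQ (G 0 × ∀ i : Fin k, G i.succ) := PQ_prod (h 0) (ih (fun i => G i.succ) fun i => h i.succ)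
    let f : (∀ i, G i) →* (G 0 × ∀ i : Fin k, G i.succ) :=
      { toFun := fun x => (x 0, fun i : Fin k => x i.succ)
        map_one' := rfl
        map_mul' := fun _ _ => rfl }
    refine PQ_inj f ?_ h1
    intro x y hxy
    have h2 : x 0 = y 0 := congrArg Prod.fst hxy
    have h3 : ∀ j : Fin k, x j.succ = y j.succ := fun j => congrFun (congrArg Prod.snd hxy) j
    funext i
    exact Fin.cases h2 h3 i

theorem PQ_pi {ι : Type*} [Finite ι] (G : ι → Type*) [∀ i, Group (G i)] (h : ∀ i, PQ (G i)) : PQ (∀ i, G i) := by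
  obtain ⟨k, ⟨e⟩⟩ := Finite.exists_equiv_fin ι
  have h1 : PQ (∀ j : Fin k, G (e.symm j)) := Q1_fin k (fun j => G (e.symm j)) fun j => h _
  let f : (∀ i, G i) →* (∀ j : Fin k, G (e.symm j)) :=
    { toFun := fun x j => x (e.symm j)
      map_one' := rfl
      map_mul' := fun _ _ => rfl }
  refine PQ_inj f ?_ h1
  intro x y hxy
  funext i
  obtain ⟨j, rfl⟩ := e.symm.surjective i
  exact congrFun hxy j

theorem PQ_solv.{u} (G : Type u) [Group G] [Finite G] [Group.IsSolvable G] : PQ G := by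
  obtain ⟨C, hC⟩ := PO_of_solvable _ G le_rfl
  refine ⟨C + 1, fun n l hl => ?_⟩
  exact hC n l ((poly_le_qp C n).trans hl)

end Pool.Agent.LibPQ89
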