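import Pool.Agent.LibPQ89.Q1

/-!
[PQ89 Q2] (MEDIUM) Products of proper subgroups; compare `proper_part` in LibCR14/D7.lean. `B = ∀ H : {H : Subgroup T // H ≠ ⊤}, H.1`, `PQ B` by `PQ_pi` (`{H // H ≠ ⊤}` is finite), constant `C`. For `S : Fin n → Subgroup T`, all `≠ ⊤`, and a list `w` with `x c ∈ S c`:
`f x : Fin n → B`, `f x c H = ⟨x c, _⟩` if `H.1 = S c` and `x c ∈ H.1`, `1` otherwise (`classical`, dependent if). On the subgroup `{x | ∀ c, x c ∈ S c}` it is multiplicative, `f 1 = 1`, and `f x = 1 → x = 1` (look at `H = S c`). So `Rt (w.map f)` gives `Rt w` (`List.sublist_map_iff`; the product of the sublist, by induction).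
(Alternatively work with lists in the subgroup `Subgroup.pi Set.univ S` and an injective homomorphism to `Fin n → B`.)
-/

set_option autoImplicit false

namespace Pool.Agent.LibPQ89

private theorem q2_sub {α β : Type*} (f : α → β) (w : List α) (t : List β) (h : t.Sublist (w.map f)) :
    ∃ s : List α, s.Sublist w ∧ s.map f = t := by
  obtain ⟨s, hs, rfl⟩ := List.sublist_map_iff.1 h
  exact ⟨s, hs, rfl⟩

open Classical in
theorem propRet.{u} (T : Type u) [Group T] [Finite T] (h : ∀ H : Subgroup T, H ≠ ⊤ → PQ H) :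
    ∃ C : ℕ, ∀ n : ℕ, PropRet n T (qp C n) := by
  let ι := {H : Subgroup T // H ≠ ⊤}
  let G : ι → Type u := fun H => H.1
  have hB : PQ (∀ H : ι, G H) := PQ_pi (G := G) (fun H => h H.1 H.2)
  obtain ⟨C, hC⟩ := hB
  refine ⟨C, fun n S hS w hw hx => ?_⟩
  let f : (Fin n → T) → (Fin n → ∀ H : ι, G H) := fun x c H =>
    if hh : H.1 = S c ∧ x c ∈ H.1 then ⟨x c, hh.2⟩ else 1
  have hf1 : f 1 = 1 := by
    funext c H
    simp only [f]
    split_ifs with hh
    · rfl
    · rfl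
  have hfm : ∀ x y : Fin n → T, (∀ c, x c ∈ S c) → (∀ c, y c ∈ S c) → f (x * y) = f x * f y := by
    intro x y hx hy
    funext c H
    simp only [f, Pi.mul_apply]
    by_cases hH : H.1 = S c
    · have h1 : x c ∈ H.1 := hH ▸ hx c
      have h2 : y c ∈ H.1 := hH ▸ hy c
      have h3 : x c * y c ∈ H.1 := H.1.mul_mem h1 h2
      rw [dif_pos ⟨hH, h3⟩, dif_pos ⟨hH, h1⟩, dif_pos ⟨hH, h2⟩]
      rfl
    · rw [dif_neg (fun hh => hH hh.1), dif_neg (fun hh => hH hh.1), dif_neg (fun hh => hH hh.1)]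
      simp
  have hfi : ∀ x : Fin n → T, (∀ c, x c ∈ S c) → f x = 1 → x = 1 := by
    intro x hx hfx
    funext c
    have h1 : f x c (⟨S c, hS c⟩ : ι) = 1 := by rw [hfx]; rfl
    have h0 : f x c (⟨S c, hS c⟩ : ι) = ⟨x c, hx c⟩ := dif_pos ⟨rfl, hx c⟩
    rw [h0] at h1
    exact congrArg Subtype.val h1
  have hprod : ∀ s : List (Fin n → T), (∀ x ∈ s, ∀ c, x c ∈ S c) →
      (∀ c, s.prod c ∈ S c) ∧ f s.prod = (s.map f).prod := by
    intro s
    induction s with
    | nil =>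
      intro _
      refine ⟨fun c => ?_, ?_⟩
      · simp
      · simpa using hf1
    | cons a s ih =>
      intro hs
      have ha : ∀ c, a c ∈ S c := hs a (by simp)
      obtain ⟨h1, h2⟩ := ih (fun x hx => hs x (by simp [hx]))
      refine ⟨fun c => ?_, ?_⟩
      · rw [List.prod_cons, Pi.mul_apply]
        exact (S c).mul_mem (ha c) (h1 c)
      · rw [List.prod_cons, hfm _ _ ha h1, h2, List.map_cons, List.prod_cons]
  obtain ⟨t, ht, htn, htp⟩ := hC n (w.map f) (by simpa using hw)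
  obtain ⟨s, hs, rfl⟩ := q2_sub f w t ht
  have hsx : ∀ x ∈ s, ∀ c, x c ∈ S c := fun x hx' => hx x (hs.subset hx')
  obtain ⟨h1, h2⟩ := hprod s hsx
  refine ⟨s, hs, ?_, hfi _ h1 (by rw [h2, htp])⟩
  rintro rfl
  exact htn rfl

end Pool.Agent.LibPQ89
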