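import Pool.Agent.LibPQ89.M1
import Pool.Agent.LibPQ89.G5
import Pool.Agent.LibPQ89.Q2

/-!
[PQ89 Q3] (MEDIUM, arithmetic) Nonabelian simple groups. Constants: `C₀` (`good_pos T`), `C₁` (`propRet T hP`). For `n`: `K = qp C₁ n`, `b = (n+2)^C₀`, `R = 4 * (8 * (n + 1)) ^ (Nat.log 2 n + 1) * (K * (b + 1))`, `N = 2 * n^2 + 1`, `M = 2 * n * b + 1`, `L = Nat.log 2 n + 2`.
`overhead`: there is `C₂` (depending on `C₀`, `C₁`) with `N * M * (4 * R) ^ L ≤ qp C₂ n`: `8 * (n+1) ≤ (n+2)^4`, so `(8 (n+1))^(log+1) ≤ (qp 5 n)^(log + 1) ≤ qp 6 n`; `R ≤ qp _ n` by `qp_mul`, `poly_le_qp`; `(4 R)^L ≤ qp _ n` by `qp_log'`; etc. (any `C₂`).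
`PQ_simple`: claim by strong induction on `n`: every list in `T^n` of length `≥ (qp C₂ n) ^ (Nat.log 2 n + 1)` returns. `n = 0`: a list of length `≥ 1` returns (`Fin 0 → T` is a subsingleton). `n = 1`: `main_rec` with `ℓ = 1` (`n / 2 = 0`). `n ≥ 2`: `main_rec` with `ℓ = (qp C₂ n) ^ (Nat.log 2 (n/2) + 1)`
(`≥ (qp C₂ (n/2)) ^ _`, `qp_mono`), `Nat.log 2 (n / 2) + 1 = Nat.log 2 n` (`Nat.log_div_base`). Then `qp_log`: `PQ T` with the constant `C₂ + 1`.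
-/

set_option autoImplicit false

namespace Pool.Agent.LibPQ89

theorem overhead (C₀ C₁ : ℕ) : ∃ C₂ : ℕ, ∀ n : ℕ,
    (2 * n ^ 2 + 1) * ((2 * n * (n + 2) ^ C₀ + 1) *
      (4 * (4 * (8 * (n + 1)) ^ (Nat.log 2 n + 1) * (qp C₁ n * ((n + 2) ^ C₀ + 1)))) ^ (Nat.log 2 n + 2)) ≤ qp C₂ n := by
  refine ⟨4 + ((C₀ + 3) + (C₀ + C₁ + 21) + 1) + 1, fun n => ?_⟩
  have hA1 : 1 ≤ (n + 2) ^ C₀ := Nat.one_le_pow _ _ (by omega)
  have h1 : 2 * n ^ 2 + 1 ≤ qp 4 n := by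
    refine le_trans ?_ (poly_le_qp 3 n)
    have h3 : 0 ≤ n ^ 3 := Nat.zero_le _
    nlinarith [sq_nonneg n]
  have h2 : 2 * n * (n + 2) ^ C₀ + 1 ≤ qp (C₀ + 3) n := by
    refine le_trans ?_ (poly_le_qp (C₀ + 2) n)
    have : (n + 2) ^ (C₀ + 2) = (n * n + 4 * n + 4) * (n + 2) ^ C₀ := by ring
    rw [this]
    nlinarith [Nat.zero_le (n * n * (n + 2) ^ C₀), Nat.zero_le (n * (n + 2) ^ C₀)]
  have h3 : 8 * (n + 1) ≤ qp 5 n := by
    refine le_trans ?_ (poly_le_qp 4 n)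
    have h8 : 2 ^ 3 ≤ (n + 2) ^ 3 := Nat.pow_le_pow_left (by omega) 3
    calc 8 * (n + 1) ≤ (n + 2) ^ 3 * (n + 2) := Nat.mul_le_mul (by simpa using h8) (by omega)
      _ = (n + 2) ^ 4 := by ring
  have h4 : (8 * (n + 1)) ^ (Nat.log 2 n + 1) ≤ qp 6 n :=
    le_trans (Nat.pow_le_pow_left h3 _) (qp_log 5 n)
  have h5 : (n + 2) ^ C₀ + 1 ≤ qp (C₀ + 2) n := by
    refine le_trans ?_ (poly_le_qp (C₀ + 1) n)
    rw [pow_succ]
    nlinarith
  have h6 : 4 ≤ qp 3 n := by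
    refine le_trans ?_ (poly_le_qp 2 n)
    nlinarith
  have h7 : 4 * (8 * (n + 1)) ^ (Nat.log 2 n + 1) ≤ qp (3 + 6 + 1) n :=
    le_trans (Nat.mul_le_mul h6 h4) (qp_mul 3 6 n)
  have h8 : qp C₁ n * ((n + 2) ^ C₀ + 1) ≤ qp (C₁ + (C₀ + 2) + 1) n :=
    le_trans (Nat.mul_le_mul le_rfl h5) (qp_mul C₁ (C₀ + 2) n)
  have h9 : 4 * (8 * (n + 1)) ^ (Nat.log 2 n + 1) * (qp C₁ n * ((n + 2) ^ C₀ + 1)) ≤
      qp (3 + 6 + 1 + (C₁ + (C₀ + 2) + 1) + 1) n :=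
    le_trans (Nat.mul_le_mul h7 h8) (qp_mul _ _ n)
  have h10 : 4 * (4 * (8 * (n + 1)) ^ (Nat.log 2 n + 1) * (qp C₁ n * ((n + 2) ^ C₀ + 1))) ≤
      qp (3 + (3 + 6 + 1 + (C₁ + (C₀ + 2) + 1) + 1) + 1) n :=
    le_trans (Nat.mul_le_mul h6 h9) (qp_mul _ _ n)
  have h11 : (4 * (4 * (8 * (n + 1)) ^ (Nat.log 2 n + 1) * (qp C₁ n * ((n + 2) ^ C₀ + 1)))) ^ (Nat.log 2 n + 2) ≤
      qp (C₀ + C₁ + 21) n := by
    refine le_trans (Nat.pow_le_pow_left h10 _) (le_trans (qp_log' _ 2 n) ?_)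
    exact qp_mono (by omega) le_rfl
  have h12 := le_trans (Nat.mul_le_mul h2 h11) (qp_mul _ _ n)
  exact le_trans (Nat.mul_le_mul h1 h12) (qp_mul _ _ n)

private theorem rt_of_empty {T : Type*} [Group T] {k : ℕ} (hk : k = 0) (l : List (Fin k → T)) (h : 1 ≤ l.length) :
    Rt l := by
  subst hk
  refine ⟨l, List.Sublist.refl _, ?_, Subsingleton.elim _ _⟩
  rintro rfl
  simp at h

theorem PQ_simple.{u} (T : Type u) [Group T] [Finite T] [IsSimpleGroup T] (hna : ∃ a b : T, a * b ≠ b * a)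
    (hP : ∀ H : Subgroup T, H ≠ ⊤ → PQ H) : PQ T := by
  obtain ⟨C₀, h0⟩ := good_pos T
  obtain ⟨C₁, h1⟩ := propRet T hP
  obtain ⟨C₂, h2⟩ := overhead C₀ C₁
  have claim : ∀ n : ℕ, ∀ l : List (Fin n → T), (qp C₂ n) ^ (Nat.log 2 n + 1) ≤ l.length → Rt l := by
    intro n
    induction n using Nat.strong_induction_on with
    | _ n ih =>
      intro s hs
      rcases Nat.eq_zero_or_pos n with hn | hn
      · exact rt_of_empty hn s (le_trans (Nat.one_le_pow _ _ (qp_pos C₂ n)) hs)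
      · have H : ∀ l : List (Fin (n / 2) → T), (qp C₂ n) ^ (Nat.log 2 n) ≤ l.length → Rt l := by
          intro l hl
          rcases Nat.eq_zero_or_pos (n / 2) with hk | hk
          · exact rt_of_empty hk l (le_trans (Nat.one_le_pow _ _ (qp_pos C₂ n)) hl)
          · apply ih (n / 2) (Nat.div_lt_self hn (by norm_num)) l
            refine le_trans ?_ hl
            have hlog : Nat.log 2 (n / 2) + 1 = Nat.log 2 n := by
              have hn2 : 2 ≤ n := by omega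
              exact (Nat.log_of_one_lt_of_le (by norm_num) hn2).symm
            rw [hlog]
            exact Nat.pow_le_pow_left (qp_mono le_rfl (Nat.div_le_self n 2)) _
        refine main_rec hna (h1 n) (h0 n) (le_refl _) (Nat.lt_succ_self _) (Nat.lt_succ_self _) H s ?_
        refine le_trans ?_ hs
        calc (2 * n ^ 2).succ * ((2 * n * (n + 2) ^ C₀).succ *
              ((4 * (4 * (8 * (n + 1)) ^ (Nat.log 2 n + 1) * (qp C₁ n * ((n + 2) ^ C₀ + 1)))) ^ (Nat.log 2 n + 2) *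
                (qp C₂ n) ^ (Nat.log 2 n)))
            = ((2 * n ^ 2 + 1) * ((2 * n * (n + 2) ^ C₀ + 1) *
              (4 * (4 * (8 * (n + 1)) ^ (Nat.log 2 n + 1) * (qp C₁ n * ((n + 2) ^ C₀ + 1)))) ^ (Nat.log 2 n + 2))) *
                (qp C₂ n) ^ (Nat.log 2 n) := by
              simp only [Nat.succ_eq_add_one]
              ring
          _ ≤ qp C₂ n * (qp C₂ n) ^ (Nat.log 2 n) := Nat.mul_le_mul (h2 n) le_rfl
          _ = (qp C₂ n) ^ (Nat.log 2 n + 1) := by ring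
  exact ⟨C₂ + 1, fun n l hl => claim n l (le_trans (qp_log C₂ n) hl)⟩

end Pool.Agent.LibPQ89
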