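import Pool.Agent.LibPQ89.Q3

/-!
[PQ89 Q4] (SHORT) Every finite group: copy `Dia_all` in LibCR14/D8.lean (strong induction on `Nat.card G`). `G` trivial: `PQ_triv`. A normal subgroup `N ≠ ⊥, ⊤`: `PQ_ext (QuotientGroup.mk' N)` (kernel `N`: `QuotientGroup.ker_mk'`, use `▸` or `PQ_inj` for the inclusion `ker → N`). Simple: commutative: `PQ_solv`
(`Group.IsSolvable` from commutativity) ; otherwise `PQ_simple`.
-/

set_option autoImplicit false

namespace Pool.Agent.LibPQ89

theorem PQ_all.{u} (G : Type u) [Group G] [Finite G] : PQ G := by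
  suffices h : ∀ m : ℕ, ∀ (G : Type u) [Group G] [Finite G], Nat.card G = m → PQ G from h _ G rfl
  intro m
  induction m using Nat.strong_induction_on with
  | _ m ih =>
    intro G _ _ hm
    have hsub : ∀ H : Subgroup G, H ≠ ⊤ → PQ H := by
      intro H hH
      have hlt : Nat.card H < m := by
        rw [← hm]
        exact lt_of_le_of_ne (Subgroup.card_le_card_group H) fun h => hH (Subgroup.eq_top_of_card_eq H h)
      exact ih _ hlt H rfl
    by_cases hs : Subsingleton G
    · exact PQ_triv
    by_cases hN : ∃ N : Subgroup G, N.Normal ∧ N ≠ ⊥ ∧ N ≠ ⊤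
    · obtain ⟨N, hN', h1, h2⟩ := hN
      have hn : N.Normal := hN'
      have hq : Nat.card (G ⧸ N) < m := by
        have h3 := Subgroup.card_eq_card_quotient_mul_card_subgroup N
        have h4 : 1 < Nat.card N := (Subgroup.one_lt_card_iff_ne_bot N).2 h1
        have h5 : 0 < Nat.card (G ⧸ N) := Nat.card_pos
        rw [← hm, h3]
        exact lt_mul_of_one_lt_right h5 h4
      refine PQ_ext (QuotientGroup.mk' N) (ih _ hq (G ⧸ N) rfl) ?_
      refine PQ_inj (Subgroup.inclusion (le_of_eq (QuotientGroup.ker_mk' N))) (Subgroup.inclusion_injective _) (hsub N h2)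
    · have hnt : Nontrivial G := not_subsingleton_iff_nontrivial.1 hs
      have hsimple : IsSimpleGroup G :=
        { exists_pair_ne := hnt.exists_pair_ne
          eq_bot_or_eq_top_of_normal := fun N hN' => by
            by_contra hcon
            exact hN ⟨N, hN', fun h => hcon (Or.inl h), fun h => hcon (Or.inr h)⟩ }
      by_cases hc : ∀ a b : G, a * b = b * a
      · have hsol : Group.IsSolvable G := Group.isSolvable_of_comm hc
        exact PQ_solv G
      · refine PQ_simple G ?_ hsub
        by_contra hcon
        refine hc fun a b => ?_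
        by_contra hab
        exact hcon ⟨a, b, hab⟩

end Pool.Agent.LibPQ89
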